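import Pool.Agent.Run7.h707.TD.Key2
import Pool.Agent.Run7.h707.TC.TotT

/-! The asymptotics for tuples with fixed sets of primes with exponent two, general weights -/

set_option autoImplicit false
set_option linter.unusedSectionVars false

open scoped Classical

namespace Run7.h707.TD

open Finset Filter
open Pool.Agent.Y692.QS (Ei)
open Pool.Agent.Y715.T.RecG (Pq)
open Pool.Agent.Y699.E (nrm QB)
open Pool.Agent.Y703.CX (jj XX eL zz kk eL_tendsto logX_eq HH NN ev_eL one_le_exp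
  HH_ge HH_le HH_pos kk_ge kk_le X_pos one_add_log lin_le zz_ge zz_pos)
open Pool.Agent.Y703.CQ (Sml sml_of sml_add)
open Pool.Agent.Y703.XK (sm la bl kk_pos sml_eps kap kap_nonneg kap_pow kap_le log_three S_EQ S_BIL)
open Pool.Agent.R419.KF (SG mem_SG SG_card sml_many sml_coll ff ff_nonneg ff_sum)
open Pool.Agent.R419.KF.Cnt (CntP t_CNT)
open Pool.Agent.Y433.XK (pN pN_pos)
open Pool.Agent.N883.FF (SU ClU)
open Pool.Agent.N883.FF.Tot (mem_SU su_le)
open Q283.T3 (gi cf gi_ge gi_le cf_pos cf_le_one)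
open Q283.T3A (c_bounds)
open Run7.h707.TC (TP mem_TP IjT kyT Tt mem_Tt GT fewT badT NdT mainT cmpT KyP eventually_all_fin
  card_pieces crossT ev1_sml sml_cutN YM tp_le ffT_nonneg ffT_sum ffT_summable CT sg_su)

theorem unionA {m : ℕ} {p : Fin m → ℕ → (Fin m → Finset Ei) → Prop}
    (h : ∀ k, ∀ ε : ℝ, 0 < ε → ∀ᶠ X : ℕ in atTop, ∀ F : Finset (Fin m → Finset Ei),
      (∀ S ∈ F, p k X S) → (F.card : ℝ) ≤ ε * (X : ℝ) ^ m) :
    ∀ ε : ℝ, 0 < ε → ∀ᶠ X : ℕ in atTop, ∀ F : Finset (Fin m → Finset Ei),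
      (∀ S ∈ F, ∃ k, p k X S) → (F.card : ℝ) ≤ ε * (X : ℝ) ^ m := by
  intro ε hε
  have hm0 : (0 : ℝ) < m + 1 := by positivity
  filter_upwards [eventually_all_fin fun k => h k (ε / (m + 1)) (by positivity)] with X hX
  intro F hF
  have hsub : F ⊆ univ.biUnion fun k => F.filter fun S => p k X S := by
    intro S hS
    obtain ⟨k, hk⟩ := hF S hS
    exact mem_biUnion.2 ⟨k, mem_univ _, mem_filter.2 ⟨hS, hk⟩⟩
  have h1 : (F.card : ℝ) ≤ ∑ k, ((F.filter fun S => p k X S).card : ℝ) := by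
    exact_mod_cast (card_le_card hsub).trans card_biUnion_le
  have h2 : ∑ k, ((F.filter fun S => p k X S).card : ℝ) ≤
      ∑ _k : Fin m, ε / (m + 1) * (X : ℝ) ^ m :=
    sum_le_sum fun k _ => hX k _ fun S hS => (mem_filter.1 hS).2
  rw [sum_const, card_univ, Fintype.card_fin, nsmul_eq_mul] at h2
  refine (h1.trans h2).trans ?_
  have hXm : (0 : ℝ) ≤ (X : ℝ) ^ m := by positivity
  have h3 : (m : ℝ) * (ε / (m + 1)) ≤ ε := by
    rw [mul_div_assoc', div_le_iff₀ hm0]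
    nlinarith
  calc (m : ℝ) * (ε / (m + 1) * (X : ℝ) ^ m) = (m * (ε / (m + 1))) * (X : ℝ) ^ m := by ring
    _ ≤ ε * (X : ℝ) ^ m := mul_le_mul_of_nonneg_right h3 hXm

/-- few primes in some color -/
theorem fewA (m R : ℕ) : ∀ ε : ℝ, 0 < ε → ∀ᶠ X : ℕ in atTop,
    ∀ F : Finset (Fin m → Finset Ei), (∀ S ∈ F, (∀ k, S k ∈ SG X ∧ (S k).card ≤ kk X) ∧
      ¬ ∀ k, 4 * ((Tt fun k => sm (zz X) (S k)).card + 1) + R + 1 ≤ (la (zz X) (S k)).card) →
      (F.card : ℝ) ≤ ε * (X : ℝ) ^ m := by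
  intro ε hε
  have h := unionA (m := m) (p := fun k X S => (∀ k, S k ∈ SG X ∧ (S k).card ≤ kk X) ∧
    ¬ 4 * ((Tt fun k => sm (zz X) (S k)).card + 1) + (R + 1) ≤ (la (zz X) (S k)).card)
    (fun k => fewT m k (R + 1)) ε hε
  filter_upwards [h] with X hX
  intro F hF
  refine hX F fun S hS => ?_
  obtain ⟨h1, h2⟩ := hF S hS
  rw [not_forall] at h2
  obtain ⟨k, hk⟩ := h2
  exact ⟨k, h1, by omega⟩

/-- few tuples have degenerate labels in some color -/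
theorem badA (m : ℕ) : ∀ ε : ℝ, 0 < ε → ∀ᶠ X : ℕ in atTop,
    ∀ F : Finset (Fin m → Finset Ei), (∀ S ∈ F, (∀ k, S k ∈ SG X ∧ (S k).card ≤ kk X) ∧
      ¬ NdV (zz X) S) → (F.card : ℝ) ≤ ε * (X : ℝ) ^ m := by
  intro ε hε
  have h := unionA (m := m) (p := fun k X S => (∀ k, S k ∈ SG X ∧ (S k).card ≤ kk X) ∧
    ¬ NdT (zz X) k S) (fun k => badT m k) ε hε
  filter_upwards [h] with X hX
  intro F hF
  refine hX F fun S hS => ?_
  obtain ⟨h1, h2⟩ := hF S hS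
  unfold NdV at h2
  rw [not_forall] at h2
  obtain ⟨k, hk⟩ := h2
  exact ⟨k, h1, hk⟩

/-- the tuples outside the regular part -/
theorem out_subV {m : ℕ} (M : Fin m → Finset Ei) (Y : Fin m → ℕ) (X z H K R : ℕ)
    (hYX : ∀ k, Y k ≤ X) {S : Fin m → Finset Ei} (hS : S ∈ TP M Y)
    (hn : ¬ (S ∈ RV M Y z H K R ∧ NdV z S)) :
    (∀ k, S k ∈ SG X) ∧ ((∃ k, S k ∈ (SG X).filter fun S => K < S.card) ∨
      (∃ k, S k ∈ (SG (Y k)).filter fun S => S.card ≤ K ∧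
        Y k < (∏ π ∈ sm z S, nrm π) * ∏ π ∈ la z S, XX H (bl H π)) ∨
      (∃ k, S k ∈ (SG X).filter fun S => ¬ Set.InjOn (bl H) (la z S : Set Ei)) ∨
      (∃ k l, k ≠ l ∧ ∃ π ∈ la z (S k), ∃ ρ ∈ la z (S l), bl H π = bl H ρ) ∨
      (∃ k, S k ∈ (SG X).filter fun S => S.card ≤ K ∧ (la z S).card ≤ (sm z S).card + 0) ∨
      ((∀ k, (S k).card ≤ K) ∧
        ¬ ∀ k, 4 * ((Tt fun k => sm z (S k)).card + 1) + R + 1 ≤ (la z (S k)).card) ∨
      ((∀ k, (S k).card ≤ K) ∧ ¬ NdV z S)) := by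
  have h0 := mem_TP.1 hS
  have hSY : ∀ k, S k ∈ SG (Y k) := fun k => mem_SG.2 ⟨(h0 k).1, (h0 k).2.1⟩
  have hSX : ∀ k, S k ∈ SG X := fun k => mem_SG.2 ⟨(h0 k).1, (h0 k).2.1.trans (hYX k)⟩
  refine ⟨hSX, ?_⟩
  by_contra hc
  rw [not_or, not_or, not_or, not_or, not_or, not_or] at hc
  obtain ⟨c1, c2, c3, c4, c5, c6, c7⟩ := hc
  replace c1 : ∀ k, S k ∉ (SG X).filter fun S => K < S.card := fun k h => c1 ⟨k, h⟩
  replace c2 : ∀ k, S k ∉ (SG (Y k)).filter fun S => S.card ≤ K ∧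
        Y k < (∏ π ∈ sm z S, nrm π) * ∏ π ∈ la z S, XX H (bl H π) := fun k h => c2 ⟨k, h⟩
  replace c3 : ∀ k, S k ∉ (SG X).filter fun S => ¬ Set.InjOn (bl H) (la z S : Set Ei) :=
    fun k h => c3 ⟨k, h⟩
  replace c4 : ∀ k l, k ≠ l → ∀ π ∈ la z (S k), ∀ ρ ∈ la z (S l), bl H π ≠ bl H ρ :=
    fun k l h π hπ ρ hρ e => c4 ⟨k, l, h, π, hπ, ρ, hρ, e⟩
  replace c6 : (∀ k, (S k).card ≤ K) → ∀ k, 4 * ((Tt fun k => sm z (S k)).card + 1) + R + 1 ≤
      (la z (S k)).card := fun h => by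
    by_contra h'
    exact c6 ⟨h, h'⟩
  replace c7 : (∀ k, (S k).card ≤ K) → NdV z S := fun h => by
    by_contra h'
    exact c7 ⟨h, h'⟩
  have d1 : ∀ k, (S k).card ≤ K := fun k => by
    by_contra h
    exact c1 k (mem_filter.2 ⟨hSX k, by omega⟩)
  have d6 := c6 d1
  have d7 := c7 d1
  apply hn
  refine ⟨?_, d7⟩
  unfold RV
  rw [mem_filter]
  refine ⟨hS, ?_, d1, ?_, ?_⟩
  · intro k l π hπ ρ hρ hb
    by_cases hkl : k = l
    · refine ⟨hkl, ?_⟩
      subst hkl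
      by_contra hne
      apply c3 k
      rw [mem_filter]
      refine ⟨hSX k, fun hi => hne (hi (mem_coe.2 hπ) (mem_coe.2 hρ) hb)⟩
    · exact absurd hb (c4 k l hkl π hπ ρ hρ)
  · intro k
    by_contra h
    exact c2 k (mem_filter.2 ⟨hSY k, d1 k, by omega⟩)
  · exact d6

/-- **the asymptotics for the tuples** -/
theorem asyV (hBIL : S_BIL) (hEQ : S_EQ) {m Mt : ℕ} (hm1 : 1 ≤ m)
    (s : Fin Mt → Fin m → ZMod 3) (ld : Fin Mt → Fin m) (hs : ∀ t, s t (ld t) ≠ 0)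
    (hs0 : ∀ t k, k < ld t → s t k = 0)
    (hsep : ∀ t t', t ≠ t' → ld t = ld t' → ∃ k, s t k * s t (ld t) ≠ s t' k * s t' (ld t'))
    (y : Fin Mt → ZMod 3) (r : Fin Mt → ℕ) (M : Fin m → Finset Ei) (n : Fin m → ℕ)
    (hn : ∀ k, 1 ≤ n k) (P : (Fin m → Finset Ei) → Prop) (hP : KyP M P) (ε : ℝ) (hε : 0 < ε) :
    ∀ᶠ X : ℕ in atTop,
      |(((TP M fun k => X / n k).filter fun S => P S ∧ GT M s y r S).card : ℝ) -
        (∏ t, gi * cf (r t)) * (((TP M fun k => X / n k).filter P).card : ℝ)| ≤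
        ε * (X : ℝ) ^ m := by
  obtain ⟨C, hC1, hkey⟩ := t_KEV hBIL
  obtain ⟨D, hD⟩ := t_CNT
  obtain ⟨g, hg⟩ : ∃ g : ℝ, g = ∏ t, gi * cf (r t) := ⟨_, rfl⟩
  have hgb := c_bounds r
  rw [← hg] at hgb ⊢
  obtain ⟨η, hη⟩ : ∃ η : ℝ, η = ε / (2 * (16 ^ m + 8 * m + 8)) := ⟨_, rfl⟩
  have hη0 : 0 < η := by rw [hη]; positivity
  obtain ⟨R, hR⟩ := t_BXV hEQ s ld hs hs0 hsep y r η hη0
  have hbx := hR R le_rfl M
  rw [← hg] at hbx
  have s1 := sml_many hD
  have s3 := sml_coll hD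
  have s4 := sml_eps (Pool.Agent.R419.KF.Few.t_FEW 0)
  filter_upwards [eventually_all_fin fun k : Fin m => ev1_sml k _ s1 η hη0,
    eventually_all_fin fun k : Fin m => ev1_sml k _ (sml_cutN hD (hn k)) η hη0,
    eventually_all_fin fun k : Fin m => ev1_sml k _ s3 η hη0,
    crossT m η hη0,
    eventually_all_fin fun k : Fin m => ev1_sml k _ s4 η hη0,
    fewA m R η hη0, badA m η hη0, mainT m hC1 η hη0, ev_eL 1,
    ev_eL (2 * ((univ.sup fun k => (M k).sup nrm : ℕ) : ℝ)),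
    eventually_all_fin fun k : Fin m => eventually_ge_atTop (n k)] with X E1 E2 E3 E4 E5 E6 E7 E8
      hl hlm hXn
  have hl0 : 0 < eL X := by linarith
  have hXp := X_pos hl0
  have hXp' : (0 : ℝ) < X := by exact_mod_cast hXp
  have hN : (HH X : ℝ) * Real.log X < NN X := by
    unfold NN
    push_cast
    exact Nat.lt_floor_add_one _
  have hMz : ∀ k, ∀ q ∈ M k, nrm q ≤ zz X := by
    intro k q hq
    have h5 : nrm q ≤ (univ.sup fun k => (M k).sup nrm : ℕ) :=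
      (Finset.le_sup (f := nrm) hq).trans
        (Finset.le_sup (f := fun k => (M k).sup nrm) (mem_univ k))
    refine h5.trans ?_
    have h6 := zz_ge hl
    have h7 : eL X ≤ Real.exp ((eL X) ^ 3) := by
      have h8 : eL X ≤ (eL X) ^ 3 := by
        have h9 : (eL X) ^ 3 = eL X * (eL X * eL X) := by ring
        rw [h9]
        nlinarith
      have := Real.add_one_le_exp ((eL X) ^ 3)
      linarith
    have h8 : ((univ.sup fun k => (M k).sup nrm : ℕ) : ℝ) ≤ zz X := by linarith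
    exact_mod_cast h8
  obtain ⟨Y, hY⟩ : ∃ Y : Fin m → ℕ, ∀ k, X / n k = Y k := ⟨_, fun _ => rfl⟩
  have hYf : (fun k => X / n k) = Y := funext hY
  rw [hYf]
  simp only [hY] at E2
  have hY1 : ∀ k, 1 ≤ Y k := fun k => by
    rw [← hY]
    exact (Nat.one_le_div_iff (hn k)).2 (hXn k)
  have hYX : ∀ k, Y k ≤ X := fun k => by
    rw [← hY]
    exact Nat.div_le_self _ _
  set RR := RV M Y (zz X) (HH X) (kk X) R with hRR
  -- the property of the keys
  obtain ⟨Q, hQ⟩ : ∃ Q : (Fin m → Finset Ei × Finset ℕ) → Prop, ∀ k', (Q k' ↔ ∃ S' ∈ RR,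
    kyT (zz X) (HH X) S' = k' ∧ P S') := ⟨_, fun _ => Iff.rfl⟩
  have hPQ : ∀ S ∈ RR, (Q (kyT (zz X) (HH X) S) ↔ P S) := by
    intro S hS
    have h1 := (mem_RV hMz (HH_pos hl0)).1 hS
    rw [hQ]
    constructor
    · rintro ⟨S', hS', h2, h3⟩
      have h4 := (mem_RV hMz (HH_pos hl0)).1 hS'
      exact (hP _ _ (HH_pos hl0) hMz S' S h4.1 h1.1
        (fun k => (h4.2.2.1 k).trans (filter_subset _ _))
        (fun k => (h1.2.2.1 k).trans (filter_subset _ _)) h4.2.1 h1.2.1 h2).1 h3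
    · exact fun h => ⟨S, hS, rfl, h⟩
  have hmain := hkey s y r M R g η hbx hη0.le Q Y X (zz X) (HH X) (kk X) (NN X) (kap C X)
    hMz hY1 hYX (HH_pos hl0) (zz_pos hl) (kap_nonneg hC1 X) (kap_pow hC1 hl) hN
  rw [← hRR] at hmain
  set T := RR.filter fun S => P S ∧ NdV (zz X) S with hT
  have e1 : RR.filter (fun S => Q (kyT (zz X) (HH X) S) ∧ NdV (zz X) S ∧ GT M s y r S) =
      T.filter (GT M s y r) := by
    rw [hT, filter_filter]
    refine filter_congr fun S hS => ?_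
    rw [hPQ S hS, and_assoc]
  have e2 : RR.filter (fun S => Q (kyT (zz X) (HH X) S) ∧ NdV (zz X) S) = T := by
    rw [hT]
    refine filter_congr fun S hS => ?_
    rw [hPQ S hS]
  rw [e1, e2] at hmain
  set TT := TP M Y with hTT
  have hRT : RR ⊆ TT := filter_subset _ _
  have hTS : T ⊆ TT.filter P := by
    intro S hS
    rw [hT, mem_filter] at hS
    exact mem_filter.2 ⟨hRT hS.1, hS.2.1⟩
  have hcmp := cmpT (GT M s y r) T (TT.filter P) hTS g hgb.1 hgb.2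
  rw [filter_filter] at hcmp
  -- the tuples outside
  set BB : Finset (Fin m → Finset Ei) := TT.filter fun S =>
    ¬ (S ∈ RR ∧ NdV (zz X) S) with hBB
  have hsubB : TT.filter P \ T ⊆ BB := by
    intro S hS
    rw [Finset.mem_sdiff, mem_filter] at hS
    rw [hBB, mem_filter]
    refine ⟨hS.1.1, fun h => hS.2 ?_⟩
    rw [hT, mem_filter]
    exact ⟨h.1, hS.1.2, h.2⟩
  have hBc : (BB.card : ℝ) ≤ (4 * m + 3) * (η * (X : ℝ) ^ m) :=
    card_pieces BB _ _ _ _ _ _ _ E1 E2 E3 E4 E5 E6 E7 fun S hS =>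
      out_subV M Y X (zz X) (HH X) (kk X) R hYX (mem_filter.1 hS).1 (mem_filter.1 hS).2
  have hout : (((TT.filter P) \ T).card : ℝ) ≤ (4 * m + 3) * (η * (X : ℝ) ^ m) :=
    (Nat.cast_le (α := ℝ).2 (card_le_card hsubB)).trans hBc
  have hRc : ((RR.filter fun S => Q (kyT (zz X) (HH X) S)).card : ℝ) ≤ (16 * X : ℝ) ^ m := by
    have h1 : RR.filter (fun S => Q (kyT (zz X) (HH X) S)) ⊆
        Fintype.piFinset fun _ : Fin m => SG X := by
      intro S hS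
      rw [Fintype.mem_piFinset]
      have h0 := mem_TP.1 (hRT (mem_filter.1 hS).1)
      exact fun k => mem_SG.2 ⟨(h0 k).1, (h0 k).2.1.trans (hYX k)⟩
    refine (Nat.cast_le (α := ℝ).2 (card_le_card h1)).trans ?_
    rw [Fintype.card_piFinset]
    push_cast
    calc ∏ _k : Fin m, ((SG X).card : ℝ) ≤ ∏ _k : Fin m, (16 * X : ℝ) :=
          prod_le_prod (fun _ _ => Nat.cast_nonneg _) fun _ _ => SG_card X
      _ = (16 * X : ℝ) ^ m := by rw [prod_const, card_univ, Fintype.card_fin]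
  have hfin : |((T.filter (GT M s y r)).card : ℝ) - g * (T.card : ℝ)| ≤
      (16 ^ m + 1) * (η * (X : ℝ) ^ m) := by
    refine hmain.trans ?_
    have h1 : η * ((RR.filter fun S => Q (kyT (zz X) (HH X) S)).card : ℝ) ≤
        16 ^ m * (η * (X : ℝ) ^ m) := by
      calc _ ≤ η * (16 * X : ℝ) ^ m := mul_le_mul_of_nonneg_left hRc hη0.le
        _ = _ := by rw [mul_pow]; ring
    linarith
  have hlast : (16 ^ m + 1) * (η * (X : ℝ) ^ m) + (4 * m + 3) * (η * (X : ℝ) ^ m) ≤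
      ε * (X : ℝ) ^ m := by
    have hXm : 0 ≤ (X : ℝ) ^ m := by positivity
    have hm0 : (0 : ℝ) ≤ m := Nat.cast_nonneg _
    have h1 : ((16 : ℝ) ^ m + 1) * η + (4 * m + 3) * η ≤ ε := by
      have h2 : η * (2 * (16 ^ m + 8 * m + 8)) = ε := by
        rw [hη]
        field_simp
      have h3 : (0 : ℝ) < 16 ^ m := by positivity
      nlinarith
    calc _ = (((16 : ℝ) ^ m + 1) * η + (4 * m + 3) * η) * (X : ℝ) ^ m := by ring
      _ ≤ ε * (X : ℝ) ^ m := by gcongr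
  exact hcmp.trans ((add_le_add hfin hout).trans hlast)

/-- **the error** -/
theorem errV (hBIL : S_BIL) (hEQ : S_EQ) {m Mt : ℕ} (hm1 : 1 ≤ m)
    (s : Fin Mt → Fin m → ZMod 3) (ld : Fin Mt → Fin m) (hs : ∀ t, s t (ld t) ≠ 0)
    (hs0 : ∀ t k, k < ld t → s t k = 0)
    (hsep : ∀ t t', t ≠ t' → ld t = ld t' → ∃ k, s t k * s t (ld t) ≠ s t' k * s t' (ld t'))
    (y : Fin Mt → ZMod 3) (r : Fin Mt → ℕ)
    (P : (Fin m → Finset Ei) → (Fin m → Finset Ei) → Prop) (hP : ∀ M, KyP M (P M))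
    (δ : ℝ) (hδ : 0 < δ) :
    ∀ᶠ X : ℕ in atTop, |(CT (fun M S => P M S ∧ GT M s y r S) X : ℝ) -
      (∏ t, gi * cf (r t)) * (CT P X : ℝ)| ≤ δ * (X : ℝ) ^ m := by
  obtain ⟨g, hg⟩ : ∃ g : ℝ, g = ∏ t, gi * cf (r t) := ⟨_, rfl⟩
  have hgb := c_bounds r
  rw [← hg] at hgb ⊢
  obtain ⟨T₀, hT₀⟩ := (summable_iff_vanishing_norm.1 (ffT_summable m)) (δ / (2 * 16 ^ m))
    (by positivity)
  obtain ⟨ε', hε'⟩ : ∃ ε' : ℝ, ε' = δ / (2 * ((T₀.card : ℝ) + 1)) := ⟨_, rfl⟩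
  have hε'0 : 0 < ε' := by rw [hε']; positivity
  have hev : ∀ᶠ X : ℕ in atTop, ∀ M ∈ T₀.filter (fun M => ∀ k, ∀ q ∈ M k, Pq q),
      |(((TP M (YM X M)).filter fun S => P M S ∧ GT M s y r S).card : ℝ) -
        g * (((TP M (YM X M)).filter (P M)).card : ℝ)| ≤ ε' * (X : ℝ) ^ m := by
    rw [eventually_all_finset]
    intro M hM
    have h := asyV hBIL hEQ hm1 s ld hs hs0 hsep y r M (fun k => pN (M k))
      (fun k => pN_pos ((mem_filter.1 hM).2 k)) (P M) (hP M) ε' hε'0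
    rw [← hg] at h
    exact h
  filter_upwards [hev] with X hX
  have k1 : (CT (fun M S => P M S ∧ GT M s y r S) X : ℝ) - g * (CT P X : ℝ) =
      ∑ M ∈ Fintype.piFinset (fun _ : Fin m => SG X),
      ((((TP M (YM X M)).filter fun S => P M S ∧ GT M s y r S).card : ℝ) -
        g * (((TP M (YM X M)).filter (P M)).card : ℝ)) := by
    rw [sum_sub_distrib, ← mul_sum]
    unfold CT
    push_cast
    rfl
  have hX0 : (0 : ℝ) ≤ X := Nat.cast_nonneg _
  have hXm : (0 : ℝ) ≤ (X : ℝ) ^ m := by positivity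
  set PI := Fintype.piFinset (fun _ : Fin m => SG X) with hPI
  have hPIq : ∀ M ∈ PI, ∀ k, ∀ q ∈ M k, Pq q := by
    intro M hM k
    rw [hPI, Fintype.mem_piFinset] at hM
    exact (mem_SG.1 (hM k)).1
  rw [k1]
  refine (abs_sum_le_sum_abs _ _).trans ?_
  rw [← sum_filter_add_sum_filter_not PI (fun M => M ∈ T₀)]
  have k2 : ∑ M ∈ PI.filter (fun M => M ∈ T₀),
      |(((TP M (YM X M)).filter fun S => P M S ∧ GT M s y r S).card : ℝ) -
        g * (((TP M (YM X M)).filter (P M)).card : ℝ)| ≤ δ / 2 * (X : ℝ) ^ m := by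
    have k3 : ∑ M ∈ PI.filter (fun M => M ∈ T₀),
        |(((TP M (YM X M)).filter fun S => P M S ∧ GT M s y r S).card : ℝ) -
          g * (((TP M (YM X M)).filter (P M)).card : ℝ)| ≤
        ∑ _M ∈ PI.filter (fun M => M ∈ T₀), ε' * (X : ℝ) ^ m := by
      refine sum_le_sum fun M hM => hX M ?_
      rw [mem_filter] at hM ⊢
      exact ⟨hM.2, hPIq M hM.1⟩
    refine k3.trans ?_
    rw [sum_const, nsmul_eq_mul]
    have k4 : (((PI.filter fun M => M ∈ T₀).card : ℕ) : ℝ) ≤ (T₀.card : ℝ) + 1 := by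
      have : (PI.filter fun M => M ∈ T₀).card ≤ T₀.card :=
        card_le_card fun M hM => (mem_filter.1 hM).2
      have h6 : (((PI.filter fun M => M ∈ T₀).card : ℕ) : ℝ) ≤ (T₀.card : ℝ) := by
        exact_mod_cast this
      linarith
    have k5 : (0 : ℝ) < (T₀.card : ℝ) + 1 := by positivity
    calc (((PI.filter fun M => M ∈ T₀).card : ℕ) : ℝ) * (ε' * (X : ℝ) ^ m) ≤
        ((T₀.card : ℝ) + 1) * (ε' * (X : ℝ) ^ m) := by gcongr
      _ = δ / 2 * (X : ℝ) ^ m := by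
        rw [hε']
        field_simp
  have k3 : ∑ M ∈ PI.filter (fun M => ¬ M ∈ T₀),
      |(((TP M (YM X M)).filter fun S => P M S ∧ GT M s y r S).card : ℝ) -
        g * (((TP M (YM X M)).filter (P M)).card : ℝ)| ≤ δ / 2 * (X : ℝ) ^ m := by
    have k4 : ∑ M ∈ PI.filter (fun M => ¬ M ∈ T₀),
        |(((TP M (YM X M)).filter fun S => P M S ∧ GT M s y r S).card : ℝ) -
          g * (((TP M (YM X M)).filter (P M)).card : ℝ)| ≤
        ∑ M ∈ PI.filter (fun M => ¬ M ∈ T₀), (16 * X) ^ m * ∏ k, ff (M k) := by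
      refine sum_le_sum fun M hM => le_trans ?_ (tp_le (hPIq M (mem_filter.1 hM).1) X)
      have h2 : (((TP M (YM X M)).filter fun S => P M S ∧ GT M s y r S).card : ℝ) ≤
          ((TP M (YM X M)).card : ℝ) := by exact_mod_cast card_filter_le _ _
      have h3 : (((TP M (YM X M)).filter (P M)).card : ℝ) ≤ ((TP M (YM X M)).card : ℝ) := by
        exact_mod_cast card_filter_le _ _
      have h4 : (0 : ℝ) ≤ (((TP M (YM X M)).filter (P M)).card : ℝ) := Nat.cast_nonneg _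
      have h5 : (0 : ℝ) ≤ (((TP M (YM X M)).filter fun S => P M S ∧ GT M s y r S).card : ℝ) :=
        Nat.cast_nonneg _
      rw [abs_le]
      constructor <;> nlinarith
    refine k4.trans ?_
    rw [← mul_sum]
    have k5 := hT₀ (PI.filter fun M => ¬ M ∈ T₀) (by
      rw [disjoint_left]
      intro M hM hM'
      exact (mem_filter.1 hM).2 hM')
    have k6 := (le_abs_self _).trans ((Real.norm_eq_abs _).symm.le.trans k5.le)
    calc (16 * X : ℝ) ^ m * ∑ M ∈ PI.filter (fun M => ¬ M ∈ T₀), ∏ k, ff (M k) ≤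
        (16 * X : ℝ) ^ m * (δ / (2 * 16 ^ m)) := by gcongr
      _ = δ / 2 * (X : ℝ) ^ m := by
        rw [mul_pow]
        field_simp
  calc _ ≤ δ / 2 * (X : ℝ) ^ m + δ / 2 * (X : ℝ) ^ m := add_le_add k2 k3
    _ = δ * (X : ℝ) ^ m := by ring

end Run7.h707.TD
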