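import Pool.Agent.Run7.h707.TD.Rel

/-! The outer part of the random matrix, with weights that may vanish: the exceptional matrices of the
first and of the second kind -/

set_option autoImplicit false
set_option linter.unusedSectionVars false

open scoped Classical

namespace Run7.h707.TD

open Finset Module
open Q283.T3 hiding est thmR
open Pool.Agent.Y703.XK (prs)
open Run7.h707.TC

section fr
variable {U ι : Type} [Fintype U] [Fintype ι] [LinearOrder ι] {κ : ι → Prop}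
variable (e : U → ZMod 3) {s : ι → ZMod 3} (A : U → U → ZMod 3) (B : U → ι → ZMod 3)
  (α : prs ι → ZMod 3) (j₀ : {i // κ i})

theorem BO_q' (hs1 : ∀ j, κ j → s j = 1)
    (x : (U ⊕ {i // ¬ κ i}) ⊕ {i // κ i} → ZMod 3) (q : {i // ¬ κ i}) :
    BO κ e s A B j₀ α x (Pi.single (Sum.inl (Sum.inr q)) 1) =
      ∑ u, s q * e u * B u q * (x (Sum.inl (Sum.inl u)) - x (Sum.inl (Sum.inr q))) +
      rl κ s (rs x) q α + (if s q = 0 then (1 : ZMod 3) else 0) * x (Sum.inl (Sum.inr q)) := by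
  unfold BO B0
  rw [Lp_single, rl_q s hs1]
  have h1 : dg (Sk {i // κ i} (es κ e s)) (Sum.inr j₀)
      (Sum.inl (Sum.inr q) : (U ⊕ {i // ¬ κ i}) ⊕ {i // κ i}) = if s q = 0 then 1 else 0 := by
    unfold dg
    by_cases hq : s q = 0
    · rw [if_pos hq, if_pos]
      left
      rw [mem_Sk_inl, not_not]
      exact hq
    · rw [if_neg hq, if_neg]
      rintro (h | h)
      · exact h (mem_Sk_inl.2 hq)
      · exact absurd h (by simp)
  rw [h1]
  congr 1
  rw [Fintype.sum_sum_type, Fintype.sum_sum_type, add_assoc]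
  rfl

/-- the value at a vertex without weight -/
theorem BO_z (hs1 : ∀ j, κ j → s j = 1)
    (x : (U ⊕ {i // ¬ κ i}) ⊕ {i // κ i} → ZMod 3) (q : {i // ¬ κ i}) (hq : s q = 0) :
    BO κ e s A B j₀ α x (Pi.single (Sum.inl (Sum.inr q)) 1) = x (Sum.inl (Sum.inr q)) := by
  rw [BO_q' e A B α j₀ hs1, rl_zero hq, if_pos hq, hq, sum_eq_zero, zero_add, zero_add, one_mul]
  intro u _
  rw [zero_mul, zero_mul, zero_mul]

/-- the row at an outer vertex -/
theorem row_q (hs1 : ∀ j, κ j → s j = 1)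
    (x : (U ⊕ {i // ¬ κ i}) ⊕ {i // κ i} → ZMod 3) (q : {i // ¬ κ i})
    (h : BO κ e s A B j₀ α x (Pi.single (Sum.inl (Sum.inr q)) 1) = 0) :
    rl κ s (rs x) q α = -∑ u, s q * e u * B u q *
      (x (Sum.inl (Sum.inl u)) - x (Sum.inl (Sum.inr q))) := by
  by_cases hq : s q = 0
  · rw [rl_zero hq, hq, sum_eq_zero, neg_zero]
    intro u _
    rw [zero_mul, zero_mul, zero_mul]
  · rw [BO_q' e A B α j₀ hs1, if_neg hq, zero_mul, add_zero] at h
    exact (neg_eq_of_add_eq_zero_right h).symm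

end fr

section c1
variable {U ι : Type} [Fintype U] [Fintype ι] [LinearOrder ι] {κ : ι → Prop}
  {e : U → ZMod 3} {s : ι → ZMod 3} {A : U → U → ZMod 3} {B : U → ι → ZMod 3}
  {j₀ : {i // κ i}}

/-- the functions vanishing at the vertices without weight -/
def Zf (U : Type) (κ : ι → Prop) (s : ι → ZMod 3) (w : (U ⊕ {i // ¬ κ i}) ⊕ {i // κ i} → ZMod 3) :
    Prop := ∀ q : {i // ¬ κ i}, s q = 0 → w (Sum.inl (Sum.inr q)) = 0

/-- the form is not degenerate on the functions constant on the large vertices -/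
theorem nd_const' (hA : ∀ u v, A u v = A v u) (hs1 : ∀ j, κ j → s j = 1)
    (hB : ∀ w : U → ZMod 3, w ≠ 0 → ∃ j, κ j ∧ ∑ u, w u * B u j ≠ 0)
    {α : prs ι → ZMod 3} {w : (U ⊕ {i // ¬ κ i}) ⊕ {i // κ i} → ZMod 3}
    (hw : w ∈ W0 (U ⊕ {i // ¬ κ i}) {i // κ i}) (hz : Zf U κ s w)
    (hq : ∀ q : {i // ¬ κ i}, s q ≠ 0 → w (Sum.inl (Sum.inr q)) = w (Sum.inr j₀))
    (h0 : BO κ e s A B j₀ α w = 0) : w = 0 := by
  have h4 : w (Sum.inr j₀) = 0 := by
    have h5 := h0
    unfold BO B0 at h5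
    exact ker_base (cc_symm (AA_symm hA B α) fun _ _ => rfl) (fun i j h => cc_zero i j h)
      mem_Sk_inr h5
  have h2 : ∀ j : {i // κ i},
      ∑ u, e u * (w (Sum.inl (Sum.inl u)) - w (Sum.inr j₀)) * B u j = 0 := by
    intro j
    have h3 : BO κ e s A B j₀ α w (Pi.single (Sum.inr j) 1) = 0 := by
      rw [h0, LinearMap.zero_apply]
    rw [BO_j e A B α j₀ hs1, rl_j s hs1, sum_eq_zero (s := univ (α := {i // ¬ κ i})), add_zero,
      hw j j₀] at h3
    · rw [h4, mul_zero, add_zero] at h3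
      rw [h4]
      refine Eq.trans ?_ h3
      exact sum_congr rfl fun u _ => by ring
    · intro q _
      by_cases hsq : s q = 0
      · rw [hsq, zero_mul, zero_mul]
      · rw [hq q hsq, hw j j₀, sub_self, mul_zero]
  have h3 : (fun u => e u * (w (Sum.inl (Sum.inl u)) - w (Sum.inr j₀))) = 0 := by
    by_contra hne
    obtain ⟨j, hj, hj0⟩ := hB _ hne
    exact hj0 (h2 ⟨j, hj⟩)
  funext i
  rw [Pi.zero_apply]
  rcases i with (u | q) | j
  · by_cases he : e u = 0
    · have h5 : BO κ e s A B j₀ α w (Pi.single (Sum.inl (Sum.inl u)) 1) = 0 := by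
        rw [h0, LinearMap.zero_apply]
      unfold BO B0 at h5
      have h6 : (Sum.inl (Sum.inl u) : (U ⊕ {i // ¬ κ i}) ⊕ {i // κ i}) ∉
          Sk {i // κ i} (es κ e s) := by
        rw [mem_Sk_inl, not_not]
        exact he
      rw [Lp_single, sum_eq_zero fun i _ => by rw [cc_zero _ _ h6, zero_mul], zero_add] at h5
      unfold dg at h5
      rw [if_pos (Or.inl h6), one_mul] at h5
      exact h5
    · have h6 : e u * (w (Sum.inl (Sum.inl u)) - w (Sum.inr j₀)) = 0 := congrFun h3 u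
      rw [h4, sub_zero] at h6
      exact (mul_eq_zero.1 h6).resolve_left he
  · by_cases hsq : s q = 0
    · exact hz q hsq
    · rw [hq q hsq, h4]
  · rw [hw j j₀, h4]

theorem card_Wz : (univ.filter fun w : (U ⊕ {i // ¬ κ i}) ⊕ {i // κ i} → ZMod 3 =>
    w ∈ W0 (U ⊕ {i // ¬ κ i}) {i // κ i} ∧ Zf U κ s w).card ≤
    3 ^ (Fintype.card U + Fintype.card {q : {i // ¬ κ i} // s q ≠ 0} + 1) := by
  by_cases hne : Nonempty {i // κ i}
  · obtain ⟨j₁⟩ := hne
    have h1 : (univ.filter fun w : (U ⊕ {i // ¬ κ i}) ⊕ {i // κ i} → ZMod 3 =>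
        w ∈ W0 (U ⊕ {i // ¬ κ i}) {i // κ i} ∧ Zf U κ s w).card ≤
        (univ : Finset ((U → ZMod 3) × ({q : {i // ¬ κ i} // s q ≠ 0} → ZMod 3) × ZMod 3)).card := by
      refine card_le_card_of_injOn (fun w => (fun u => w (Sum.inl (Sum.inl u)),
        fun q => w (Sum.inl (Sum.inr q.1)), w (Sum.inr j₁))) (fun _ _ => mem_coe.2 (mem_univ _)) ?_
      intro w hw w' hw' h
      rw [mem_coe, mem_filter] at hw hw'
      obtain ⟨-, hw1, hw2⟩ := hw
      obtain ⟨-, hw1', hw2'⟩ := hw'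
      have a1 : ∀ u, w (Sum.inl (Sum.inl u)) = w' (Sum.inl (Sum.inl u)) := fun u =>
        congrFun (congrArg Prod.fst h) u
      have a2 : ∀ q : {q : {i // ¬ κ i} // s q ≠ 0}, w (Sum.inl (Sum.inr q.1)) =
          w' (Sum.inl (Sum.inr q.1)) := fun q => congrFun (congrArg (fun z => z.2.1) h) q
      have a3 : w (Sum.inr j₁) = w' (Sum.inr j₁) := congrArg (fun z => z.2.2) h
      funext i
      rcases i with (u | q) | j
      · exact a1 u
      · by_cases hq : s q = 0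
        · rw [hw2 q hq, hw2' q hq]
        · exact a2 ⟨q, hq⟩
      · rw [hw1 j j₁, hw1' j j₁, a3]
    refine h1.trans (le_of_eq ?_)
    rw [card_univ, Fintype.card_prod, Fintype.card_prod, Fintype.card_fun, Fintype.card_fun,
      ZMod.card, pow_add, pow_add, pow_one]
    ring
  · have he : IsEmpty {i // κ i} := not_nonempty_iff.1 hne
    have h1 : (univ.filter fun w : (U ⊕ {i // ¬ κ i}) ⊕ {i // κ i} → ZMod 3 =>
        w ∈ W0 (U ⊕ {i // ¬ κ i}) {i // κ i} ∧ Zf U κ s w).card ≤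
        (univ : Finset ((U → ZMod 3) × ({q : {i // ¬ κ i} // s q ≠ 0} → ZMod 3))).card := by
      refine card_le_card_of_injOn (fun w => (fun u => w (Sum.inl (Sum.inl u)),
        fun q => w (Sum.inl (Sum.inr q.1)))) (fun _ _ => mem_coe.2 (mem_univ _)) ?_
      intro w hw w' hw' h
      rw [mem_coe, mem_filter] at hw hw'
      obtain ⟨-, hw1, hw2⟩ := hw
      obtain ⟨-, hw1', hw2'⟩ := hw'
      funext i
      rcases i with (u | q) | j
      · exact congrFun (congrArg Prod.fst h) u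
      · by_cases hq : s q = 0
        · rw [hw2 q hq, hw2' q hq]
        · exact congrFun (congrArg Prod.snd h) ⟨q, hq⟩
      · exact he.elim j
    refine h1.trans ?_
    rw [card_univ, Fintype.card_prod, Fintype.card_fun, Fintype.card_fun, ZMod.card, ← pow_add]
    exact Nat.pow_le_pow_right (by norm_num) (Nat.le_succ _)

/-- the exceptional matrices of the first kind -/
theorem c1' (hA : ∀ u v, A u v = A v u) (hs1 : ∀ j, κ j → s j = 1)
    (hB : ∀ w : U → ZMod 3, w ≠ 0 → ∃ j, κ j ∧ ∑ u, w u * B u j ≠ 0) :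
    (univ.filter fun α : prs ι → ZMod 3 =>
      ¬ Nd (BO κ e s A B j₀ α) (W0 (U ⊕ {i // ¬ κ i}) {i // κ i})).card *
      3 ^ Fintype.card {i // κ i} ≤
      Fintype.card (prs ι → ZMod 3) * 3 ^ (Fintype.card U + 2) := by
  have hsj : s j₀ ≠ 0 := by rw [hs1 j₀ j₀.2]; decide
  set 𝒲 := (univ.filter fun w : (U ⊕ {i // ¬ κ i}) ⊕ {i // κ i} → ZMod 3 =>
    w ∈ W0 (U ⊕ {i // ¬ κ i}) {i // κ i} ∧ Zf U κ s w) with h𝒲
  set 𝒲' := 𝒲.filter fun w => ∃ q : {i // ¬ κ i}, s q ≠ 0 ∧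
    w (Sum.inl (Sum.inr q)) ≠ w (Sum.inr j₀) with h𝒲'
  set c : ((U ⊕ {i // ¬ κ i}) ⊕ {i // κ i} → ZMod 3) → ι → ZMod 3 := fun w i =>
    if h : κ i then -(∑ u, e u * B u i * (w (Sum.inl (Sum.inl u)) - w (Sum.inr ⟨i, h⟩)) +
      (if (⟨i, h⟩ : {i // κ i}) = j₀ then 1 else 0) * w (Sum.inr ⟨i, h⟩))
    else -∑ u, s i * e u * B u i * (w (Sum.inl (Sum.inl u)) - w (Sum.inl (Sum.inr ⟨i, h⟩)))
    with hc
  set L : ((U ⊕ {i // ¬ κ i}) ⊕ {i // κ i} → ZMod 3) → (prs ι → ZMod 3) →ₗ[ZMod 3] (ι → ZMod 3) :=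
    fun w => LinearMap.pi fun i => rl κ s (rs w) i with hL
  have h1 : (univ.filter fun α : prs ι → ZMod 3 =>
      ¬ Nd (BO κ e s A B j₀ α) (W0 (U ⊕ {i // ¬ κ i}) {i // κ i})) ⊆
      𝒲'.biUnion fun w => univ.filter fun α => L w α = c w := by
    intro α hα
    rw [mem_filter] at hα
    have h2 := hα.2
    unfold Nd at h2
    push Not at h2
    obtain ⟨w, hw, hw0, hne⟩ := h2
    have hz : Zf U κ s w := by
      intro q hq
      rw [← BO_z e A B α j₀ hs1 w q hq, hw0, LinearMap.zero_apply]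
    rw [mem_biUnion]
    refine ⟨w, ?_, ?_⟩
    · rw [h𝒲', mem_filter, h𝒲, mem_filter]
      refine ⟨⟨mem_univ _, hw, hz⟩, ?_⟩
      by_contra hno
      push Not at hno
      exact hne (nd_const' hA hs1 hB hw hz hno hw0)
    · rw [mem_filter]
      refine ⟨mem_univ _, funext fun i => ?_⟩
      rw [hL, hc]
      show rl κ s (rs w) i α = _
      by_cases hi : κ i
      · have h3 := BO_j e A B α j₀ hs1 w ⟨i, hi⟩
        rw [hw0, LinearMap.zero_apply] at h3
        simp only [dif_pos hi]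
        exact (neg_eq_of_add_eq_zero_right h3.symm).symm
      · simp only [dif_neg hi]
        exact row_q e A B α j₀ hs1 w ⟨i, hi⟩ (by rw [hw0, LinearMap.zero_apply])
  have h2 : ∀ w ∈ 𝒲', (univ.filter fun α => L w α = c w).card * 3 ^ Fintype.card ι ≤
      Fintype.card (prs ι → ZMod 3) * (3 * 3 ^ Fintype.card {q : {i // ¬ κ i} // ¬ s q ≠ 0}) := by
    intro w hw
    rw [h𝒲', mem_filter, h𝒲, mem_filter] at hw
    obtain ⟨⟨-, hw1, -⟩, q, hsq, hq⟩ := hw
    refine (fm (L w) (c w)).trans (Nat.mul_le_mul_left _ ?_)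
    have h3 : (univ.filter fun ζ : ι → ZMod 3 => ∀ ω, ∑ i, ζ i * L w ω i = 0).card ≤
        (univ : Finset (ZMod 3 × ({q : {i // ¬ κ i} // ¬ s q ≠ 0} → ZMod 3))).card := by
      refine card_le_card_of_injOn (fun ζ => (ζ j₀, fun q => ζ q.1))
        (fun _ _ => mem_coe.2 (mem_univ _)) ?_
      have key : ∀ ζ ∈ (univ.filter fun ζ : ι → ZMod 3 => ∀ ω, ∑ i, ζ i * L w ω i = 0),
          ∀ i, s i ≠ 0 → ζ i = ζ j₀ := by
        intro ζ hζ i hi
        rw [mem_filter] at hζ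
        refine rel_const' (κ := κ) (s := s) (x := rs w) (ζ := ζ) hsj ?_ (q := q) hsq ?_
          (fun α => hζ.2 α) i hi
        · intro j hj
          have e1 := rs_j w ⟨j, hj⟩
          have e2 := rs_j w j₀
          rw [e2, ← hw1 ⟨j, hj⟩ j₀, ← e1]
        · rw [rs_q, rs_j]
          exact hq
      intro ζ hζ ζ' hζ' h
      funext i
      by_cases hi : s i = 0
      · have hκ : ¬ κ i := fun h => by
          rw [hs1 i h] at hi
          exact absurd hi (by decide)
        exact congrFun (congrArg Prod.snd h) ⟨⟨i, hκ⟩, not_not.2 hi⟩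
      · rw [key ζ (mem_coe.1 hζ) i hi, key ζ' (mem_coe.1 hζ') i hi]
        exact congrArg Prod.fst h
    refine h3.trans (le_of_eq ?_)
    rw [card_univ, Fintype.card_prod, Fintype.card_fun, ZMod.card]
  have h3 : (univ.filter fun α : prs ι → ZMod 3 =>
      ¬ Nd (BO κ e s A B j₀ α) (W0 (U ⊕ {i // ¬ κ i}) {i // κ i})).card * 3 ^ Fintype.card ι ≤
      3 ^ (Fintype.card U + Fintype.card {q : {i // ¬ κ i} // s q ≠ 0} + 1) *
        (Fintype.card (prs ι → ZMod 3) *
          (3 * 3 ^ Fintype.card {q : {i // ¬ κ i} // ¬ s q ≠ 0})) := by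
    calc _ ≤ (∑ w ∈ 𝒲', (univ.filter fun α => L w α = c w).card) * 3 ^ Fintype.card ι :=
          Nat.mul_le_mul_right _ ((card_le_card h1).trans card_biUnion_le)
      _ = ∑ w ∈ 𝒲', (univ.filter fun α => L w α = c w).card * 3 ^ Fintype.card ι := sum_mul _ _ _
      _ ≤ ∑ w ∈ 𝒲', Fintype.card (prs ι → ZMod 3) *
          (3 * 3 ^ Fintype.card {q : {i // ¬ κ i} // ¬ s q ≠ 0}) := sum_le_sum h2
      _ = 𝒲'.card * (Fintype.card (prs ι → ZMod 3) *
          (3 * 3 ^ Fintype.card {q : {i // ¬ κ i} // ¬ s q ≠ 0})) := by rw [sum_const, smul_eq_mul]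
      _ ≤ _ := Nat.mul_le_mul_right _ ((card_filter_le _ _).trans card_Wz)
  rw [← card_QJ (κ := κ)] at h3
  have h5 := card_nz κ s
  rw [← h5] at h3
  have h4 : (0 : ℕ) < 3 ^ (Fintype.card {q : {i // ¬ κ i} // s q ≠ 0} +
    Fintype.card {q : {i // ¬ κ i} // ¬ s q ≠ 0}) := by positivity
  refine Nat.le_of_mul_le_mul_left ?_ h4
  calc _ = _ := by rw [mul_comm, mul_assoc, ← pow_add, add_comm (Fintype.card {i // κ i})]
    _ ≤ _ := h3
    _ = _ := by
      rw [pow_add, pow_add, pow_add, pow_add]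
      ring

/-- the exceptional matrices of the second kind -/
theorem c2' (hs1 : ∀ j, κ j → s j = 1) (d : ℕ) :
    (univ.filter fun α : prs ι → ZMod 3 =>
      ¬ finrank (ZMod 3) ↥(W0 (U ⊕ {i // ¬ κ i}) {i // κ i} ⊓
        Nn (BO κ e s A B j₀ α) (W0 (U ⊕ {i // ¬ κ i}) {i // κ i})) ≤ d).card * 3 ^ (d + 1) ≤
      Fintype.card (prs ι → ZMod 3) * (2 * 3 ^ (Fintype.card U + 1)) := by
  have hsj : s j₀ ≠ 0 := by rw [hs1 j₀ j₀.2]; decide
  set V := (U ⊕ {i // ¬ κ i}) ⊕ {i // κ i} → ZMod 3 with hV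
  set 𝒲 := (univ.filter fun w : V => w ∈ W0 (U ⊕ {i // ¬ κ i}) {i // κ i} ∧ Zf U κ s w) with h𝒲
  set P : (prs ι → ZMod 3) → V → Prop := fun α w =>
    w ∈ Nn (BO κ e s A B j₀ α) (W0 (U ⊕ {i // ¬ κ i}) {i // κ i}) with hP
  have hsq1 : ∀ q : {i // ¬ κ i}, (Pi.single (Sum.inl (Sum.inr q)) 1 : V) ∈
      W0 (U ⊕ {i // ¬ κ i}) {i // κ i} := by
    intro q i l
    rw [Pi.single_eq_of_ne (by simp), Pi.single_eq_of_ne (by simp)]
  -- the mean
  have h1 : (univ.filter fun α : prs ι → ZMod 3 =>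
      ¬ finrank (ZMod 3) ↥(W0 (U ⊕ {i // ¬ κ i}) {i // κ i} ⊓
        Nn (BO κ e s A B j₀ α) (W0 (U ⊕ {i // ¬ κ i}) {i // κ i})) ≤ d).card * 3 ^ (d + 1) ≤
      ∑ α : prs ι → ZMod 3, (𝒲.filter fun w => P α w).card := by
    have h2 : ∀ α ∈ (univ.filter fun α : prs ι → ZMod 3 =>
      ¬ finrank (ZMod 3) ↥(W0 (U ⊕ {i // ¬ κ i}) {i // κ i} ⊓
        Nn (BO κ e s A B j₀ α) (W0 (U ⊕ {i // ¬ κ i}) {i // κ i})) ≤ d),
        3 ^ (d + 1) ≤ (𝒲.filter fun w => P α w).card := by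
      intro α hα
      rw [mem_filter, not_le] at hα
      have h3 : (𝒲.filter fun w => P α w) = (univ.filter fun w : V =>
          w ∈ W0 (U ⊕ {i // ¬ κ i}) {i // κ i} ⊓
            Nn (BO κ e s A B j₀ α) (W0 (U ⊕ {i // ¬ κ i}) {i // κ i})) := by
        ext w
        rw [h𝒲, mem_filter, mem_filter, mem_filter, Submodule.mem_inf]
        refine ⟨fun h => ⟨h.1.1, h.1.2.1, h.2⟩, fun h => ⟨⟨h.1, h.2.1, ?_⟩, h.2.2⟩⟩
        intro q hq
        rw [← BO_z e A B α j₀ hs1 w q hq]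
        exact (mem_Nn.1 h.2.2) _ (hsq1 q)
      rw [h3, card_sub]
      exact Nat.pow_le_pow_right (by norm_num) hα.2
    refine (le_of_eq ?_).trans ((sum_le_sum h2).trans
      (sum_le_sum_of_subset (filter_subset _ _)))
    rw [sum_const, smul_eq_mul]
  refine h1.trans ?_
  have h2 : ∑ α : prs ι → ZMod 3, (𝒲.filter fun w => P α w).card =
      ∑ w ∈ 𝒲, (univ.filter fun α : prs ι → ZMod 3 => P α w).card :=
    sum_card_bipartiteAbove_eq_sum_card_bipartiteBelow (s := univ) (t := 𝒲) P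
  rw [h2]
  set 𝒲₁ := 𝒲.filter fun w => ∃ q : {i // ¬ κ i}, s q ≠ 0 ∧
    w (Sum.inl (Sum.inr q)) ≠ w (Sum.inr j₀) with h𝒲₁
  set 𝒲₂ := 𝒲.filter fun w => ¬ ∃ q : {i // ¬ κ i}, s q ≠ 0 ∧
    w (Sum.inl (Sum.inr q)) ≠ w (Sum.inr j₀) with h𝒲₂
  have h3 : ∑ w ∈ 𝒲, (univ.filter fun α : prs ι → ZMod 3 => P α w).card =
      ∑ w ∈ 𝒲₁, (univ.filter fun α : prs ι → ZMod 3 => P α w).card +
      ∑ w ∈ 𝒲₂, (univ.filter fun α : prs ι → ZMod 3 => P α w).card :=
    (sum_filter_add_sum_filter_not _ _ _).symm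
  -- the second part
  have h4 : ∑ w ∈ 𝒲₂, (univ.filter fun α : prs ι → ZMod 3 => P α w).card ≤
      3 ^ (Fintype.card U + 1) * Fintype.card (prs ι → ZMod 3) := by
    have h5 : 𝒲₂.card ≤ 3 ^ (Fintype.card U + 1) := by
      have h6 : 𝒲₂.card ≤ (univ : Finset ((U → ZMod 3) × ZMod 3)).card := by
        refine card_le_card_of_injOn (fun w => (fun u => w (Sum.inl (Sum.inl u)), w (Sum.inr j₀)))
          (fun _ _ => mem_coe.2 (mem_univ _)) ?_
        intro w hw w' hw' h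
        rw [mem_coe, h𝒲₂, mem_filter, h𝒲, mem_filter] at hw hw'
        obtain ⟨⟨-, hw1, hz⟩, hw2⟩ := hw
        obtain ⟨⟨-, hw1', hz'⟩, hw2'⟩ := hw'
        push Not at hw2 hw2'
        have h7 : w (Sum.inr j₀) = w' (Sum.inr j₀) := congrArg Prod.snd h
        funext i
        rcases i with (u | q) | j
        · exact congrFun (congrArg Prod.fst h) u
        · by_cases hq : s q = 0
          · rw [hz q hq, hz' q hq]
          · rw [hw2 q hq, hw2' q hq, h7]
        · rw [hw1 j j₀, hw1' j j₀, h7]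
      rw [card_univ, Fintype.card_prod, Fintype.card_fun, ZMod.card] at h6
      rw [pow_succ]
      exact h6
    calc _ ≤ ∑ w ∈ 𝒲₂, Fintype.card (prs ι → ZMod 3) := sum_le_sum fun w _ => card_le_univ _
      _ = 𝒲₂.card * Fintype.card (prs ι → ZMod 3) := by rw [sum_const, smul_eq_mul]
      _ ≤ _ := Nat.mul_le_mul_right _ h5
  -- the first part
  have h5 : ∑ w ∈ 𝒲₁, (univ.filter fun α : prs ι → ZMod 3 => P α w).card ≤
      3 ^ (Fintype.card U + 1) * Fintype.card (prs ι → ZMod 3) := by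
    set c : V → {i // ¬ κ i} → ZMod 3 := fun w q =>
      -∑ u, s q * e u * B u q * (w (Sum.inl (Sum.inl u)) - w (Sum.inl (Sum.inr q))) with hc
    set L : V → (prs ι → ZMod 3) →ₗ[ZMod 3] ({i // ¬ κ i} → ZMod 3) :=
      fun w => LinearMap.pi fun q => rl κ s (rs w) q with hL
    have h6 : ∀ w ∈ 𝒲₁, (univ.filter fun α : prs ι → ZMod 3 => P α w).card *
        3 ^ Fintype.card {i // ¬ κ i} ≤ Fintype.card (prs ι → ZMod 3) *
          3 ^ Fintype.card {q : {i // ¬ κ i} // ¬ s q ≠ 0} := by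
      intro w hw
      rw [h𝒲₁, mem_filter, h𝒲, mem_filter] at hw
      obtain ⟨⟨-, hw1, -⟩, q, hsq, hq⟩ := hw
      have h7 : (univ.filter fun α : prs ι → ZMod 3 => P α w) ⊆
          univ.filter fun α => L w α = c w := by
        intro α hα
        rw [mem_filter] at hα ⊢
        refine ⟨mem_univ _, funext fun q => ?_⟩
        exact row_q e A B α j₀ hs1 w q ((mem_Nn.1 hα.2) _ (hsq1 q))
      refine (Nat.mul_le_mul_right _ (card_le_card h7)).trans ((fm (L w) (c w)).trans ?_)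
      apply Nat.mul_le_mul_left
      have h8 : (univ.filter fun ζ : {i // ¬ κ i} → ZMod 3 =>
          ∀ ω, ∑ i, ζ i * L w ω i = 0).card ≤
          (univ : Finset ({q : {i // ¬ κ i} // ¬ s q ≠ 0} → ZMod 3)).card := by
        refine card_le_card_of_injOn (fun ζ q => ζ q.1) (fun _ _ => mem_coe.2 (mem_univ _)) ?_
        have key : ∀ ζ ∈ (univ.filter fun ζ : {i // ¬ κ i} → ZMod 3 =>
            ∀ ω, ∑ i, ζ i * L w ω i = 0), ∀ q' : {i // ¬ κ i}, s q' ≠ 0 → ζ q' = 0 := by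
          intro ζ hζ q' hq'
          rw [mem_filter] at hζ
          set ζ' : ι → ZMod 3 := fun i => if h : κ i then 0 else ζ ⟨i, h⟩ with hζ'
          have h9 : ∀ α, ∑ i, ζ' i * rl κ s (rs w) i α = 0 := by
            intro α
            rw [← hζ.2 α, ← Fintype.sum_subtype_add_sum_subtype κ,
              sum_eq_zero (s := univ (α := {i // κ i})), zero_add]
            · refine sum_congr rfl fun q _ => ?_
              rw [hζ', hL]
              simp only [dif_neg q.2]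
              rfl
            · intro j _
              rw [hζ']
              simp only [dif_pos j.2, zero_mul]
          have h10 : ζ' q' = ζ' j₀ := by
            refine rel_const' (κ := κ) (s := s) (x := rs w) (ζ := ζ') hsj ?_ (q := q) hsq ?_ h9
              q' hq'
            · intro j hj
              have e1 := rs_j w ⟨j, hj⟩
              have e2 := rs_j w j₀
              rw [e2, ← hw1 ⟨j, hj⟩ j₀, ← e1]
            · rw [rs_q, rs_j]
              exact hq
          rw [hζ'] at h10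
          simp only [dif_neg q'.2, dif_pos j₀.2] at h10
          exact h10
        intro ζ hζ ζ' hζ' h
        funext q'
        by_cases hq' : s q' = 0
        · exact congrFun h ⟨q', not_not.2 hq'⟩
        · rw [key ζ (mem_coe.1 hζ) q' hq', key ζ' (mem_coe.1 hζ') q' hq']
      refine h8.trans (le_of_eq ?_)
      rw [card_univ, Fintype.card_fun, ZMod.card]
    have h7 : (∑ w ∈ 𝒲₁, (univ.filter fun α : prs ι → ZMod 3 => P α w).card) *
        3 ^ Fintype.card {i // ¬ κ i} ≤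
        3 ^ (Fintype.card U + Fintype.card {q : {i // ¬ κ i} // s q ≠ 0} + 1) *
          (Fintype.card (prs ι → ZMod 3) *
            3 ^ Fintype.card {q : {i // ¬ κ i} // ¬ s q ≠ 0}) := by
      rw [sum_mul]
      refine (sum_le_sum h6).trans ?_
      rw [sum_const, smul_eq_mul]
      exact Nat.mul_le_mul_right _ ((card_filter_le _ _).trans card_Wz)
    have h9 := card_nz κ s
    have h8 : (0 : ℕ) < 3 ^ Fintype.card {i // ¬ κ i} := by positivity
    refine Nat.le_of_mul_le_mul_right ?_ h8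
    calc _ ≤ _ := h7
      _ = _ := by
        rw [← h9, pow_add, pow_add, pow_add, pow_add]
        ring
  rw [h3]
  calc _ ≤ _ := add_le_add h5 h4
    _ = _ := by ring

end c1

end Run7.h707.TD
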