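import Pool.Agent.Run7.h707.TD.LAC
import Pool.Agent.Run7.h707.TC.Box2

/-! The count in a box for tuples of sets of primes; the exponents may vanish -/

set_option autoImplicit false
set_option linter.unusedSectionVars false

open scoped Classical

namespace Run7.h707.TD

open Finset Module
open Pool.Agent.Y692.QS (Ei)
open Pool.Agent.Y715.T.Rec (cs)
open Pool.Agent.Y715.T.RecG (Pq)
open Pool.Agent.Y699.E (ez)
open Pool.Agent.Y703.XK (prs HB S_EQ)
open Pool.Agent.Y688.XK (lb cs_symm HB_sub ez0 ez0_coe)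
open Pool.Agent.R419.KF (wt wt_one wt_ne)
open Pool.Agent.N883.FF (nq NdB)
open Q283.T3 (KS Sk mem_Sk_inl mem_Sk_inr mem_prs ext_symm fcc2 gi cf)
open Run7.h707.TC

section one
variable {m : ℕ} {ι : Type} [Fintype ι] {col : ι → Fin m} {M S₀ : Fin m → Finset Ei} {p : ι → Ei}
variable [LinearOrder ι]

theorem finrank_co' (hp : Function.Injective p) (hd : ∀ i k, p i ∉ S₀ k) (hpr : ∀ i, Pq (p i))
    (hU : ∀ k, ∀ u ∈ S₀ k, Pq u) (hM : ∀ k, M k ⊆ S₀ k) {σ : Fin m → ZMod 3}
    (k₀ : Fin m) (hσ : σ k₀ ≠ 0) (y : ZMod 3) :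
    finrank (ZMod 3) (KS (co (Tt (fill col S₀ p)) (ee M σ (fill col S₀ p)) y)
      (So (Tt (fill col S₀ p)) (ee M σ (fill col S₀ p)) y)) =
      finrank (ZMod 3) (KS (cw (fun a => wO (Tt S₀) (ee M σ S₀) y a * σ k₀)
        (fun i => σ (col i) * σ k₀) (AO (Tt S₀))
        (BO' (Tt S₀) (fun i => lb (Tt S₀) (p i)) (fun i => nq (p i)))
        (Pool.Agent.Y703.XK.ext fun e : prs ι => cs (p e.1.1) (p e.1.2)))
        (Sw (fun a => wO (Tt S₀) (ee M σ S₀) y a * σ k₀) (fun i => σ (col i) * σ k₀))) := by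
  obtain ⟨E, hE⟩ : ∃ E : Option ↥(Tt S₀) ⊕ ι ≃ Option ↥(Tt (fill col S₀ p)),
      ∀ i, E i = phT col S₀ p i := ⟨Equiv.ofBijective _ (phT_bij hp hd), fun _ => rfl⟩
  have hU' : ∀ u ∈ Tt S₀, Pq u := fun u hu => by
    obtain ⟨k, hk⟩ := mem_Tt.1 hu
    exact hU k u hk
  have hsq : σ k₀ * σ k₀ = 1 := eq_one_of_ne hσ
  -- the weights
  have w1 : ∀ a, wO (Tt (fill col S₀ p)) (ee M σ (fill col S₀ p)) y (E (Sum.inl a)) =
      wO (Tt S₀) (ee M σ S₀) y a := by
    intro a
    rw [hE]
    cases a with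
    | none => rfl
    | some u => exact ee_fill_u hd u.2 σ
  have w2 : ∀ i, wO (Tt (fill col S₀ p)) (ee M σ (fill col S₀ p)) y (E (Sum.inr i)) =
      σ (col i) := by
    intro i
    rw [hE]
    exact ee_fill_p hp hd hM σ i
  rw [← finrank_KS_equiv E (co (Tt (fill col S₀ p)) (ee M σ (fill col S₀ p)) y)
    (Sw (fun a => wO (Tt S₀) (ee M σ S₀) y a * σ k₀) (fun i => σ (col i) * σ k₀))
    (So (Tt (fill col S₀ p)) (ee M σ (fill col S₀ p)) y)]
  · have h1 : (fun i j => co (Tt (fill col S₀ p)) (ee M σ (fill col S₀ p)) y (E i) (E j)) =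
        cw (fun a => wO (Tt S₀) (ee M σ S₀) y a * σ k₀)
        (fun i => σ (col i) * σ k₀) (AO (Tt S₀))
        (BO' (Tt S₀) (fun i => lb (Tt S₀) (p i)) (fun i => nq (p i)))
        (Pool.Agent.Y703.XK.ext fun e : prs ι => cs (p e.1.1) (p e.1.2)) := by
      funext i j
      unfold co
      rcases i with a | i
      · rcases j with b | j
        · rw [w1, w1]
          show _ = wO (Tt S₀) (ee M σ S₀) y a * σ k₀ * (wO (Tt S₀) (ee M σ S₀) y b * σ k₀) *
            AO (Tt S₀) a b
          unfold AO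
          by_cases hab : a = b
          · rw [if_pos (by rw [hab]), if_pos hab, mul_zero]
          · rw [if_neg (fun h => hab (Sum.inl_injective (E.injective h))), if_neg hab]
            have h2 : mmO (Tt (fill col S₀ p)) (E (Sum.inl a)) (E (Sum.inl b)) =
                mmO (Tt S₀) a b := by
              rw [hE, hE]
              cases a with
              | none => cases b with
                | none => rfl
                | some v => rfl
              | some u => cases b with
                | none => rfl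
                | some v => rfl
            rw [h2]
            linear_combination (-(wO (Tt S₀) (ee M σ S₀) y a * wO (Tt S₀) (ee M σ S₀) y b *
              mmO (Tt S₀) a b)) * hsq
        · rw [w1, w2, if_neg (fun h => absurd (E.injective h) (by simp))]
          show _ = wO (Tt S₀) (ee M σ S₀) y a * σ k₀ * (σ (col j) * σ k₀) *
            BO' (Tt S₀) (fun i => lb (Tt S₀) (p i)) (fun i => nq (p i)) a j
          have h2 : mmO (Tt (fill col S₀ p)) (E (Sum.inl a)) (E (Sum.inr j)) =
              BO' (Tt S₀) (fun i => lb (Tt S₀) (p i)) (fun i => nq (p i)) a j := by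
            rw [hE, hE]
            cases a with
            | none => rfl
            | some u => rfl
          rw [h2]
          linear_combination (-(wO (Tt S₀) (ee M σ S₀) y a * σ (col j) *
            BO' (Tt S₀) (fun i => lb (Tt S₀) (p i)) (fun i => nq (p i)) a j)) * hsq
      · rcases j with b | j
        · rw [w1, w2, if_neg (fun h => absurd (E.injective h) (by simp))]
          show _ = wO (Tt S₀) (ee M σ S₀) y b * σ k₀ * (σ (col i) * σ k₀) *
            BO' (Tt S₀) (fun i => lb (Tt S₀) (p i)) (fun i => nq (p i)) b i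
          have h2 : mmO (Tt (fill col S₀ p)) (E (Sum.inr i)) (E (Sum.inl b)) =
              BO' (Tt S₀) (fun i => lb (Tt S₀) (p i)) (fun i => nq (p i)) b i := by
            rw [hE, hE]
            cases b with
            | none => rfl
            | some u => exact cs_symm (hpr i) (hU' u u.2)
          rw [h2]
          linear_combination (-(wO (Tt S₀) (ee M σ S₀) y b * σ (col i) *
            BO' (Tt S₀) (fun i => lb (Tt S₀) (p i)) (fun i => nq (p i)) b i)) * hsq
        · rw [w2, w2]
          show _ = σ (col i) * σ k₀ * (σ (col j) * σ k₀) *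
            Pool.Agent.Y703.XK.ext (fun e : prs ι => cs (p e.1.1) (p e.1.2)) i j
          by_cases hij : i = j
          · rw [if_pos (by rw [hij]), hij]
            have h2 : Pool.Agent.Y703.XK.ext (fun e : prs ι => cs (p e.1.1) (p e.1.2)) j j = 0 := by
              unfold Pool.Agent.Y703.XK.ext
              rw [dif_neg (fun h => lt_irrefl _ (mem_prs.1 h)),
                dif_neg (fun h => lt_irrefl _ (mem_prs.1 h))]
            rw [h2, mul_zero]
          · rw [if_neg (fun h => hij (Sum.inr_injective (E.injective h)))]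
            have h2 : mmO (Tt (fill col S₀ p)) (E (Sum.inr i)) (E (Sum.inr j)) =
                Pool.Agent.Y703.XK.ext (fun e : prs ι => cs (p e.1.1) (p e.1.2)) i j := by
              rw [hE, hE]
              show cs (p i) (p j) = _
              unfold Pool.Agent.Y703.XK.ext
              by_cases h : (i, j) ∈ prs ι
              · rw [dif_pos h]
              · rw [dif_neg h]
                have h2 : (j, i) ∈ prs ι := by
                  rw [mem_prs] at h ⊢
                  rcases lt_trichotomy j i with h1 | h1 | h1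
                  · exact h1
                  · exact absurd h1.symm hij
                  · exact absurd h1 h
                rw [dif_pos h2]
                exact cs_symm (hpr i) (hpr j)
            rw [h2]
            linear_combination (-(σ (col i) * σ (col j) *
              Pool.Agent.Y703.XK.ext (fun e : prs ι => cs (p e.1.1) (p e.1.2)) i j)) * hsq
    rw [h1]
  · intro i
    unfold So
    rw [mem_filter]
    rcases i with a | i
    · rw [w1, mem_Sw_inl]
      constructor
      · exact fun h => mul_ne_zero h.2 hσ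
      · exact fun h => ⟨mem_univ _, left_ne_zero_of_mul h⟩
    · rw [w2, mem_Sw_inr]
      constructor
      · exact fun h => mul_ne_zero h.2 hσ
      · exact fun h => ⟨mem_univ _, left_ne_zero_of_mul h⟩

end one


/-- the statement for the boxes -/
def BXV {m Mt : ℕ} (s : Fin Mt → Fin m → ZMod 3) (y : Fin Mt → ZMod 3)
    (r : Fin Mt → ℕ) (M : Fin m → Finset Ei) (R : ℕ) (c δ : ℝ) : Prop :=
  ∀ (ι : Type) [Fintype ι] [LinearOrder ι] (col : ι → Fin m) (C : ι → Finset Ei) (X : ι → ℕ)
  (κ : ℝ) (S₀ : Fin m → Finset Ei), 0 ≤ κ → (∀ i, (C i).card ≤ X i) → HB C X κ →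
  (∀ k, ∀ u ∈ S₀ k, Pq u) → (∀ k, M k ⊆ S₀ k) → (∀ i, ∀ π ∈ C i, Pq π ∧ ∀ k, π ∉ S₀ k) →
  (∀ i l, i ≠ l → Disjoint (C i) (C l)) → (∀ i, ∀ π ∈ C i, ∀ ρ ∈ C i, nq π = nq ρ) →
  (∀ k, 4 * ((Tt S₀).card + 1) + R + 1 ≤ (univ.filter fun i => col i = k).card) →
  |(((Fintype.piFinset C).filter fun p =>
      (∀ k, NdB (Tt S₀) ((univ.filter fun i => col i = k).image p)) ∧
        GT M s y r (fill col S₀ p)).card : ℝ) -
      c * (((Fintype.piFinset C).filter fun p =>
        (∀ k, NdB (Tt S₀) ((univ.filter fun i => col i = k).image p))).card : ℝ)| ≤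
    δ * (((Fintype.piFinset C).filter fun p =>
        (∀ k, NdB (Tt S₀) ((univ.filter fun i => col i = k).image p))).card : ℝ) +
    3 ^ ((Tt S₀).card * Fintype.card ι + (prs ι).card) * (κ * ∏ j, (X j : ℝ))

/-- **The count in a box.** -/
theorem t_BXV (hEQ : S_EQ) {m Mt : ℕ} (s : Fin Mt → Fin m → ZMod 3) (ld : Fin Mt → Fin m)
    (hs : ∀ t, s t (ld t) ≠ 0) (hs0 : ∀ t k, k < ld t → s t k = 0)
    (hsep : ∀ t t', t ≠ t' → ld t = ld t' → ∃ k, s t k * s t (ld t) ≠ s t' k * s t' (ld t'))
    (y : Fin Mt → ZMod 3) (r : Fin Mt → ℕ) (δ : ℝ) (hδ : 0 < δ) : ∃ R : ℕ, ∀ R' : ℕ, R ≤ R' →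
    ∀ (M : Fin m → Finset Ei), BXV s y r M R' (∏ t, gi * cf (r t)) δ := by
  obtain ⟨R, hR⟩ := t_LACV m Mt r δ hδ
  refine ⟨R, ?_⟩
  intro R' hR' M ι _ _ col C X κ S₀ hκ hCX hHB hS₀ hM hC hdis hnq hcard
  have hcol : ∀ k, ∃ i, col i = k := by
    intro k
    have h1 := hcard k
    have h2 : 0 < (univ.filter fun i => col i = k).card := by omega
    obtain ⟨i, hi⟩ := card_pos.1 h2
    exact ⟨i, (mem_filter.1 hi).2⟩
  obtain ⟨c, hc⟩ : ∃ c : ℝ, c = ∏ k, gi * cf (r k) := ⟨_, rfl⟩
  obtain ⟨E, hE⟩ : ∃ E : ℝ, E = 3 ^ (prs ι).card * (κ * ∏ j, (X j : ℝ)) := ⟨_, rfl⟩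
  have hE0 : 0 ≤ E := by
    rw [hE]
    exact mul_nonneg (by positivity)
      (mul_nonneg hκ (Finset.prod_nonneg fun j _ => by positivity))
  have hU : ∀ u ∈ Tt S₀, Pq u := fun u hu => by
    obtain ⟨k, hk⟩ := mem_Tt.1 hu
    exact hS₀ k u hk
  -- the labels at `ω`
  obtain ⟨γ, hγ⟩ : ∃ γ : ι → ZMod 3, ∀ k, ∀ π ∈ C k, nq π = γ k :=
    ⟨fun k => if h : (C k).Nonempty then nq h.choose else 0, fun k π hπ => by
      have h : (C k).Nonempty := ⟨π, hπ⟩
      show nq π = if h : (C k).Nonempty then nq h.choose else 0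
      rw [dif_pos h]
      exact hnq k π hπ _ h.choose_spec⟩
  have hγp : ∀ p ∈ Fintype.piFinset C, (fun k => nq (p k)) = γ := by
    intro p hp
    rw [Fintype.mem_piFinset] at hp
    exact funext fun k => hγ k _ (hp k)
  -- facts on tuples
  have hinj : ∀ p ∈ Fintype.piFinset C, Function.Injective p := by
    intro p hp i j hij
    rw [Fintype.mem_piFinset] at hp
    by_contra hne
    have h1 := Finset.disjoint_left.1 (hdis i j hne) (hp i)
    rw [hij] at h1
    exact h1 (hp j)
  have hd : ∀ p ∈ Fintype.piFinset C, ∀ i k, p i ∉ S₀ k := by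
    intro p hp i
    rw [Fintype.mem_piFinset] at hp
    exact (hC i _ (hp i)).2
  have hpr : ∀ p ∈ Fintype.piFinset C, ∀ i, Pq (p i) := by
    intro p hp i
    rw [Fintype.mem_piFinset] at hp
    exact (hC i _ (hp i)).1
  have hs1 : ∀ t, s t (ld t) * s t (ld t) = 1 := fun t => eq_one_of_ne (hs t)
  have hsep' : ∀ t t', t ≠ t' → ld t = ld t' → ∃ q, ¬ col q = ld t ∧
      s t (col q) * s t (ld t) ≠ s t' (col q) * s t' (ld t') := by
    intro t t' htt hl
    obtain ⟨k, hk⟩ := hsep t t' htt hl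
    obtain ⟨q, hq⟩ := hcol k
    refine ⟨q, fun h => hk ?_, ?_⟩
    · rw [← hq, h, hs1, hl, hs1]
    · rw [hq]
      exact hk
  -- the part with given labels
  have h1 : ∀ β : ι → ↥(Tt S₀) → ZMod 3, (∀ k, LNT col k (Tt S₀) β γ) →
      |(((Fintype.piFinset C).filter fun p => (fun i => lb (Tt S₀) (p i)) = β ∧
          GT M s y r (fill col S₀ p)).card : ℝ) -
        c * (((Fintype.piFinset C).filter fun p => (fun i => lb (Tt S₀) (p i)) = β).card : ℝ)| ≤
      δ * (((Fintype.piFinset C).filter fun p => (fun i => lb (Tt S₀) (p i)) = β).card : ℝ) +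
        E := by
    intro β hβ
    obtain ⟨C', hC'⟩ : ∃ C' : ι → Finset Ei, C' = fun i => (C i).filter fun q =>
      lb (Tt S₀) q = β i := ⟨_, rfl⟩
    have hpi : (Fintype.piFinset C).filter (fun p => (fun i => lb (Tt S₀) (p i)) = β) =
        Fintype.piFinset C' := by
      ext p
      simp only [Finset.mem_filter, Fintype.mem_piFinset, hC']
      constructor
      · rintro ⟨h2, h3⟩ i
        exact ⟨h2 i, congrFun h3 i⟩
      · intro h2
        exact ⟨fun i => (h2 i).1, funext fun i => (h2 i).2⟩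
    have h2 := hR (Option ↥(Tt S₀)) ι col ld
      (fun t a => wO (Tt S₀) (ee M (s t) S₀) (y t) a * s t (ld t))
      (fun t i => s t (col i) * s t (ld t)) (AO (Tt S₀)) (BO' (Tt S₀) β γ)
      (AO_symm hU)
      (fun t j hj => by rw [hj]; exact hs1 t) (fun t j hj => by rw [hs0 t _ hj, zero_mul]) hβ
      (fun k => by
        rw [Fintype.card_option, Fintype.card_coe, Fintype.card_subtype]
        refine le_trans ?_ (hcard k)
        omega) hsep'
    obtain ⟨Q, hQ⟩ : ∃ Q : (prs ι → ZMod 3) → Prop, Q = fun α =>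
        ∀ t, finrank (ZMod 3) (KS (cw (fun a => wO (Tt S₀) (ee M (s t) S₀) (y t) a * s t (ld t))
          (fun i => s t (col i) * s t (ld t)) (AO (Tt S₀)) (BO' (Tt S₀) β γ)
          (Pool.Agent.Y703.XK.ext α))
          (Sw (fun a => wO (Tt S₀) (ee M (s t) S₀) (y t) a * s t (ld t))
            (fun i => s t (col i) * s t (ld t)))) = r t + 1 :=
      ⟨_, rfl⟩
    have h3 := hEQ ι C' X κ hκ
      (fun i => (Finset.card_le_card (by rw [hC']; exact Finset.filter_subset _ _)).trans (hCX i))
      (by rw [hC']; exact HB_sub hHB fun i q => lb (Tt S₀) q = β i) Q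
    have h4 : ((Fintype.piFinset C).filter fun p => (fun i => lb (Tt S₀) (p i)) = β ∧
        GT M s y r (fill col S₀ p)) = ((Fintype.piFinset C').filter fun p =>
          Q fun e => cs (p e.1.1) (p e.1.2)) := by
      rw [← hpi, Finset.filter_filter]
      refine Finset.filter_congr fun p hp => ?_
      refine and_congr_right fun hl => ?_
      have hl2 := hγp p hp
      subst hl
      rw [hQ]
      unfold GT
      refine forall_congr' fun t => ?_
      rw [finrank_co' (hinj p hp) (hd p hp) (hpr p hp) hS₀ hM (ld t) (hs t) (y t), hl2]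
    have h5 : (((Fintype.piFinset C').card : ℕ) : ℝ) = ∏ j, ((C' j).card : ℝ) := by
      rw [Fintype.card_piFinset]
      push_cast
      rfl
    rw [h4, hpi, h5]
    rw [← hE] at h3
    obtain ⟨n, hn⟩ : ∃ n : ℝ, n = (((Fintype.piFinset C').filter fun p =>
          Q fun e => cs (p e.1.1) (p e.1.2)).card : ℝ) := ⟨_, rfl⟩
    obtain ⟨q, hq⟩ : ∃ q : ℝ, q = ((univ.filter Q).card : ℝ) / 3 ^ (prs ι).card := ⟨_, rfl⟩
    obtain ⟨P, hP⟩ : ∃ P : ℝ, P = ∏ j, ((C' j).card : ℝ) := ⟨_, rfl⟩
    have hP0 : 0 ≤ P := by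
      rw [hP]
      exact Finset.prod_nonneg fun j _ => by positivity
    have h2' : |q - c| ≤ δ := by
      rw [hq, hQ, hc]
      refine le_trans (le_of_eq ?_) h2
      rw [fcc2]
    rw [← hn, ← hq, ← hP] at h3
    rw [← hn, ← hP]
    have h6 : |n - c * P| ≤ |n - q * P| + |q - c| * P := by
      have h7 : n - c * P = (n - q * P) + (q - c) * P := by ring
      have h8 : |(q - c) * P| = |q - c| * P := by rw [abs_mul, abs_of_nonneg hP0]
      rw [h7, ← h8]
      exact abs_add_le _ _
    have h7 : |q - c| * P ≤ δ * P := mul_le_mul_of_nonneg_right h2' hP0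
    linarith
  -- sum over the labels
  obtain ⟨LL, hLL⟩ : ∃ LL : Finset (ι → ↥(Tt S₀) → ZMod 3),
    LL = univ.filter (fun β => ∀ k, LNT col k (Tt S₀) β γ) := ⟨_, rfl⟩
  have hnd : ∀ p ∈ Fintype.piFinset C,
      ((∀ k, NdB (Tt S₀) ((univ.filter fun i => col i = k).image p)) ↔
        ∀ k, LNT col k (Tt S₀) (fun i => lb (Tt S₀) (p i)) γ) := by
    intro p hp
    refine forall_congr' fun k => ?_
    rw [ndT_iff, hγp p hp]
  have hfib : ∀ T : (ι → Ei) → Prop,
      (((Fintype.piFinset C).filter fun p =>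
        (∀ k, NdB (Tt S₀) ((univ.filter fun i => col i = k).image p)) ∧ T p).card : ℝ) =
      ∑ β ∈ LL, (((Fintype.piFinset C).filter fun p =>
        (fun i => lb (Tt S₀) (p i)) = β ∧ T p).card : ℝ) := by
    intro T
    rw [Finset.card_eq_sum_card_fiberwise (f := fun (p : ι → Ei) (i : ι) => lb (Tt S₀) (p i))
      (t := LL) (by
        intro p hp
        rw [Finset.mem_coe, Finset.mem_filter] at hp
        rw [Finset.mem_coe, hLL, Finset.mem_filter]
        exact ⟨Finset.mem_univ _, (hnd p hp.1).1 hp.2.1⟩)]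
    push_cast
    refine Finset.sum_congr rfl fun β hβ => ?_
    rw [hLL, Finset.mem_filter] at hβ
    congr 2
    ext p
    simp only [Finset.mem_filter]
    constructor
    · rintro ⟨⟨h3, h4, h4'⟩, h5⟩
      exact ⟨h3, h5, h4'⟩
    · rintro ⟨h3, h4, h5⟩
      refine ⟨⟨h3, ?_, h5⟩, h4⟩
      rw [hnd p h3, h4]
      exact hβ.2
  have hf1 := hfib fun p => GT M s y r (fill col S₀ p)
  have hf2 := hfib fun _ => True
  simp only [and_true] at hf2
  rw [hf1, hf2, Finset.mul_sum, ← Finset.sum_sub_distrib, ← hc]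
  refine (Finset.abs_sum_le_sum_abs _ _).trans ?_
  refine (Finset.sum_le_sum fun β hβ => h1 β (by
    rw [hLL] at hβ
    exact (Finset.mem_filter.1 hβ).2)).trans ?_
  rw [Finset.sum_add_distrib, ← Finset.mul_sum, Finset.sum_const, nsmul_eq_mul]
  have h5 : ((LL.card : ℕ) : ℝ) ≤ 3 ^ ((Tt S₀).card * Fintype.card ι) := by
    have h6 : LL.card ≤ Fintype.card (ι → ↥(Tt S₀) → ZMod 3) :=
      Finset.card_le_univ _
    rw [Fintype.card_fun, Fintype.card_fun, ZMod.card, Fintype.card_coe, ← pow_mul] at h6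
    exact_mod_cast h6
  have h6 := mul_le_mul_of_nonneg_right h5 hE0
  rw [pow_add, mul_assoc, ← hE]
  linarith

end Run7.h707.TD
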