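import Pool.Agent.Run7.h707.TC.Law
import Pool.Agent.Run7.h707.TD.Asy
import Pool.Agent.N883.FF.Den3

/-! The classes of the elements modulo `3` and of their norms modulo `9` -/

set_option autoImplicit false
set_option linter.unusedVariables false
set_option linter.unusedSectionVars false

open scoped Classical

namespace Run7.h707.TD

open Finset Filter
open Pool.Agent.Y692.QS (Ei w nr)
open Pool.Agent.Y715.T.RecG (Pq)
open Pool.Agent.Y699.E (ez nrm nrm_cast nrm_mul prm mem_ZB ZB prm_ne_zero prm_mul prm_one ez_zero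
  ez_add norm_ez sum_ez)
open Pool.Agent.R419.KF (wt wt_one el el_ne el_prm el_inj cf_el ex_pair)
open Pool.Agent.N883.FF (nq ClP w_pow_inj isUnit_w nr_w_mul)
open Pool.Agent.N883.FF.Den3 (CF small nq_mul nq_zero)
open Run7.h707.TC (Tt mem_Tt dlt elw UC NEc uc_iff dlt_eq tt_pq eT ee Uu FamU w_red pow_prm)

/-- the element of a unit and a primary element -/
noncomputable def ew (p : ZMod 3 × Ei) : Ei := w ^ p.1.val * p.2

/-- the class of an element in `F₃²` -/
def cls (p : ZMod 3 × Ei) : ZMod 3 × ZMod 3 := (p.1, nq p.2)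

theorem mem_CF' {X : ℕ} {D : Ei} : D ∈ CF X ↔ nrm D ≤ X ∧ ClP D := by
  unfold CF
  rw [mem_filter, mem_ZB]

theorem cf_prm {X : ℕ} {D : Ei} (h : D ∈ CF X) : prm D := (mem_CF'.1 h).2.1

theorem nr_ew {p : ZMod 3 × Ei} : nr (ew p) = nr p.2 := nr_w_mul _ _

theorem ew_inj {p q : ZMod 3 × Ei} (hp : prm p.2) (hq : prm q.2) (h : ew p = ew q) : p = q := by
  have e : ∀ r : ZMod 3 × Ei, ew r - w ^ r.1.val = w ^ r.1.val * (r.2 - 1) := fun r => by
    unfold ew
    ring
  have h1 : (3 : Ei) ∣ ew p - w ^ p.1.val := by rw [e]; exact Dvd.dvd.mul_left hp _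
  have h2 : (3 : Ei) ∣ ew q - w ^ q.1.val := by rw [e]; exact Dvd.dvd.mul_left hq _
  rw [h] at h1
  have h3 : (3 : Ei) ∣ w ^ p.1.val - w ^ q.1.val := by
    have := dvd_sub h2 h1
    convert this using 1
    ring
  have h4 := w_pow_inj h3
  have h5 : p.2 = q.2 := by
    unfold ew at h
    rw [h4] at h
    exact mul_left_cancel₀ (isUnit_w.pow _).ne_zero h
  exact Prod.ext h4 h5

theorem famU_ew {X : ℕ} {a : Ei} : (nr a ≤ X ∧ FamU a) ↔
    ∃ p ∈ (univ : Finset (ZMod 3)) ×ˢ CF X, ew p = a := by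
  constructor
  · rintro ⟨h0, h1, i, h2⟩
    have hw3 : (w : Ei) ^ i.val * w ^ (-i).val = 1 := by
      have : ∀ i : ZMod 3, (w : Ei) ^ i.val * w ^ (-i).val = 1 := by decide
      exact this i
    have h3 : (3 : Ei) ∣ w ^ (-i).val * a - 1 := by
      have h4 : w ^ (-i).val * a - 1 = w ^ (-i).val * (a - w ^ i.val) := by
        rw [mul_sub]
        congr 1
        rw [mul_comm, hw3]
      rw [h4]
      exact h2.mul_left _
    refine ⟨(i, w ^ (-i).val * a), ?_, ?_⟩
    · rw [mem_product, mem_CF']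
      refine ⟨mem_univ _, ?_, h3, fun x hx => h1 x ?_⟩
      · have h5 : nr (w ^ (-i).val * a) = nr a := nr_w_mul _ _
        have h6 : ((nrm (w ^ (-i).val * a) : ℕ) : ℤ) ≤ (X : ℤ) := by
          rw [nrm_cast, h5]
          exact h0
        exact_mod_cast h6
      · exact ((isUnit_w.pow (-i).val).dvd_mul_left).1 hx
    · unfold ew
      show w ^ i.val * (w ^ (-i).val * a) = a
      rw [← mul_assoc, hw3, one_mul]
  · rintro ⟨p, hp, rfl⟩
    rw [mem_product, mem_CF'] at hp
    obtain ⟨-, h1, h2, h3⟩ := hp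
    refine ⟨?_, fun x hx => ?_, p.1, ?_⟩
    · rw [nr_ew, ← nrm_cast]
      exact_mod_cast h1
    · exact h3 x (((isUnit_w.pow _).dvd_mul_left).1 hx)
    · have e : ew p - w ^ p.1.val = w ^ p.1.val * (p.2 - 1) := by
        unfold ew
        ring
      rw [e]
      exact Dvd.dvd.mul_left h2 _

/-- the tuples -/
noncomputable def PX (m X : ℕ) : Finset (Fin m → ZMod 3 × Ei) :=
  Fintype.piFinset fun _ : Fin m => (univ : Finset (ZMod 3)) ×ˢ CF X

theorem cnt_ew (m X : ℕ) (C : (Fin m → Ei) → Prop) :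
    {a : Fin m → Ei | (∀ k, nr (a k) ≤ X ∧ FamU (a k)) ∧ C a}.ncard =
      ((PX m X).filter fun p => C fun k => ew (p k)).card := by
  have h1 : {a : Fin m → Ei | (∀ k, nr (a k) ≤ X ∧ FamU (a k)) ∧ C a} =
      (fun (p : Fin m → ZMod 3 × Ei) => fun k => ew (p k)) ''
        (((PX m X).filter fun p => C fun k => ew (p k) : Finset (Fin m → ZMod 3 × Ei)) :
          Set (Fin m → ZMod 3 × Ei)) := by
    ext a
    constructor
    · rintro ⟨h1, h3⟩
      choose p hp ha using fun k => famU_ew.1 (h1 k)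
      have hae : (fun k => ew (p k)) = a := funext ha
      refine ⟨p, ?_, hae⟩
      rw [mem_coe, mem_filter, hae]
      exact ⟨Fintype.mem_piFinset.2 hp, h3⟩
    · rintro ⟨p, hp, rfl⟩
      rw [mem_coe, mem_filter] at hp
      exact ⟨fun k => famU_ew.2 ⟨p k, Fintype.mem_piFinset.1 hp.1 k, rfl⟩, hp.2⟩
  rw [h1, Set.ncard_image_of_injOn, Set.ncard_coe_finset]
  intro p hp p' hp' h
  rw [mem_coe, mem_filter] at hp hp'
  have h2 := Fintype.mem_piFinset.1 hp.1
  have h3 := Fintype.mem_piFinset.1 hp'.1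
  funext k
  exact ew_inj (cf_prm (mem_product.1 (h2 k)).2) (cf_prm (mem_product.1 (h3 k)).2) (congrFun h k)

theorem card_PX (m X : ℕ) : (PX m X).card = (3 * (CF X).card) ^ m := by
  unfold PX
  rw [Fintype.card_piFinset, prod_const, card_univ, Fintype.card_fin, card_product, card_univ,
    ZMod.card]

theorem card_cls (m X : ℕ) (P : (Fin m → ZMod 3 × ZMod 3) → Prop) :
    ((PX m X).filter fun p => P fun k => cls (p k)).card =
      ∑ u ∈ univ.filter P, ∏ k, ((CF X).filter fun D => nq D = (u k).2).card := by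
  rw [card_eq_sum_card_fiberwise (f := fun p k => cls (p k)) (t := univ.filter P) (by
    intro p hp
    rw [mem_coe, mem_filter] at hp
    rw [mem_coe, mem_filter]
    exact ⟨mem_univ _, hp.2⟩)]
  refine sum_congr rfl fun u hu => ?_
  have e : (((PX m X).filter fun p => P fun k => cls (p k)).filter fun p =>
      (fun k => cls (p k)) = u) = Fintype.piFinset fun k => (({(u k).1} : Finset (ZMod 3)) ×ˢ
        ((CF X).filter fun D => nq D = (u k).2)) := by
    ext p
    rw [mem_filter, mem_filter, Fintype.mem_piFinset]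
    unfold PX
    rw [Fintype.mem_piFinset]
    constructor
    · rintro ⟨⟨h1, h2⟩, h3⟩ k
      have h4 := mem_product.1 (h1 k)
      have h5 := congrFun h3 k
      rw [mem_product, mem_singleton, mem_filter]
      exact ⟨congrArg Prod.fst h5, h4.2, congrArg Prod.snd h5⟩
    · intro h
      have h3 : (fun k => cls (p k)) = u := by
        funext k
        have h1 := h k
        rw [mem_product, mem_singleton, mem_filter] at h1
        exact Prod.ext h1.1 h1.2.2
      refine ⟨⟨fun k => ?_, ?_⟩, h3⟩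
      · have h1 := h k
        rw [mem_product, mem_singleton, mem_filter] at h1
        exact mem_product.2 ⟨mem_univ _, h1.2.1⟩
      · rw [h3]
        exact (mem_filter.1 hu).2
  rw [e, Fintype.card_piFinset]
  refine prod_congr rfl fun k _ => ?_
  rw [card_product, card_singleton, one_mul]

theorem cf_low : ∃ (c : ℝ) (X₀ : ℕ), 0 < c ∧ ∀ X : ℕ, X₀ ≤ X → c * X ≤ ((CF X).card : ℝ) := by
  obtain ⟨⟨c, hc, X₀, h⟩, -⟩ := Pool.Agent.N883.FF.den3
  refine ⟨c, X₀, hc, fun X hX => ?_⟩
  have h1 := h X hX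
  rwa [Pool.Agent.N883.FF.Den3.card_CF] at h1

/-- the classes are equidistributed -/
theorem equi (c : ZMod 3) : Tendsto (fun X : ℕ => (((CF X).filter fun D => nq D = c).card : ℝ) /
    ((CF X).card : ℝ)) atTop (nhds (1 / 3)) := by
  obtain ⟨c₀, X₀, hc, hlow⟩ := cf_low
  rw [Metric.tendsto_atTop]
  intro ε hε
  obtain ⟨X₁, h1⟩ := small 1 (by decide) (c₀ * ε) (by positivity)
  obtain ⟨X₂, h2⟩ := small 2 (by decide) (c₀ * ε) (by positivity)
  refine ⟨max (max X₀ 1) (max X₁ X₂), fun X hX => ?_⟩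
  have hX0 : X₀ ≤ X := le_trans (le_trans (le_max_left _ _) (le_max_left _ _)) hX
  have hXp : 1 ≤ X := le_trans (le_trans (le_max_right _ _) (le_max_left _ _)) hX
  have hX1 : X₁ ≤ X := le_trans (le_trans (le_max_left _ _) (le_max_right _ _)) hX
  have hX2 : X₂ ≤ X := le_trans (le_trans (le_max_right _ _) (le_max_right _ _)) hX
  rw [Real.dist_eq]
  have hl := hlow X hX0
  have hXr : (0 : ℝ) < X := by exact_mod_cast hXp
  have hn : (0 : ℝ) < ((CF X).card : ℝ) := lt_of_lt_of_le (by positivity) hl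
  set n : ℝ := ((CF X).card : ℝ) with hn'
  set q : ℝ := (((CF X).filter fun D => nq D = c).card : ℝ) with hq'
  have h3 : |3 * q - n| ≤ 2 * (c₀ * ε * X) := by
    have h5 : ((3 * q - n : ℝ) : ℂ) = ez (-(1 * c)) * ∑ a ∈ CF X, ez (1 * nq a) +
        ez (-(2 * c)) * ∑ a ∈ CF X, ez (2 * nq a) := by
      have h4 : ∀ a : Ei, ∑ t : ZMod 3, ez (t * (nq a - c)) = 1 + ez (-(1 * c)) * ez (1 * nq a) +
          ez (-(2 * c)) * ez (2 * nq a) := by
        intro a
        have : (Finset.univ : Finset (ZMod 3)) = {0, 1, 2} := by decide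
        rw [this, sum_insert (by decide), sum_insert (by decide), sum_singleton, zero_mul, ez_zero,
          ← ez_add, ← ez_add, ← add_assoc]
        congr 2
        · congr 1
          ring
        · ring
      have h6 : ∑ a ∈ CF X, ∑ t : ZMod 3, ez (t * (nq a - c)) = (3 : ℂ) *
          (((CF X).filter fun D => nq D = c).card : ℂ) := by
        rw [sum_congr rfl (fun a _ => sum_ez (nq a - c)), ← sum_filter, sum_const, nsmul_eq_mul,
          mul_comm]
        congr 3
        ext D
        rw [mem_filter, mem_filter, sub_eq_zero]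
      rw [sum_congr rfl (fun a _ => h4 a), sum_add_distrib, sum_add_distrib, sum_const,
        nsmul_eq_mul, mul_one, ← mul_sum, ← mul_sum] at h6
      rw [hq', hn']
      push_cast
      linear_combination -h6
    rw [← Real.norm_eq_abs, ← Complex.norm_real, h5]
    calc _ ≤ _ := norm_add_le _ _
      _ ≤ c₀ * ε * X + c₀ * ε * X := by
        rw [norm_mul, norm_mul, norm_ez, norm_ez, one_mul, one_mul]
        exact add_le_add (h1 X hX1) (h2 X hX2)
      _ = 2 * (c₀ * ε * X) := by ring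
  have h6 : q / n - 1 / 3 = (3 * q - n) / (3 * n) := by
    field_simp
  rw [h6, abs_div, abs_of_pos (by positivity : (0 : ℝ) < 3 * n), div_lt_iff₀ (by positivity)]
  calc |3 * q - n| ≤ 2 * (c₀ * ε * X) := h3
    _ = 2 * ε * (c₀ * X) := by ring
    _ ≤ 2 * ε * n := by gcongr
    _ < ε * (3 * n) := by nlinarith

end Run7.h707.TD
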