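import Pool.Agent.Run7.h707.TD.Key

/-! The sum over the boxes for tuples of sets of primes, with conditions on all the colours -/

set_option autoImplicit false
set_option linter.unusedSectionVars false

open scoped Classical

namespace Run7.h707.TD

open Finset Module
open Pool.Agent.Y692.QS (Ei)
open Pool.Agent.Y715.T.Rec (cs)
open Pool.Agent.Y715.T.RecG (Pq)
open Pool.Agent.Y699.E (ez nrm QB mem_QB)
open Pool.Agent.Y703.CX (jj XX)
open Pool.Agent.Y703.XK (prs HB S_EQ sm la bl S_BIL)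
open Pool.Agent.R419.KF (wt wt_one wt_ne SG mem_SG)
open Pool.Agent.N883.FF (nq NdB)
open Pool.Agent.XLK (fcc nrm_one_le ph ky CC mem_CC ph_div ph_mod sm_union sm_disj prod_split
  ph_inj prod_ph le_XX hb_box card_QB_le prs_card sum_inv)
open Run7.h707.TC (TP mem_TP IjT kyT ijT_inj JT colT colT_spec IjK colT_iff sm_fillT la_fillT
  ph_fillT ky_fillT CC_inj Tt mem_Tt fill GT nq_congr card_Tt_le card_JT_le card_col prod_JT)

/-- the labels with respect to all the small primes are not degenerate -/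
def NdV {m : ℕ} (z : ℕ) (S : Fin m → Finset Ei) : Prop :=
  ∀ l, NdB (Tt fun k => sm z (S k)) (la z (S l))

/-- the statement for the boxes with the decidability of equality as a variable -/
theorem box_decV {m Mt : ℕ} {s : Fin Mt → Fin m → ZMod 3} {y : Fin Mt → ZMod 3}
    {r : Fin Mt → ℕ} {M : Fin m → Finset Ei} {R : ℕ} {c δ : ℝ} (hB : BXV s y r M R c δ)
    (ι : Type) [Fintype ι] [inst : DecidableEq ι] (lo : LinearOrder ι) (col : ι → Fin m)
    (C : ι → Finset Ei) (X : ι → ℕ) (κ : ℝ) (S₀ : Fin m → Finset Ei) (h1 : 0 ≤ κ)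
    (h2 : ∀ i, (C i).card ≤ X i) (h3 : HB C X κ) (h4 : ∀ k, ∀ u ∈ S₀ k, Pq u)
    (h5 : ∀ k, M k ⊆ S₀ k) (h6 : ∀ i, ∀ π ∈ C i, Pq π ∧ ∀ k, π ∉ S₀ k)
    (h7 : ∀ i l, i ≠ l → Disjoint (C i) (C l)) (h8 : ∀ i, ∀ π ∈ C i, ∀ ρ ∈ C i, nq π = nq ρ)
    (h10 : ∀ k, 4 * ((Tt S₀).card + 1) + R + 1 ≤ (univ.filter fun i => col i = k).card) :
    |(((Fintype.piFinset C).filter fun p =>
      (∀ k, NdB (Tt S₀) ((univ.filter fun i => col i = k).image p)) ∧
        GT M s y r (fill col S₀ p)).card : ℝ) -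
      c * (((Fintype.piFinset C).filter fun p =>
        (∀ k, NdB (Tt S₀) ((univ.filter fun i => col i = k).image p))).card : ℝ)| ≤
    δ * (((Fintype.piFinset C).filter fun p =>
        (∀ k, NdB (Tt S₀) ((univ.filter fun i => col i = k).image p))).card : ℝ) +
    3 ^ ((Tt S₀).card * Fintype.card ι + (prs ι).card) * (κ * ∏ j, (X j : ℝ)) := by
  have h := hB ι col C X κ S₀ h1 h2 h3 h4 h5 h6 h7 h8 h10
  have e : inst = fun a b => lo.toDecidableEq a b := Subsingleton.elim _ _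
  subst e
  exact h

theorem per_keyV {m Mt : ℕ} {s : Fin Mt → Fin m → ZMod 3} {y : Fin Mt → ZMod 3}
    {r : Fin Mt → ℕ} {M : Fin m → Finset Ei} {R : ℕ} {c δ : ℝ} (hB : BXV s y r M R c δ)
    (hδ0 : 0 ≤ δ) {C₁ : ℝ}
    (hb1 : ∀ (P Q : Finset Ei) (A B z : ℕ) (c d : Ei → ℂ) (a : ZMod 3),
      (∀ π ∈ P, Pq π ∧ nrm π ≤ A) → (∀ ρ ∈ Q, Pq ρ ∧ nrm ρ ≤ B) → Disjoint P Q → a ≠ 0 →
      1 ≤ z → z ≤ A → z ≤ B → (∀ π, ‖c π‖ ≤ 1) → (∀ ρ, ‖d ρ‖ ≤ 1) →
      ‖∑ π ∈ P, ∑ ρ ∈ Q, c π * d ρ * ez (a * cs π ρ)‖ ^ 24 * z ≤ C₁ * ((A : ℝ) * B) ^ 24)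
    {Y : Fin m → ℕ} {z H K : ℕ} {κ : ℝ} (hM : ∀ k, ∀ q ∈ M k, nrm q ≤ z) (hH : 1 ≤ H)
    (hz : 1 ≤ z) (hκ : 0 ≤ κ) (h1 : C₁ ≤ κ ^ 24 * z) {k' : Fin m → Finset Ei × Finset ℕ}
    (hkey : k' ∈ (RV M Y z H K R).image (kyT z H)) :
    |(((RV M Y z H K R).filter fun S => kyT z H S = k' ∧
        (NdV z S ∧ GT M s y r S)).card : ℝ) -
      c * (((RV M Y z H K R).filter fun S => kyT z H S = k' ∧ NdV z S).card : ℝ)| ≤
    δ * (((RV M Y z H K R).filter fun S => kyT z H S = k').card : ℝ) +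
      (3 ^ (5 * (m * K) ^ 2) * κ) *
        ∏ k, ((Y k : ℝ) * (1 / ((∏ p ∈ (k' k).1, nrm p : ℕ) : ℝ))) := by
  obtain ⟨h₀O, h₀, hJi, hCd, hJf⟩ := key_factsV hM hH hkey
  obtain ⟨c1, c4, c5, c7⟩ := hCd
  have hcJ : Fintype.card ↥(JT k') = (JT k').card := Fintype.card_coe _
  have hCmem : ∀ i : ↥(JT k'), ∀ p ∈ CC z H i, Pq p ∧ z < nrm p ∧ nrm p ≤ XX H (i.1 / 9) := by
    intro i p hp
    obtain ⟨k1, k2, k3⟩ := (mem_CC hH).1 hp
    refine ⟨k1, k2, ?_⟩
    unfold CC at hp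
    rw [Finset.mem_filter, mem_QB] at hp
    exact hp.1.1
  have hdis : ∀ i l : ↥(JT k'), i ≠ l → Disjoint (CC z H (i : ℕ)) (CC z H (l : ℕ)) := by
    intro i l hil
    rw [Finset.disjoint_left]
    intro p hp hp'
    exact hil (Subtype.ext (CC_inj hH hp hp'))
  have hzX : ∀ i : ↥(JT k'), z ≤ XX H (i.1 / 9) := fun i => (hJf _ i (colT_spec k' i)).1
  have hHB : HB (fun i : ↥(JT k') => CC z H i) (fun i : ↥(JT k') => 16 * XX H (i.1 / 9)) κ :=
    hb_box hb1 _ _ hz hκ h1 (fun i => by have := hzX i; omega)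
      (fun i p hp => by
        obtain ⟨k1, k2, k3⟩ := hCmem i p hp
        exact ⟨k1, by omega⟩) hdis
  have hcard : ∀ i : ↥(JT k'), (CC z H (i : ℕ)).card ≤ 16 * XX H (i.1 / 9) := by
    intro i
    refine (Finset.card_filter_le _ _).trans (card_QB_le ?_)
    have := hzX i
    omega
  have hnq : ∀ i : ↥(JT k'), ∀ π ∈ CC z H (i : ℕ), ∀ ρ ∈ CC z H (i : ℕ), nq π = nq ρ := by
    intro i π hπ ρ hρ
    have h5 := ((mem_CC hH).1 hπ).2.2
    have h6 := ((mem_CC hH).1 hρ).2.2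
    apply nq_congr
    rw [← ph_mod H π, ← ph_mod H ρ, h5, h6]
  have hbox := box_decV hB ↥(JT k') inferInstance (colT k') (fun i : ↥(JT k') => CC z H i)
    (fun i : ↥(JT k') => 16 * XX H (i.1 / 9)) κ (fun k => (k' k).1) hκ hcard hHB h₀O c1
    (fun i p hp => by
      obtain ⟨k1, k2, k3⟩ := hCmem i p hp
      refine ⟨k1, fun k h => ?_⟩
      have := h₀ k p h
      omega) hdis hnq
    (fun k => by
      have h9 := card_col (k' := k') hJi k
      have h8 := c7 k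
      rw [← h9] at h8
      exact h8)
  have hT : ∀ p : ↥(JT k') → Ei, (∀ i : ↥(JT k'), p i ∈ CC z H (i : ℕ)) →
      (NdV z (fill (colT k') (fun k => (k' k).1) p) ↔
        (∀ l, NdB (Tt fun k => (k' k).1) ((univ.filter fun i => colT k' i = l).image p))) := by
    intro p hp
    unfold NdV
    have : (fun k => sm z (fill (colT k') (fun k => (k' k).1) p k)) = fun k => (k' k).1 :=
      funext fun k => sm_fillT hH h₀ hp k
    rw [this]
    refine forall_congr' fun l => ?_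
    rw [la_fillT hH h₀ hp]
  have e1 : (((Fintype.piFinset fun i : ↥(JT k') => CC z H i).filter
      fun p => (∀ l, NdB (Tt fun k => (k' k).1) ((univ.filter fun i => colT k' i = l).image p)) ∧
        GT M s y r (fill (colT k') (fun k => (k' k).1) p)).card) =
      ((RV M Y z H K R).filter fun S => kyT z H S = k' ∧
        (NdV z S ∧ GT M s y r S)).card := by
    refine Eq.trans (fcc ?_) ((key_bijV hM hH hkey (fun S => NdV z S ∧ GT M s y r S)).trans
      (fcc fun _ _ => Iff.rfl))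
    intro p hp
    rw [Fintype.mem_piFinset] at hp
    rw [hT p hp]
  have e2 : (((Fintype.piFinset fun i : ↥(JT k') => CC z H i).filter
      fun p => ∀ l, NdB (Tt fun k => (k' k).1)
        ((univ.filter fun i => colT k' i = l).image p)).card) =
      ((RV M Y z H K R).filter fun S => kyT z H S = k' ∧ NdV z S).card := by
    refine Eq.trans (fcc ?_) ((key_bijV hM hH hkey (fun S => NdV z S)).trans
      (fcc fun _ _ => Iff.rfl))
    intro p hp
    rw [Fintype.mem_piFinset] at hp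
    rw [hT p hp]
  rw [← e1, ← e2]
  have e3 : (((Fintype.piFinset fun i : ↥(JT k') => CC z H i).filter
      fun p => ∀ l, NdB (Tt fun k => (k' k).1)
        ((univ.filter fun i => colT k' i = l).image p)).card : ℝ) ≤
      (((RV M Y z H K R).filter fun S => kyT z H S = k').card : ℝ) := by
    rw [e2]
    have : (RV M Y z H K R).filter (fun S => kyT z H S = k' ∧ NdV z S) ⊆
        (RV M Y z H K R).filter fun S => kyT z H S = k' := by
      intro S hS
      rw [Finset.mem_filter] at hS ⊢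
      exact ⟨hS.1, hS.2.1⟩
    exact_mod_cast Finset.card_le_card this
  refine hbox.trans ?_
  obtain ⟨n, hn⟩ : ∃ n : ℕ, n = (prs ↥(JT k')).card := ⟨_, rfl⟩
  have hJK : (JT k').card ≤ m * K := card_JT_le k' K fun k => by have := c4 k; omega
  have hSK : (Tt fun k => (k' k).1).card ≤ m * K := card_Tt_le _ K fun k => by
    have := c4 k
    show (k' k).1.card ≤ K
    omega
  have hpr : n ≤ (m * K) * (m * K) := by
    rw [hn]
    refine (prs_card ↥(JT k')).trans ?_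
    rw [hcJ]
    exact Nat.mul_le_mul hJK hJK
  rw [← hn]
  have hN0 : ∀ k, (0 : ℝ) < ((∏ p ∈ (k' k).1, nrm p : ℕ) : ℝ) := by
    intro k
    exact_mod_cast Finset.prod_pos fun p hp => nrm_one_le (h₀O k p hp)
  have hprod : ∏ j : ↥(JT k'), ((16 * XX H (j.1 / 9) : ℕ) : ℝ) ≤
      3 ^ (3 * (m * K)) * ∏ k, ((Y k : ℝ) * (1 / ((∏ p ∈ (k' k).1, nrm p : ℕ) : ℝ))) := by
    have h5 : ∏ j : ↥(JT k'), ((16 * XX H (j.1 / 9) : ℕ) : ℝ) =
        16 ^ (JT k').card * ∏ k, ((∏ i ∈ (k' k).2, XX H (i / 9) : ℕ) : ℝ) := by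
      have h6 := prod_JT (k' := k') hJi (fun i => XX H (i / 9))
      have h7 : ∏ k, ((∏ i ∈ (k' k).2, XX H (i / 9) : ℕ) : ℝ) =
          ((∏ i ∈ JT k', XX H (i / 9) : ℕ) : ℝ) := by
        rw [h6]
        push_cast
        rfl
      rw [h7, ← Finset.prod_coe_sort (JT k') (fun i => XX H (i / 9))]
      push_cast
      rw [Finset.prod_mul_distrib, Finset.prod_const, Finset.card_univ, hcJ]
    have h6 : ∏ k, ((∏ i ∈ (k' k).2, XX H (i / 9) : ℕ) : ℝ) ≤
        ∏ k, ((Y k : ℝ) * (1 / ((∏ p ∈ (k' k).1, nrm p : ℕ) : ℝ))) := by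
      refine prod_le_prod (fun k _ => Nat.cast_nonneg _) fun k _ => ?_
      rw [mul_one_div, le_div_iff₀ (hN0 k), mul_comm]
      exact_mod_cast c5 k
    have h7 : (16 : ℝ) ^ (JT k').card ≤ 3 ^ (3 * (m * K)) := by
      calc (16 : ℝ) ^ (JT k').card ≤ 27 ^ (JT k').card :=
            pow_le_pow_left₀ (by norm_num) (by norm_num) _
        _ = 3 ^ (3 * (JT k').card) := by rw [pow_mul]; norm_num
        _ ≤ 3 ^ (3 * (m * K)) := pow_le_pow_right₀ (by norm_num) (by omega)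
    rw [h5]
    exact mul_le_mul h7 h6 (prod_nonneg fun k _ => Nat.cast_nonneg _) (by positivity)
  have hpw : (3 : ℝ) ^ ((Tt fun k => (k' k).1).card * Fintype.card ↥(JT k') + n) *
      3 ^ (3 * (m * K)) ≤ 3 ^ (5 * (m * K) ^ 2) := by
    rw [← pow_add]
    apply pow_le_pow_right₀ (by norm_num)
    rw [hcJ]
    have h5 : (Tt fun k => (k' k).1).card * (JT k').card ≤ (m * K) * (m * K) :=
      Nat.mul_le_mul hSK hJK
    have h6 : m * K ≤ (m * K) * (m * K) := by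
      rcases Nat.eq_zero_or_pos (m * K) with h | h
      · rw [h]
      · exact Nat.le_mul_of_pos_left _ h
    rw [sq]
    omega
  refine add_le_add (mul_le_mul_of_nonneg_left e3 hδ0) ?_
  set P : ℝ := ∏ k, ((Y k : ℝ) * (1 / ((∏ p ∈ (k' k).1, nrm p : ℕ) : ℝ))) with hP
  have hP0 : 0 ≤ P := prod_nonneg fun k _ => by
    have := (hN0 k).le
    positivity
  calc (3 : ℝ) ^ ((Tt fun k => (k' k).1).card * Fintype.card ↥(JT k') + n) *
      (κ * ∏ j : ↥(JT k'), ((16 * XX H (j.1 / 9) : ℕ) : ℝ)) ≤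
      3 ^ ((Tt fun k => (k' k).1).card * Fintype.card ↥(JT k') + n) *
        (κ * (3 ^ (3 * (m * K)) * P)) := by gcongr
    _ = (3 ^ ((Tt fun k => (k' k).1).card * Fintype.card ↥(JT k') + n) * 3 ^ (3 * (m * K))) *
        (κ * P) := by ring
    _ ≤ 3 ^ (5 * (m * K) ^ 2) * (κ * P) := by gcongr
    _ = _ := by ring

/-- the sum of the errors -/
theorem keg_errV {m : ℕ} {M : Fin m → Finset Ei} {R : ℕ} {Y : Fin m → ℕ}
    {X z H K N : ℕ} (hM : ∀ k, ∀ q ∈ M k, nrm q ≤ z) (hY1 : ∀ k, 1 ≤ Y k) (hYX : ∀ k, Y k ≤ X)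
    (hH : 1 ≤ H) (hz : 1 ≤ z) (hN : (H : ℝ) * Real.log X < N)
    {T : Finset (Fin m → Finset Ei × Finset ℕ)}
    (hT : ∀ k' ∈ T, k' ∈ (RV M Y z H K R).image (kyT z H)) :
    ∑ k' ∈ T, ∏ k, ((Y k : ℝ) * (1 / ((∏ p ∈ (k' k).1, nrm p : ℕ) : ℝ))) ≤
      ((9 * N + 9 : ℝ) ^ K * (X * (64 * (1 + Real.log X)))) ^ m := by
  set U : Finset ℕ := range (9 * N) with hU
  set A : Fin m → Finset (Finset Ei) := fun k => T.image fun k' => (k' k).1 with hA
  have hAp : ∀ k, ∀ S ∈ A k, (∀ p ∈ S, Pq p) ∧ ∏ p ∈ S, nrm p ≤ Y k := by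
    intro k S hS
    rw [hA, Finset.mem_image] at hS
    obtain ⟨k', hk, rfl⟩ := hS
    obtain ⟨h₀O, h₀, hJi, hCd, hJf⟩ := key_factsV hM hH (hT _ hk)
    refine ⟨fun p hp => h₀O k p hp, ?_⟩
    have h4 : 1 ≤ ∏ i ∈ (k' k).2, XX H (i / 9) := by
      apply Nat.one_le_iff_ne_zero.2
      rw [Finset.prod_ne_zero_iff]
      intro i hi
      exact Nat.one_le_iff_ne_zero.1 (hz.trans (hJf k i hi).1)
    calc ∏ p ∈ (k' k).1, nrm p = (∏ p ∈ (k' k).1, nrm p) * 1 := (mul_one _).symm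
      _ ≤ (∏ p ∈ (k' k).1, nrm p) * ∏ i ∈ (k' k).2, XX H (i / 9) := Nat.mul_le_mul_left _ h4
      _ ≤ Y k := hCd.2.2.1 k
  have hX1 : (1 : ℝ) ≤ X ∨ m = 0 := by
    rcases Nat.eq_zero_or_pos m with h | h
    · exact Or.inr h
    · left
      exact_mod_cast (hY1 ⟨0, h⟩).trans (hYX ⟨0, h⟩)
  have hsub : T ⊆ Fintype.piFinset fun k => A k ×ˢ (U.powerset.filter fun J => J.card ≤ K) := by
    intro k' hk
    rw [Fintype.mem_piFinset]
    intro k
    rw [Finset.mem_product, Finset.mem_filter, Finset.mem_powerset]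
    obtain ⟨h₀O, h₀, hJi, hCd, hJf⟩ := key_factsV hM hH (hT _ hk)
    have hc := hCd.2.1 k
    refine ⟨Finset.mem_image_of_mem (fun k' => (k' k).1) hk, ?_, (Nat.le_add_left _ _).trans hc⟩
    intro i hi
    obtain ⟨k2, q, hq, hzq, hqX, hqi⟩ := hJf k i hi
    rw [hU, Finset.mem_range]
    have hH0 : (0 : ℝ) < H := by exact_mod_cast hH
    have hq0 : (0 : ℝ) < nrm q := by exact_mod_cast nrm_one_le hq
    have h4 : (H : ℝ) * Real.log (nrm q) ≤ H * Real.log X := by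
      apply mul_le_mul_of_nonneg_left _ hH0.le
      exact Real.log_le_log hq0 (by exact_mod_cast hqX.trans (hYX k))
    have h5 : ((⌊(H : ℝ) * Real.log (nrm q)⌋₊ : ℕ) : ℝ) < N :=
      (Nat.floor_le (mul_nonneg hH0.le (Real.log_natCast_nonneg _))).trans_lt (h4.trans_lt hN)
    have h6 : bl H q < N := by
      unfold bl jj
      exact_mod_cast h5
    have h7 := ph_div H q
    rw [hqi] at h7
    omega
  have hcU : ((U.powerset.filter fun J => J.card ≤ K).card : ℝ) ≤ (9 * N + 9 : ℝ) ^ K := by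
    have h4 := Pool.Agent.XLK.card_sub U K
    have h5 : U.card = 9 * N := by
      rw [hU, Finset.card_range]
    rw [h5] at h4
    have h6 : ((U.powerset.filter fun J => J.card ≤ K).card : ℝ) ≤ ((9 * N + 1 : ℕ) : ℝ) ^ K := by
      exact_mod_cast h4
    refine h6.trans ?_
    apply pow_le_pow_left₀ (by positivity)
    push_cast
    linarith
  calc ∑ k' ∈ T, ∏ k, ((Y k : ℝ) * (1 / ((∏ p ∈ (k' k).1, nrm p : ℕ) : ℝ)))
      ≤ ∑ k' ∈ Fintype.piFinset (fun k => A k ×ˢ (U.powerset.filter fun J => J.card ≤ K)),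
        ∏ k, ((Y k : ℝ) * (1 / ((∏ p ∈ (k' k).1, nrm p : ℕ) : ℝ))) :=
        Finset.sum_le_sum_of_subset_of_nonneg hsub fun _ _ _ => by positivity
    _ = ∏ k, ∑ x ∈ A k ×ˢ (U.powerset.filter fun J => J.card ≤ K),
        ((Y k : ℝ) * (1 / ((∏ p ∈ x.1, nrm p : ℕ) : ℝ))) :=
        (Finset.prod_univ_sum (fun k => A k ×ˢ (U.powerset.filter fun J => J.card ≤ K))
          (fun k x => (Y k : ℝ) * (1 / ((∏ p ∈ x.1, nrm p : ℕ) : ℝ)))).symm
    _ ≤ ∏ _k : Fin m, ((9 * N + 9 : ℝ) ^ K * (X * (64 * (1 + Real.log X)))) := by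
        refine Finset.prod_le_prod (fun k _ => sum_nonneg fun _ _ => by positivity) fun k _ => ?_
        rw [Finset.sum_product]
        simp only [Finset.sum_const, nsmul_eq_mul]
        rw [← Finset.mul_sum, ← Finset.mul_sum]
        have h4 := sum_inv (hY1 k) (hAp k)
        have h5 : (0 : ℝ) ≤ ∑ S ∈ A k, 1 / ((∏ p ∈ S, nrm p : ℕ) : ℝ) :=
          Finset.sum_nonneg fun _ _ => by positivity
        have h6 : (Y k : ℝ) ≤ X := by exact_mod_cast hYX k
        have h7 : Real.log (Y k) ≤ Real.log X := by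
          have : (0 : ℝ) < Y k := by exact_mod_cast hY1 k
          exact Real.log_le_log this h6
        have h8 : (0 : ℝ) ≤ Real.log (Y k) := Real.log_natCast_nonneg _
        have h9 : ∑ S ∈ A k, (1 : ℝ) / ((∏ p ∈ S, nrm p : ℕ) : ℝ) ≤ 64 * (1 + Real.log X) := by
          linarith
        gcongr
    _ = _ := by
        rw [prod_const, card_univ, Fintype.card_fin]

/-- **The sum over the boxes.** -/
theorem t_KEV (hB1 : S_BIL) : ∃ C : ℝ, 1 ≤ C ∧ ∀ {m Mt : ℕ} 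
    (s : Fin Mt → Fin m → ZMod 3) (y : Fin Mt → ZMod 3) (r : Fin Mt → ℕ) (M : Fin m → Finset Ei)
    (R : ℕ) (c δ : ℝ), BXV s y r M R c δ → 0 ≤ δ →
  ∀ (Q : (Fin m → Finset Ei × Finset ℕ) → Prop) (Y : Fin m → ℕ) (X z H K N : ℕ) (κ : ℝ),
  (∀ k, ∀ q ∈ M k, nrm q ≤ z) → (∀ k, 1 ≤ Y k) → (∀ k, Y k ≤ X) → 1 ≤ H → 1 ≤ z → 0 ≤ κ →
  C ≤ κ ^ 24 * z → (H : ℝ) * Real.log X < N →
  |(((RV M Y z H K R).filter fun S => Q (kyT z H S) ∧ NdV z S ∧ GT M s y r S).card : ℝ) -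
      c * (((RV M Y z H K R).filter fun S => Q (kyT z H S) ∧ NdV z S).card : ℝ)| ≤
    δ * (((RV M Y z H K R).filter fun S => Q (kyT z H S)).card : ℝ) +
    3 ^ (5 * (m * K) ^ 2) * κ * ((9 * N + 9 : ℝ) ^ K * (X * (64 * (1 + Real.log X)))) ^ m := by
  obtain ⟨C₁, hC₁, hb1⟩ := hB1
  refine ⟨C₁, hC₁, ?_⟩
  intro m Mt s y r M R c δ hB hδ0 Q Y X z H K N κ hM hY1 hYX hH hz hκ h1 hN
  set T := ((RV M Y z H K R).image (kyT z H)).filter fun k' => Q k' with hT
  have hfib : ∀ P : (Fin m → Finset Ei) → Prop,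
      (((RV M Y z H K R).filter fun S => Q (kyT z H S) ∧ P S).card : ℝ) =
      ∑ k' ∈ T, (((RV M Y z H K R).filter fun S => kyT z H S = k' ∧ P S).card : ℝ) := by
    intro P
    rw [Finset.card_eq_sum_card_fiberwise (f := kyT z H) (t := T) (by
      intro S hS
      rw [Finset.mem_coe, Finset.mem_filter] at hS
      rw [Finset.mem_coe, hT, Finset.mem_filter]
      exact ⟨Finset.mem_image_of_mem _ hS.1, hS.2.1⟩)]
    push_cast
    refine Finset.sum_congr rfl fun k' hk' => ?_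
    rw [hT, Finset.mem_filter] at hk'
    congr 2
    ext S
    simp only [Finset.mem_filter]
    constructor
    · rintro ⟨⟨a1, a2, a3⟩, a4⟩
      exact ⟨a1, a4, a3⟩
    · rintro ⟨a1, a2, a3⟩
      refine ⟨⟨a1, ?_, a3⟩, a2⟩
      rw [a2]
      exact hk'.2
  have hall := hfib fun _ => True
  simp only [and_true] at hall
  have q1 : (((RV M Y z H K R).filter fun S => Q (kyT z H S) ∧ NdV z S ∧
      GT M s y r S).card : ℝ) =
      ∑ k' ∈ T, (((RV M Y z H K R).filter fun S => kyT z H S = k' ∧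
        (NdV z S ∧ GT M s y r S)).card : ℝ) :=
    (congrArg _ (fcc fun _ _ => Iff.rfl)).trans
      ((hfib fun S => NdV z S ∧ GT M s y r S).trans
      (Finset.sum_congr rfl fun k' _ => congrArg _ (fcc fun _ _ => Iff.rfl)))
  rw [q1, hfib, Finset.mul_sum, ← Finset.sum_sub_distrib, hall, Finset.mul_sum]
  refine (Finset.abs_sum_le_sum_abs _ _).trans ?_
  refine (Finset.sum_le_sum fun k' hk => per_keyV hB hδ0 hb1 hM hH hz hκ h1
    (mem_filter.1 hk).1).trans ?_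
  rw [Finset.sum_add_distrib, ← Finset.mul_sum (a := (3 : ℝ) ^ (5 * (m * K) ^ 2) * κ)]
  refine add_le_add (le_refl _) ?_
  exact mul_le_mul_of_nonneg_left (keg_errV hM hY1 hYX hH hz hN
    fun k' hk' => (mem_filter.1 hk').1) (by positivity)

end Run7.h707.TD
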