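import Pool.Agent.Run7.h707.TD.Bd2

/-! The law of the coranks of several Laplacians with different weights of the same symmetric random
matrix; the weights may vanish -/

set_option autoImplicit false
set_option linter.unusedSectionVars false

open scoped Classical

namespace Run7.h707.TD

open Finset Module
open Q283.T3 hiding est thmR
open Pool.Agent.Y703.XK (prs)
open Run7.h707.TC

section cw
variable {U ι : Type} [Fintype U] [Fintype ι]

/-- the support -/
noncomputable def Sw (e : U → ZMod 3) (s : ι → ZMod 3) : Finset (U ⊕ ι) :=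
  univ.filter fun x => Sum.elim e s x ≠ 0

theorem mem_Sw_inl {e : U → ZMod 3} {s : ι → ZMod 3} {u : U} : Sum.inl u ∈ Sw e s ↔ e u ≠ 0 := by
  unfold Sw
  rw [mem_filter]
  exact ⟨fun h => h.2, fun h => ⟨mem_univ _, h⟩⟩

theorem mem_Sw_inr {e : U → ZMod 3} {s : ι → ZMod 3} {i : ι} : Sum.inr i ∈ Sw e s ↔ s i ≠ 0 := by
  unfold Sw
  rw [mem_filter]
  exact ⟨fun h => h.2, fun h => ⟨mem_univ _, h⟩⟩

theorem finrank_cw' (κ : ι → Prop) (e : U → ZMod 3) (s : ι → ZMod 3) (A : U → U → ZMod 3)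
    (B : U → ι → ZMod 3) (R : ι → ι → ZMod 3) (hR : ∀ i j, R i j = R j i)
    (hs1 : ∀ j, κ j → s j = 1) :
    finrank (ZMod 3) (KS (cw e s A B R) (Sw e s)) =
      finrank (ZMod 3) (KS (cc (es κ e s) (AA κ A B R) (BB κ B R)
        (fun k l : {i // κ i} => R k l)) (Sk {i // κ i} (es κ e s))) := by
  rw [← finrank_KS_equiv (eqv U κ) (cw e s A B R) (Sk {i // κ i} (es κ e s)) (Sw e s)]
  · have hs1' : ∀ j : {i // κ i}, s j = 1 := fun j => hs1 j j.2
    have h1 : (fun i j => cw e s A B R (eqv U κ i) (eqv U κ j)) = cc (es κ e s) (AA κ A B R)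
        (BB κ B R) (fun k l : {i // κ i} => R k l) := by
      funext i j
      rcases i with (u | q) | i
      · rcases j with (v | q') | j
        · rfl
        · show e u * s q' * B u q' = e u * s q' * B u q'
          rfl
        · show e u * s j * B u j = e u * B u j
          rw [hs1', mul_one]
      · rcases j with (v | q') | j
        · show e v * s q * B v q = s q * e v * B v q
          ring
        · rfl
        · show s q * s j * R q j = s q * R q j
          rw [hs1', mul_one]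
      · rcases j with (v | q') | j
        · show e v * s i * B v i = e v * B v i
          rw [hs1', mul_one]
        · show s i * s q' * R i q' = s q' * R q' i
          rw [hs1', one_mul, hR i q']
        · show s i * s j * R i j = R i j
          rw [hs1', hs1', one_mul, one_mul]
    rw [h1]
  · intro i
    rcases i with (u | q) | j
    · rw [eqv_u, mem_Sw_inl, mem_Sk_inl]
      rfl
    · rw [eqv_q, mem_Sk_inl, mem_Sw_inr]
      rfl
    · rw [eqv_j, mem_Sw_inr]
      refine iff_of_true ?_ mem_Sk_inr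
      rw [hs1 j j.2]
      decide

end cw

section fin
variable {U ι : Type} [Fintype U] [Fintype ι] [LinearOrder ι] {κ : ι → Prop}

theorem finrank_rep' {e : U → ZMod 3} {s : ι → ZMod 3} {A : U → U → ZMod 3} {B : U → ι → ZMod 3}
    (hA : ∀ u v, A u v = A v u) (hs1 : ∀ j, κ j → s j = 1)
    (j₀ : {i // κ i}) (α : prs ι → ZMod 3) (a : prs {i // κ i} → ZMod 3) :
    finrank (ZMod 3) (KS (cw e s A B (Pool.Agent.Y703.XK.ext (rep κ α a))) (Sw e s)) =
      finrank (ZMod 3) (LinearMap.ker (BO κ e s A B j₀ α + YA (U ⊕ {i // ¬ κ i}) a)) + 1 := by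
  rw [finrank_cw' κ e s A B _ (ext_symm _) hs1, AA_rep, BB_rep]
  have h1 : (fun k l : {i // κ i} => Pool.Agent.Y703.XK.ext (rep κ α a) k l) =
      Pool.Agent.Y703.XK.ext a := by
    funext k l
    exact ext_rep_in α a k l
  rw [h1]
  have h2 : BO κ e s A B j₀ α + YA (U ⊕ {i // ¬ κ i}) a =
      Lp (cc (es κ e s) (AA κ A B (Pool.Agent.Y703.XK.ext α))
        (BB κ B (Pool.Agent.Y703.XK.ext α)) (Pool.Agent.Y703.XK.ext a))
        (dg (Sk {i // κ i} (es κ e s)) (Sum.inr j₀)) := by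
    unfold BO B0 YA
    rw [Lp_add, cc_add]
  rw [h2, finrank_KS (cc_symm (AA_symm hA B α) (ext_symm a)) (fun i j h => cc_zero i j h)
    (j₀ := Sum.inr j₀) mem_Sk_inr]

end fin

/-- **The law of the coranks of the weighted Laplacians**, together with an event that does not
depend on the inner part -/
theorem t_LACG (M : ℕ) (r : Fin M → ℕ) (ε : ℝ) (hε : 0 < ε) : ∃ R : ℕ,
    ∀ (U ι : Type) [Fintype U] [Fintype ι] [LinearOrder ι] (κ : ι → Prop)
    (e : Fin M → U → ZMod 3) (s : Fin M → ι → ZMod 3) (A : U → U → ZMod 3) (B : U → ι → ZMod 3)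
    (G : (prs ι → ZMod 3) → Prop),
    (∀ u v, A u v = A v u) → (∀ t j, κ j → s t j = 1) →
    (∀ w : U → ZMod 3, w ≠ 0 → ∃ j, κ j ∧ ∑ u, w u * B u j ≠ 0) →
    4 * Fintype.card U + R ≤ Fintype.card {i // κ i} →
    (∀ t t', t ≠ t' → ∃ q, ¬ κ q ∧ s t q ≠ s t' q) → (∀ α a, G (rep κ α a) ↔ G α) →
    |((univ.filter fun α : prs ι → ZMod 3 => (∀ t,
        finrank (ZMod 3) (KS (cw (e t) (s t) A B (Pool.Agent.Y703.XK.ext α)) (Sw (e t) (s t))) =
          r t + 1) ∧ G α).card : ℝ) / 3 ^ (prs ι).card -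
        (∏ t, gi * cf (r t)) * (((univ.filter G).card : ℝ) / 3 ^ (prs ι).card)| ≤ ε := by
  obtain ⟨R₁, hR₁⟩ := thmS M r (ε / 2) (by positivity)
  obtain ⟨K, c3K⟩ := c3K'
  set C₀ : ℝ := M * 9 + M * (6 * 3 ^ R₁) + M * (M * (3 ^ (1 + R₁) * K)) with hC₀
  have hC₀0 : 0 ≤ C₀ := by positivity
  obtain ⟨R, hR⟩ : ∃ R : ℕ, C₀ * (5 / 9 : ℝ) ^ R ≤ ε / 2 := by
    obtain ⟨R, hR⟩ := exists_pow_lt_of_lt_one (show (0 : ℝ) < ε / 2 / (C₀ + 1) by positivity)
      (show (5 / 9 : ℝ) < 1 by norm_num)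
    refine ⟨R, ?_⟩
    rw [lt_div_iff₀ (by positivity)] at hR
    have h0 : (0 : ℝ) ≤ (5 / 9) ^ R := by positivity
    nlinarith
  refine ⟨R + R₁ + 1, ?_⟩
  intro U ι _ _ _ κ e s A B G hA hs1 hB hJ hsep hG
  set N := Fintype.card {i // κ i} with hN
  set u := Fintype.card U with hu
  obtain ⟨j₀⟩ := Fintype.card_pos_iff.1 (show 0 < Fintype.card {i // κ i} by omega)
  set d := N - 1 - R₁ with hd
  set Ω : ℝ := (Fintype.card (prs ι → ZMod 3) : ℝ) with hΩ
  have hΩ' : Ω = 3 ^ (prs ι).card := by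
    rw [hΩ, Fintype.card_fun, ZMod.card, Fintype.card_coe]
    push_cast
    rfl
  have hΩ0 : 0 < Ω := by rw [hΩ']; positivity
  -- the exceptional matrices
  set b1 : Fin M → Finset (prs ι → ZMod 3) := fun t => univ.filter fun α =>
    ¬ Nd (BO κ (e t) (s t) A B j₀ α) (W0 (U ⊕ {i // ¬ κ i}) {i // κ i}) with hb1
  set b2 : Fin M → Finset (prs ι → ZMod 3) := fun t => univ.filter fun α =>
    ¬ finrank (ZMod 3) ↥(W0 (U ⊕ {i // ¬ κ i}) {i // κ i} ⊓
      Nn (BO κ (e t) (s t) A B j₀ α) (W0 (U ⊕ {i // ¬ κ i}) {i // κ i})) ≤ d with hb2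
  set b3 : Fin M → Fin M → Finset (prs ι → ZMod 3) := fun t t' => univ.filter fun α => t ≠ t' ∧
    ¬ finrank (ZMod 3) (JJ (BO κ (e t) (s t) A B j₀ α) (BO κ (e t') (s t') A B j₀ α)
      (W0 (U ⊕ {i // ¬ κ i}) {i // κ i})) ≤ d with hb3
  set bad : Finset (prs ι → ZMod 3) := univ.biUnion b1 ∪ univ.biUnion b2 ∪
    univ.biUnion (fun t => univ.biUnion (b3 t)) with hbad
  have hp3 : (1 : ℝ) / 3 ^ R ≤ (5 / 9) ^ R := by
    rw [← one_div_pow]
    exact pow_le_pow_left₀ (by norm_num) (by norm_num) _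
  have hu3 : (3 : ℝ) ^ u * 3 ^ (R + R₁ + 1) ≤ 3 ^ N := by
    rw [← pow_add]
    exact pow_le_pow_right₀ (by norm_num) (by omega)
  have k1 : ∀ t, ((b1 t).card : ℝ) ≤ Ω * (9 * (5 / 9) ^ R) := by
    intro t
    have h1 := c1' (κ := κ) (e := e t) (s := s t) (A := A) (B := B) (j₀ := j₀) hA (hs1 t) hB
    have h2 : ((b1 t).card : ℝ) * 3 ^ N ≤ Ω * 3 ^ (u + 2) := by
      rw [hΩ]
      exact_mod_cast h1
    have h3 : ((b1 t).card : ℝ) ≤ Ω * (9 * (1 / 3 ^ R)) := by
      have h4 : Ω * 3 ^ (u + 2) ≤ Ω * (9 * (1 / 3 ^ R)) * 3 ^ N := by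
        rw [mul_assoc]
        apply mul_le_mul_of_nonneg_left _ hΩ0.le
        have h5 : (3 : ℝ) ^ u * 3 ^ R ≤ 3 ^ N := by
          refine le_trans ?_ hu3
          rw [pow_add, pow_add]
          have h6 : (1 : ℝ) ≤ 3 ^ R₁ * 3 ^ 1 := by
            have := one_le_pow₀ (show (1 : ℝ) ≤ 3 by norm_num) (n := R₁)
            nlinarith
          have h7 : (0 : ℝ) ≤ 3 ^ u * 3 ^ R := by positivity
          nlinarith
        have h6 : 9 * (1 / (3 : ℝ) ^ R) * 3 ^ N = 9 * 3 ^ N / 3 ^ R := by ring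
        rw [h6, le_div_iff₀ (by positivity), pow_add]
        nlinarith
      exact le_of_mul_le_mul_right (h2.trans h4) (by positivity)
    refine h3.trans ?_
    apply mul_le_mul_of_nonneg_left _ hΩ0.le
    linarith
  have k2 : ∀ t, ((b2 t).card : ℝ) ≤ Ω * (6 * 3 ^ R₁ * (5 / 9) ^ R) := by
    intro t
    have h1 := c2' (κ := κ) (e := e t) (s := s t) (A := A) (B := B) (j₀ := j₀) (hs1 t) d
    have h2 : ((b2 t).card : ℝ) * 3 ^ (d + 1) ≤ Ω * (2 * 3 ^ (u + 1)) := by
      rw [hΩ]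
      exact_mod_cast h1
    have h3 : ((b2 t).card : ℝ) ≤ Ω * (6 * 3 ^ R₁ * (1 / 3 ^ R)) := by
      have h4 : Ω * (2 * 3 ^ (u + 1)) ≤ Ω * (6 * 3 ^ R₁ * (1 / 3 ^ R)) * 3 ^ (d + 1) := by
        rw [mul_assoc]
        apply mul_le_mul_of_nonneg_left _ hΩ0.le
        have h5 : (3 : ℝ) ^ u * 3 ^ R ≤ 3 ^ R₁ * 3 ^ (d + 1) := by
          rw [← pow_add, ← pow_add]
          exact pow_le_pow_right₀ (by norm_num) (by omega)
        have h6 : 6 * 3 ^ R₁ * (1 / (3 : ℝ) ^ R) * 3 ^ (d + 1) =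
          6 * (3 ^ R₁ * 3 ^ (d + 1)) / 3 ^ R := by ring
        rw [h6, le_div_iff₀ (by positivity), pow_add]
        nlinarith
      exact le_of_mul_le_mul_right (h2.trans h4) (by positivity)
    refine h3.trans ?_
    apply mul_le_mul_of_nonneg_left _ hΩ0.le
    apply mul_le_mul_of_nonneg_left hp3 (by positivity)
  have k3 : ∀ t t', ((b3 t t').card : ℝ) ≤ Ω * (3 ^ (1 + R₁) * K * (5 / 9) ^ R) := by
    intro t t'
    by_cases htt : t = t'
    · have h1 : b3 t t' = ∅ := filter_false_of_mem fun α _ h => h.1 htt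
      rw [h1, card_empty]
      push_cast
      positivity
    obtain ⟨q, hq, hqs⟩ := hsep t t' htt
    have h0 : b3 t t' ⊆ univ.filter fun α => ¬ finrank (ZMod 3)
        (JJ (BO κ (e t) (s t) A B j₀ α) (BO κ (e t') (s t') A B j₀ α)
          (W0 (U ⊕ {i // ¬ κ i}) {i // κ i})) ≤ d := fun α h =>
      mem_filter.2 ⟨mem_univ _, (mem_filter.1 h).2.2⟩
    have h1 := c3K U ι κ (e t) (e t') (s t) (s t') A B j₀ (hs1 t) (hs1 t')
      ⟨q, hq⟩ hqs d
    have h2 : ((b3 t t').card : ℝ) * 3 ^ (d + 1) * 3 ^ N ≤ Ω * (3 * K * 9 ^ u * 5 ^ N) := by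
      rw [hΩ]
      have h3 : (b3 t t').card * 3 ^ (d + 1) * 3 ^ N ≤
          Fintype.card (prs ι → ZMod 3) * (3 * K * 9 ^ u * 5 ^ N) :=
        (Nat.mul_le_mul_right _ (Nat.mul_le_mul_right _ (card_le_card h0))).trans h1
      exact_mod_cast h3
    have h3 : Ω * (3 * K * 9 ^ u * 5 ^ N) ≤
        Ω * (3 ^ (1 + R₁) * K * (5 / 9) ^ R) * (3 ^ (d + 1) * 3 ^ N) := by
      rw [mul_assoc Ω (3 ^ (1 + R₁) * K * (5 / 9) ^ R)]
      apply mul_le_mul_of_nonneg_left _ hΩ0.le
      -- `9 ^ u (5/9) ^ N ≤ (5/9) ^ R`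
      have h4 : (9 : ℝ) ^ u * (5 / 9) ^ N ≤ (5 / 9) ^ R := by
        have h5 : ((5 : ℝ) / 9) ^ N ≤ (5 / 9) ^ (4 * u + R) :=
          pow_le_pow_of_le_one (by norm_num) (by norm_num) (by omega)
        have h6 : (9 : ℝ) ^ u * (5 / 9) ^ (4 * u + R) = (9 * (5 / 9) ^ 4) ^ u * (5 / 9) ^ R := by
          rw [pow_add, pow_mul, mul_pow]
          ring
        have h7 : ((9 : ℝ) * (5 / 9) ^ 4) ^ u ≤ 1 := pow_le_one₀ (by norm_num) (by norm_num)
        calc (9 : ℝ) ^ u * (5 / 9) ^ N ≤ 9 ^ u * (5 / 9) ^ (4 * u + R) :=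
              mul_le_mul_of_nonneg_left h5 (by positivity)
          _ = (9 * (5 / 9) ^ 4) ^ u * (5 / 9) ^ R := h6
          _ ≤ 1 * (5 / 9) ^ R := mul_le_mul_of_nonneg_right h7 (by positivity)
          _ = _ := one_mul _
      have h5 : (5 : ℝ) ^ N = (5 / 9) ^ N * 9 ^ N := by
        rw [← mul_pow]
        norm_num
      have h6 : (9 : ℝ) ^ N = 3 ^ R₁ * (3 ^ (d + 1) * 3 ^ N) := by
        have h7 : (3 : ℝ) ^ N = 3 ^ R₁ * 3 ^ (d + 1) := by
          rw [← pow_add]
          congr 1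
          omega
        rw [show (9 : ℝ) = 3 * 3 by norm_num, mul_pow]
        nth_rewrite 1 [h7]
        ring
      calc 3 * (K : ℝ) * 9 ^ u * 5 ^ N = 3 * K * (9 ^ u * (5 / 9) ^ N) * 9 ^ N := by
            rw [h5]; ring
        _ ≤ 3 * K * (5 / 9) ^ R * 9 ^ N := by gcongr
        _ = _ := by
          rw [h6, pow_add]
          ring
    have h4 := h2.trans h3
    rw [mul_assoc] at h4
    exact le_of_mul_le_mul_right h4 (by positivity)
  have hbadc : (bad.card : ℝ) ≤ ε / 2 * Ω := by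
    have h1 : (bad.card : ℝ) ≤ (∑ t, ((b1 t).card : ℝ)) + (∑ t, ((b2 t).card : ℝ)) +
        ∑ t, ∑ t', ((b3 t t').card : ℝ) := by
      have h2 : bad.card ≤ (∑ t, (b1 t).card) + (∑ t, (b2 t).card) +
          ∑ t, ∑ t', (b3 t t').card := by
        refine (card_union_le _ _).trans (add_le_add ((card_union_le _ _).trans
          (add_le_add card_biUnion_le card_biUnion_le)) ?_)
        exact card_biUnion_le.trans (sum_le_sum fun t _ => card_biUnion_le)
      exact_mod_cast h2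
    have h2 : ∑ t : Fin M, ((b1 t).card : ℝ) ≤ M * (Ω * (9 * (5 / 9) ^ R)) := by
      refine (sum_le_sum fun t _ => k1 t).trans (le_of_eq ?_)
      rw [sum_const, card_univ, Fintype.card_fin, nsmul_eq_mul]
    have h3 : ∑ t : Fin M, ((b2 t).card : ℝ) ≤ M * (Ω * (6 * 3 ^ R₁ * (5 / 9) ^ R)) := by
      refine (sum_le_sum fun t _ => k2 t).trans (le_of_eq ?_)
      rw [sum_const, card_univ, Fintype.card_fin, nsmul_eq_mul]
    have h4 : ∑ t : Fin M, ∑ t' : Fin M, ((b3 t t').card : ℝ) ≤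
        M * (M * (Ω * (3 ^ (1 + R₁) * K * (5 / 9) ^ R))) := by
      refine (sum_le_sum fun t _ => sum_le_sum fun t' _ => k3 t t').trans (le_of_eq ?_)
      rw [sum_const, sum_const, card_univ, Fintype.card_fin, nsmul_eq_mul, nsmul_eq_mul]
    have h5 : M * (Ω * (9 * (5 / 9) ^ R)) + M * (Ω * (6 * 3 ^ R₁ * (5 / 9) ^ R)) +
        M * (M * (Ω * (3 ^ (1 + R₁) * K * (5 / 9) ^ R))) = C₀ * (5 / 9) ^ R * Ω := by
      rw [hC₀]
      ring
    have h6 : C₀ * (5 / 9) ^ R * Ω ≤ ε / 2 * Ω := mul_le_mul_of_nonneg_right hR hΩ0.le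
    linarith
  -- the event
  set γ : ℝ := ∏ t, gi * cf (r t) with hγ
  have hgi0 : 0 ≤ gi := gi_ge
  have hγ0 : 0 ≤ γ := Finset.prod_nonneg fun k _ => mul_nonneg hgi0 (cf_pos _).le
  have hγ1 : γ ≤ 1 := Finset.prod_le_one (fun k _ => mul_nonneg hgi0 (cf_pos _).le)
    fun k _ => mul_le_one₀ gi_le (cf_pos _).le (cf_le_one _)
  obtain ⟨P, hP⟩ : ∃ P : (prs ι → ZMod 3) → Prop, ∀ α, P α ↔ ∀ t,
      finrank (ZMod 3) (KS (cw (e t) (s t) A B (Pool.Agent.Y703.XK.ext α)) (Sw (e t) (s t))) =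
        r t + 1 := ⟨_, fun _ => Iff.rfl⟩
  have hfP : (univ.filter fun α : prs ι → ZMod 3 => (∀ t,
      finrank (ZMod 3) (KS (cw (e t) (s t) A B (Pool.Agent.Y703.XK.ext α)) (Sw (e t) (s t))) =
        r t + 1) ∧ G α) = univ.filter fun α => P α ∧ G α :=
    filter_congr fun α _ => and_congr (hP α).symm Iff.rfl
  rw [hfP]
  set n3 : ℝ := 3 ^ (prs {i // κ i}).card with hn3
  have hn30 : 0 < n3 := by positivity
  have hgood : ∀ α, α ∉ bad → |((univ.filter fun a : prs {i // κ i} → ZMod 3 =>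
      P (rep κ α a)).card : ℝ) - γ * n3| ≤ ε / 2 * n3 := by
    intro α hα
    have hV : finrank (ZMod 3) ((U ⊕ {i // ¬ κ i}) ⊕ {i // κ i} → ZMod 3) =
        Fintype.card (U ⊕ {i // ¬ κ i}) + N := by
      rw [finrank_fintype_fun_eq_card, Fintype.card_sum]
    have hW := finrank_W0 (U := U ⊕ {i // ¬ κ i}) j₀
    have hWle : finrank (ZMod 3) (W0 (U ⊕ {i // ¬ κ i}) {i // κ i}) ≤
      finrank (ZMod 3) ((U ⊕ {i // ¬ κ i}) ⊕ {i // κ i} → ZMod 3) := Submodule.finrank_le _
    have key := hR₁ ((U ⊕ {i // ¬ κ i}) ⊕ {i // κ i} → ZMod 3)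
      (W0 (U ⊕ {i // ¬ κ i}) {i // κ i}) (fun t => BO κ (e t) (s t) A B j₀ α) d
      (finrank (ZMod 3) ((U ⊕ {i // ¬ κ i}) ⊕ {i // κ i} → ZMod 3) -
        finrank (ZMod 3) (W0 (U ⊕ {i // ¬ κ i}) {i // κ i}))
      (fun t => Lp_symm (cc_symm (AA_symm hA B α) fun _ _ => rfl) _)
      (fun t => by
        by_contra hno
        refine hα ?_
        rw [hbad, mem_union, mem_union]
        exact Or.inl (Or.inl (mem_biUnion.2 ⟨t, mem_univ _, mem_filter.2 ⟨mem_univ _, hno⟩⟩)))
      (fun t t' htt => by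
        by_contra hno
        refine hα ?_
        rw [hbad, mem_union]
        exact Or.inr (mem_biUnion.2 ⟨t, mem_univ _, mem_biUnion.2 ⟨t', mem_univ _,
          mem_filter.2 ⟨mem_univ _, htt, hno⟩⟩⟩))
      (fun t => by
        by_contra hno
        refine hα ?_
        rw [hbad, mem_union, mem_union]
        exact Or.inl (Or.inr (mem_biUnion.2 ⟨t, mem_univ _, mem_filter.2 ⟨mem_univ _, hno⟩⟩)))
      (by omega) (by rw [hV]; omega)
    rw [card_YYW] at key
    push_cast at key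
    have h1 : ((YY (W0 (U ⊕ {i // ¬ κ i}) {i // κ i})).filter fun Y => ∀ t,
        finrank (ZMod 3) (LinearMap.ker (BO κ (e t) (s t) A B j₀ α + Y)) = r t).card =
        (univ.filter fun a : prs {i // κ i} → ZMod 3 => P (rep κ α a)).card := by
      have hf := card_fill (U := U ⊕ {i // ¬ κ i}) (J := {i // κ i})
        (fun Y => ∀ t, finrank (ZMod 3) (LinearMap.ker (BO κ (e t) (s t) A B j₀ α + Y)) = r t)
      refine Eq.trans (fcc2 _ _) (hf.symm.trans ?_)
      congr 1
      ext a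
      simp only [mem_filter, mem_univ, true_and]
      rw [hP]
      refine forall_congr' fun t => ?_
      rw [finrank_rep' hA (hs1 t) j₀ α a]
      omega
    rw [h1] at key
    exact key
  have hany : ∀ α, |((univ.filter fun a : prs {i // κ i} → ZMod 3 =>
      P (rep κ α a)).card : ℝ) - γ * n3| ≤ n3 := by
    intro α
    have h1 : ((univ.filter fun a : prs {i // κ i} → ZMod 3 => P (rep κ α a)).card : ℝ) ≤ n3 := by
      have h2 : (univ.filter fun a : prs {i // κ i} → ZMod 3 => P (rep κ α a)).card ≤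
          3 ^ (prs {i // κ i}).card := by
        refine (card_filter_le _ _).trans (le_of_eq ?_)
        rw [card_univ, Fintype.card_fun, ZMod.card, Fintype.card_coe]
      rw [hn3]
      exact_mod_cast h2
    have h2 : (0 : ℝ) ≤ ((univ.filter fun a : prs {i // κ i} → ZMod 3 =>
      P (rep κ α a)).card : ℝ) := Nat.cast_nonneg _
    have h3 : γ * n3 ≤ n3 := mul_le_of_le_one_left hn30.le hγ1
    have h4 : 0 ≤ γ * n3 := by positivity
    rw [abs_le]
    constructor <;> linarith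
  obtain ⟨Q, hQ⟩ : ∃ Q : (prs ι → ZMod 3) → Prop, ∀ α, Q α ↔ P α ∧ G α := ⟨_, fun _ => Iff.rfl⟩
  have hPQ : (univ.filter fun α => P α ∧ G α) = univ.filter Q :=
    filter_congr fun α _ => (hQ α).symm
  have hin : ∀ α, ((univ.filter fun a : prs {i // κ i} → ZMod 3 => Q (rep κ α a)).card : ℝ) =
      (if G α then (1 : ℝ) else 0) * ((univ.filter fun a : prs {i // κ i} → ZMod 3 =>
        P (rep κ α a)).card : ℝ) := by
    intro α
    by_cases hGα : G α
    · rw [if_pos hGα, one_mul]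
      congr 2
      refine filter_congr fun a _ => ?_
      rw [hQ, hG]
      exact ⟨fun h => h.1, fun h => ⟨h, hGα⟩⟩
    · rw [if_neg hGα, zero_mul]
      rw [filter_false_of_mem, card_empty, Nat.cast_zero]
      intro a _ h
      exact hGα ((hG α a).1 ((hQ _).1 h).2)
  have hsum := card_rep (κ := κ) Q
  have hsum' : ((univ.filter fun α => P α ∧ G α).card : ℝ) * n3 =
      ∑ α : prs ι → ZMod 3, (if G α then (1 : ℝ) else 0) *
        ((univ.filter fun a : prs {i // κ i} → ZMod 3 => P (rep κ α a)).card : ℝ) := by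
    rw [← sum_congr rfl fun α _ => hin α, hn3, hPQ]
    exact_mod_cast hsum
  have hGc : ((univ.filter G).card : ℝ) = ∑ α : prs ι → ZMod 3, (if G α then (1 : ℝ) else 0) := by
    rw [← sum_filter, sum_const, nsmul_eq_mul, mul_one]
  have hi0 : ∀ α, (0 : ℝ) ≤ (if G α then (1 : ℝ) else 0) ∧ (if G α then (1 : ℝ) else 0) ≤ (1 : ℝ) := by
    intro α
    split_ifs
    · exact ⟨zero_le_one, le_rfl⟩
    · exact ⟨le_rfl, zero_le_one⟩
  have habs : ∀ α (x y : ℝ), |x| ≤ y → |(if G α then (1 : ℝ) else 0) * x| ≤ y := by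
    intro α x y h
    rw [abs_mul, abs_of_nonneg (hi0 α).1]
    exact (mul_le_of_le_one_left (abs_nonneg _) (hi0 α).2).trans h
  have hdiff : |((univ.filter fun α => P α ∧ G α).card : ℝ) * n3 -
      γ * ((univ.filter G).card : ℝ) * n3| ≤ ε * Ω * n3 := by
    have h1 : γ * ((univ.filter G).card : ℝ) * n3 =
        ∑ α : prs ι → ZMod 3, (if G α then (1 : ℝ) else 0) * (γ * n3) := by
      rw [hGc, ← sum_mul]
      ring
    rw [hsum', h1, ← sum_sub_distrib]
    simp only [← mul_sub]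
    refine (abs_sum_le_sum_abs _ _).trans ?_
    rw [← sum_filter_add_sum_filter_not univ (fun α => α ∈ bad)]
    have h2 : ∑ α ∈ univ.filter (fun α => α ∈ bad), |(if G α then (1 : ℝ) else 0) *
        (((univ.filter fun a : prs {i // κ i} → ZMod 3 => P (rep κ α a)).card : ℝ) - γ * n3)| ≤
        bad.card * n3 := by
      refine (sum_le_sum fun α _ => habs α _ _ (hany α)).trans (le_of_eq ?_)
      rw [sum_const, nsmul_eq_mul, filter_mem_eq_inter, univ_inter]
    have h3 : ∑ α ∈ univ.filter (fun α => ¬ α ∈ bad), |(if G α then (1 : ℝ) else 0) *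
        (((univ.filter fun a : prs {i // κ i} → ZMod 3 => P (rep κ α a)).card : ℝ) - γ * n3)| ≤
        Ω * (ε / 2 * n3) := by
      refine (sum_le_sum fun α hα => habs α _ _ (hgood α (mem_filter.1 hα).2)).trans ?_
      rw [sum_const, nsmul_eq_mul]
      apply mul_le_mul_of_nonneg_right _ (by positivity)
      rw [hΩ]
      exact_mod_cast card_le_univ _
    have h4 : (bad.card : ℝ) * n3 ≤ ε / 2 * Ω * n3 := mul_le_mul_of_nonneg_right hbadc hn30.le
    calc _ ≤ bad.card * n3 + Ω * (ε / 2 * n3) := add_le_add h2 h3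
      _ ≤ ε / 2 * Ω * n3 + Ω * (ε / 2 * n3) := by linarith
      _ = _ := by ring
  rw [← hΩ', ← mul_div_assoc, ← sub_div, abs_div, abs_of_pos hΩ0, div_le_iff₀ hΩ0]
  have h1 : ((univ.filter fun α => P α ∧ G α).card : ℝ) * n3 - γ * ((univ.filter G).card : ℝ) * n3 =
      (((univ.filter fun α => P α ∧ G α).card : ℝ) - γ * ((univ.filter G).card : ℝ)) * n3 := by ring
  rw [h1, abs_mul, abs_of_pos hn30] at hdiff
  exact le_of_mul_le_mul_right hdiff hn30

/-- the law for a part of the family -/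
theorem t_LACS {Mt : ℕ} (S : Finset (Fin Mt)) (r : Fin Mt → ℕ) (ε : ℝ) (hε : 0 < ε) : ∃ R : ℕ,
    ∀ (U ι : Type) [Fintype U] [Fintype ι] [LinearOrder ι] (κ : ι → Prop)
    (e : Fin Mt → U → ZMod 3) (s : Fin Mt → ι → ZMod 3) (A : U → U → ZMod 3) (B : U → ι → ZMod 3)
    (G : (prs ι → ZMod 3) → Prop),
    (∀ u v, A u v = A v u) → (∀ t ∈ S, ∀ j, κ j → s t j = 1) →
    (∀ w : U → ZMod 3, w ≠ 0 → ∃ j, κ j ∧ ∑ u, w u * B u j ≠ 0) →
    4 * Fintype.card U + R ≤ Fintype.card {i // κ i} →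
    (∀ t ∈ S, ∀ t' ∈ S, t ≠ t' → ∃ q, ¬ κ q ∧ s t q ≠ s t' q) → (∀ α a, G (rep κ α a) ↔ G α) →
    |((univ.filter fun α : prs ι → ZMod 3 => (∀ t ∈ S,
        finrank (ZMod 3) (KS (cw (e t) (s t) A B (Pool.Agent.Y703.XK.ext α)) (Sw (e t) (s t))) =
          r t + 1) ∧ G α).card : ℝ) / 3 ^ (prs ι).card -
        (∏ t ∈ S, gi * cf (r t)) * (((univ.filter G).card : ℝ) / 3 ^ (prs ι).card)| ≤ ε := by
  obtain ⟨E⟩ : Nonempty (Fin S.card ≃ ↥S) := ⟨S.equivFin.symm⟩
  obtain ⟨R, hR⟩ := t_LACG S.card (fun i => r (E i)) ε hε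
  refine ⟨R, ?_⟩
  intro U ι _ _ _ κ e s A B G hA hs1 hB hJ hsep hG
  have h := hR U ι κ (fun i => e (E i)) (fun i => s (E i)) A B G hA
    (fun i j hj => hs1 _ (E i).2 j hj) hB hJ
    (fun i i' hii => hsep _ (E i).2 _ (E i').2 fun h => hii (E.injective (Subtype.ext h))) hG
  have h1 : (∏ i, gi * cf (r (E i))) = ∏ t ∈ S, gi * cf (r t) := by
    rw [← Finset.prod_coe_sort S, ← E.prod_comp]
  rw [h1] at h
  have h2 : (univ.filter fun α : prs ι → ZMod 3 => (∀ t ∈ S,
        finrank (ZMod 3) (KS (cw (e t) (s t) A B (Pool.Agent.Y703.XK.ext α)) (Sw (e t) (s t))) =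
          r t + 1) ∧ G α) = univ.filter fun α : prs ι → ZMod 3 => (∀ i,
        finrank (ZMod 3) (KS (cw (e (E i)) (s (E i)) A B (Pool.Agent.Y703.XK.ext α))
          (Sw (e (E i)) (s (E i)))) = r (E i) + 1) ∧ G α := by
    refine filter_congr fun α _ => and_congr ?_ Iff.rfl
    constructor
    · exact fun h i => h _ (E i).2
    · intro h t ht
      have := h (E.symm ⟨t, ht⟩)
      rwa [E.apply_symm_apply] at this
  rw [h2]
  exact h

/-- **The law for several colours** -/
theorem t_LACV (m Mt : ℕ) (r : Fin Mt → ℕ) (ε : ℝ) (hε : 0 < ε) : ∃ R : ℕ,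
    ∀ (U ι : Type) [Fintype U] [Fintype ι] [LinearOrder ι] (col : ι → Fin m) (ld : Fin Mt → Fin m)
    (e : Fin Mt → U → ZMod 3) (s : Fin Mt → ι → ZMod 3) (A : U → U → ZMod 3) (B : U → ι → ZMod 3),
    (∀ u v, A u v = A v u) → (∀ t j, col j = ld t → s t j = 1) →
    (∀ t j, col j < ld t → s t j = 0) →
    (∀ k, ∀ w : U → ZMod 3, w ≠ 0 → ∃ j, col j = k ∧ ∑ u, w u * B u j ≠ 0) →
    (∀ k, 4 * Fintype.card U + R ≤ Fintype.card {i // col i = k}) →
    (∀ t t', t ≠ t' → ld t = ld t' → ∃ q, ¬ col q = ld t ∧ s t q ≠ s t' q) →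
    |((univ.filter fun α : prs ι → ZMod 3 => ∀ t,
        finrank (ZMod 3) (KS (cw (e t) (s t) A B (Pool.Agent.Y703.XK.ext α)) (Sw (e t) (s t))) =
          r t + 1).card : ℝ) / 3 ^ (prs ι).card - ∏ t, gi * cf (r t)| ≤ ε := by
  obtain ⟨η, hη⟩ : ∃ η : ℝ, η = ε / (m + 1) := ⟨_, rfl⟩
  have hη0 : 0 < η := by rw [hη]; positivity
  choose R hR using fun S : Finset (Fin Mt) => t_LACS S r η hη0
  refine ⟨univ.sup R, ?_⟩
  intro U ι _ _ _ col ld e s A B hA hs1 hs0 hB hJ hsep
  obtain ⟨ev, hev⟩ : ∃ ev : Fin Mt → (prs ι → ZMod 3) → Prop, ∀ t α, ev t α ↔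
      finrank (ZMod 3) (KS (cw (e t) (s t) A B (Pool.Agent.Y703.XK.ext α)) (Sw (e t) (s t))) =
        r t + 1 := ⟨_, fun _ _ => Iff.rfl⟩
  have hb : ∀ t, 0 ≤ gi * cf (r t) ∧ gi * cf (r t) ≤ 1 := fun t =>
    ⟨mul_nonneg gi_ge (cf_pos _).le, mul_le_one₀ gi_le (cf_pos _).le (cf_le_one _)⟩
  -- the induction on the leading colour
  have key : ∀ n : ℕ, n ≤ m → |((univ.filter fun α : prs ι → ZMod 3 =>
      ∀ t, m - n ≤ (ld t : ℕ) → ev t α).card : ℝ) / 3 ^ (prs ι).card -
      ∏ t ∈ univ.filter (fun t => m - n ≤ (ld t : ℕ)), gi * cf (r t)| ≤ n * η := by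
    intro n
    induction n with
    | zero =>
      intro _
      have h1 : (univ.filter fun α : prs ι → ZMod 3 => ∀ t, m - 0 ≤ (ld t : ℕ) → ev t α) = univ := by
        refine filter_true_of_mem fun α _ t ht => ?_
        have := (ld t).2
        omega
      have h2 : (univ.filter fun t => m - 0 ≤ (ld t : ℕ)) = ∅ := by
        refine filter_false_of_mem fun t _ ht => ?_
        have := (ld t).2
        omega
      rw [h1, h2, prod_empty, card_univ, Fintype.card_fun, ZMod.card, Fintype.card_coe]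
      push_cast
      rw [div_self (by positivity), sub_self, abs_zero, zero_mul]
    | succ n ih =>
      intro hn
      have ih' := ih (by omega)
      set k : Fin m := ⟨m - (n + 1), by omega⟩ with hk
      set S : Finset (Fin Mt) := univ.filter fun t => ld t = k with hS
      set G : (prs ι → ZMod 3) → Prop := fun α => ∀ t, m - n ≤ (ld t : ℕ) → ev t α with hG
      have h := hR S U ι (fun i => col i = k) e s A B G hA
        (fun t ht j hj => hs1 t j (by rw [hj]; exact (mem_filter.1 ht).2.symm)) (hB k)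
        ((Nat.add_le_add_left (le_sup (mem_univ S)) _).trans ((hJ k).trans
          (le_of_eq (@Fintype.card_congr _ _ (_) (_) (Equiv.refl _)))))
        (fun t ht t' ht' htt => by
          have e1 := (mem_filter.1 ht).2
          have e2 := (mem_filter.1 ht').2
          obtain ⟨q, hq, hq2⟩ := hsep t t' htt (e1.trans e2.symm)
          exact ⟨q, by rw [e1] at hq; exact hq, hq2⟩)
        (fun α a => by
          rw [hG]
          refine forall_congr' fun t => imp_congr_right fun ht => ?_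
          rw [hev, hev]
          have h1 : cw (e t) (s t) A B (Pool.Agent.Y703.XK.ext (rep (fun i => col i = k) α a)) =
              cw (e t) (s t) A B (Pool.Agent.Y703.XK.ext α) := by
            funext i j
            rcases i with u | i <;> rcases j with v | j
            · rfl
            · rfl
            · rfl
            · show s t i * s t j * _ = s t i * s t j * _
              by_cases hij : col i = k ∧ col j = k
              · have h2 : s t i = 0 := hs0 t i (by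
                  rw [hij.1, hk, Fin.lt_def]
                  show m - (n + 1) < _
                  omega)
                rw [h2, zero_mul, zero_mul, zero_mul]
              · rw [ext_rep_out α a hij]
          rw [h1])
      have h1 : (univ.filter fun α : prs ι → ZMod 3 =>
          ∀ t, m - (n + 1) ≤ (ld t : ℕ) → ev t α) =
          (univ.filter fun α : prs ι → ZMod 3 => (∀ t ∈ S,
            finrank (ZMod 3) (KS (cw (e t) (s t) A B (Pool.Agent.Y703.XK.ext α))
              (Sw (e t) (s t))) = r t + 1) ∧ G α) := by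
        refine filter_congr fun α _ => ?_
        constructor
        · intro h2
          refine ⟨fun t ht => (hev t α).1 (h2 t ?_), fun t ht => h2 t (by omega)⟩
          rw [(mem_filter.1 ht).2]
        · rintro ⟨h2, h3⟩ t ht
          by_cases h4 : m - n ≤ (ld t : ℕ)
          · exact h3 t h4
          · refine (hev t α).2 (h2 t (mem_filter.2 ⟨mem_univ _, ?_⟩))
            rw [hk]
            apply Fin.ext
            show (ld t : ℕ) = m - (n + 1)
            omega
      have h2 : (univ.filter fun t => m - (n + 1) ≤ (ld t : ℕ)) =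
          S ∪ univ.filter fun t => m - n ≤ (ld t : ℕ) := by
        ext t
        rw [mem_filter, mem_union, hS, mem_filter, mem_filter, hk, Fin.ext_iff]
        simp only [mem_univ, true_and]
        omega
      have h3 : Disjoint S (univ.filter fun t => m - n ≤ (ld t : ℕ)) := by
        rw [Finset.disjoint_left]
        intro t ht ht'
        have h4 := congrArg Fin.val (mem_filter.1 ht).2
        have h5 := (mem_filter.1 ht').2
        change (ld t : ℕ) = m - (n + 1) at h4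
        omega
      rw [h1, h2, prod_union h3]
      set p1 : ℝ := ∏ t ∈ S, gi * cf (r t) with hp1
      set p2 : ℝ := ∏ t ∈ univ.filter (fun t => m - n ≤ (ld t : ℕ)), gi * cf (r t) with hp2
      have hp10 : 0 ≤ p1 := prod_nonneg fun t _ => (hb t).1
      have hp11 : p1 ≤ 1 := prod_le_one (fun t _ => (hb t).1) fun t _ => (hb t).2
      set x : ℝ := ((univ.filter G).card : ℝ) / 3 ^ (prs ι).card with hx
      have hx2 : |p1 * x - p1 * p2| ≤ n * η := by
        rw [← mul_sub, abs_mul, abs_of_nonneg hp10]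
        exact (mul_le_of_le_one_left (abs_nonneg _) hp11).trans ih'
      have h' : |((univ.filter fun α : prs ι → ZMod 3 => (∀ t ∈ S,
            finrank (ZMod 3) (KS (cw (e t) (s t) A B (Pool.Agent.Y703.XK.ext α))
              (Sw (e t) (s t))) = r t + 1) ∧ G α).card : ℝ) / 3 ^ (prs ι).card - p1 * x| ≤ η := by
        rw [hx]
        convert h
      have h6 := abs_sub_le _ (p1 * x) (p1 * p2) |>.trans (add_le_add h' hx2)
      refine h6.trans (le_of_eq ?_)
      push_cast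
      ring
  have hfin := key m le_rfl
  have h1 : (univ.filter fun α : prs ι → ZMod 3 => ∀ t, m - m ≤ (ld t : ℕ) → ev t α) =
      (univ.filter fun α : prs ι → ZMod 3 => ∀ t,
        finrank (ZMod 3) (KS (cw (e t) (s t) A B (Pool.Agent.Y703.XK.ext α)) (Sw (e t) (s t))) =
          r t + 1) := by
    refine filter_congr fun α _ => forall_congr' fun t => ?_
    rw [hev]
    exact ⟨fun h => h (by omega), fun h _ => h⟩
  have h2 : (univ.filter fun t => m - m ≤ (ld t : ℕ)) = univ := by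
    refine filter_true_of_mem fun t _ => ?_
    omega
  rw [h1, h2] at hfin
  refine hfin.trans ?_
  rw [hη, mul_div_assoc', div_le_iff₀ (by positivity)]
  nlinarith

end Run7.h707.TD
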