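import Pool.Agent.Run7.h707.TD.Cls

/-! The law for the tuples of elements, general exponents -/

set_option autoImplicit false
set_option linter.unusedVariables false
set_option linter.unusedSectionVars false

open scoped Classical

namespace Run7.h707.TD

open Finset Filter
open NumberField
open Pool.Agent.Y692.QS (Ei w nr)
open Pool.Agent.Y715.T.RecG (Pq)
open Pool.Agent.Y699.E (ez nrm nrm_cast nrm_mul prm mem_ZB ZB prm_ne_zero prm_mul prm_one prm_prod)
open Pool.Agent.Y433.XK (pN pN_pos)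
open Pool.Agent.Y703.XK (c9 S_LOW SS S_EQ S_BIL sm la bl)
open Pool.Agent.Y696.CTK (Tri)
open Pool.Agent.R419.KF (wt wt_one wt_ne el el_ne el_prm el_inj cf_el ex_pair SG mem_SG)
open Pool.Agent.N883.FF (nq ClP w_pow_inj isUnit_w nr_w_mul)
open Pool.Agent.N883.FF.Den3 (CF small nq_mul nq_zero)
open Pool.Agent.XLK (ph fcc)
open Q283.T3 (gi cf)
open Run7.h707.TC (Tt mem_Tt dlt elw UC NEc uc_iff dlt_eq tt_pq eT ee Uu FamU w_red pow_prm TP mem_TP
  kyT IjT KyP YM CT CT_congr GT gt_iff nec_iff norm_key c_val cnt_eq)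

/-! ### the classes and the property `NEc` -/

theorem prm_dlt {m : ℕ} (n : Fin m → ℕ) {D : Fin m → Ei} (hD : ∀ k, prm (D k)) : prm (dlt n D) := by
  unfold dlt
  exact Finset.prod_induction _ prm (fun _ _ => prm_mul) prm_one fun k _ => pow_prm (hD k) _

theorem nq_one : nq 1 = 0 := by decide

theorem nq_pow {x : Ei} (hx : prm x) (n : ℕ) : nq (x ^ n) = n * nq x := by
  induction n with
  | zero => rw [pow_zero, nq_one, Nat.cast_zero, zero_mul]
  | succ n ih =>
    rw [pow_succ, nq_mul (pow_prm hx n) hx, ih]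
    push_cast
    ring

theorem nq_dlt {m : ℕ} (n : Fin m → ℕ) {D : Fin m → Ei} (hD : ∀ k, prm (D k)) :
    nq (dlt n D) = ∑ k, (n k : ZMod 3) * nq (D k) := by
  unfold dlt
  have h : ∀ s : Finset (Fin m), nq (∏ k ∈ s, D k ^ n k) = ∑ k ∈ s, (n k : ZMod 3) * nq (D k) := by
    intro s
    induction s using Finset.induction_on with
    | empty => rw [prod_empty, sum_empty, nq_one]
    | insert a s ha ih =>
      rw [prod_insert ha, sum_insert ha, nq_mul (pow_prm (hD a) _)
        (Finset.prod_induction _ prm (fun _ _ => prm_mul) prm_one fun k _ => pow_prm (hD k) _), ih,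
        nq_pow (hD a)]
  exact h univ

theorem dlt_ew {m : ℕ} (n : Fin m → ℕ) (p : Fin m → ZMod 3 × Ei) :
    dlt n (fun k => ew (p k)) = w ^ (∑ k, (n k : ZMod 3) * (p k).1).val * dlt n (fun k => (p k).2) := by
  unfold dlt ew
  simp only [mul_pow]
  rw [prod_mul_distrib]
  congr 1
  have h1 : ∀ k, (w ^ (p k).1.val : Ei) ^ n k = w ^ ((p k).1.val * n k) := fun k => by rw [← pow_mul]
  simp only [h1]
  rw [prod_pow_eq_pow_sum, w_red]
  congr 2
  push_cast
  refine sum_congr rfl fun k _ => ?_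
  rw [ZMod.natCast_zmod_val, mul_comm]

theorem smul_cls {m : ℕ} (n : Fin m → ℕ) (p : Fin m → ZMod 3 × Ei) :
    ∑ k, n k • cls (p k) = (∑ k, (n k : ZMod 3) * (p k).1, ∑ k, (n k : ZMod 3) * nq (p k).2) := by
  refine Prod.ext ?_ ?_
  · rw [Prod.fst_sum]
    refine sum_congr rfl fun k _ => ?_
    rw [Prod.smul_fst, nsmul_eq_mul]
    rfl
  · rw [Prod.snd_sum]
    refine sum_congr rfl fun k _ => ?_
    rw [Prod.smul_snd, nsmul_eq_mul]
    rfl

theorem nec_cls {m : ℕ} (n : Fin m → ℕ) {p : Fin m → ZMod 3 × Ei} (hp : ∀ k, prm (p k).2) :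
    NEc (dlt n fun k => ew (p k)) ↔ ¬ UC (dlt n fun k => ew (p k)) ∧
      ∑ k, n k • cls (p k) ≠ 0 := by
  unfold NEc
  refine and_congr_right fun _ => not_congr ?_
  rw [smul_cls, Prod.mk_eq_zero, ← nq_dlt n hp, nq_zero (prm_dlt n hp), dlt_ew, nr_w_mul]
  refine and_congr ?_ Iff.rfl
  have h1 : (w : Ei) ^ (∑ k, (n k : ZMod 3) * (p k).1).val * dlt n (fun k => (p k).2) - 1 =
      w ^ (∑ k, (n k : ZMod 3) * (p k).1).val * (dlt n (fun k => (p k).2) - 1) +
        (w ^ (∑ k, (n k : ZMod 3) * (p k).1).val - 1) := by ring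
  rw [h1, (dvd_add_right (Dvd.dvd.mul_left (prm_dlt n hp) _))]
  constructor
  · intro h
    exact w_pow_inj (b := 0) (by simpa using h)
  · intro h
    rw [h]
    simp

/-! ### few tuples give a unit times a cube -/

theorem uc_U {m : ℕ} {n : Fin m → ℕ} {i : Fin m → ZMod 3} {M S : Fin m → Finset Ei}
    (hM : ∀ k, M k ⊆ S k) (hS : ∀ k, ∀ q ∈ S k, Pq q) :
    UC (dlt n fun k => elw (i k) (M k) (S k)) ↔ ¬ (Uu (Tt S) (eT n M S)).Nonempty := by
  obtain ⟨c, hc, hcp, hd⟩ := dlt_eq n i hM hS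
  have h1 := uc_iff (tt_pq hS) (eT n M S) (∑ k, (n k : ZMod 3) * i k) hc
  unfold eT at h1
  rw [← hd] at h1
  exact h1

theorem uc_few {m : ℕ} (n : Fin m → ℕ) (k₀ : Fin m) (hn : (n k₀ : ZMod 3) ≠ 0) (X : ℕ) :
    ((PX m X).filter fun p => UC (dlt n fun k => ew (p k))).card ≤
      3 * (3 * (CF X).card) ^ (m - 1) := by
  set F := (PX m X).filter fun p => UC (dlt n fun k => ew (p k)) with hF
  have hmem : ∀ p ∈ F, ∀ k, (p k).2 ∈ CF X := fun p hp k =>
    (mem_product.1 (Fintype.mem_piFinset.1 (mem_filter.1 hp).1 k)).2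
  have hinj : Set.InjOn (fun p : Fin m → ZMod 3 × Ei => ((p k₀).1, Function.update p k₀ (0, 1)))
      (F : Set (Fin m → ZMod 3 × Ei)) := by
    intro p hp q hq h
    have hpF : p ∈ F := hp
    have hqF : q ∈ F := hq
    have h' : ((p k₀).1, Function.update p k₀ (0, 1)) =
        ((q k₀).1, Function.update q k₀ (0, 1)) := h
    have h1 : (p k₀).1 = (q k₀).1 := (Prod.ext_iff.1 h').1
    have h2 : ∀ k, k ≠ k₀ → p k = q k := fun k hk => by
      have := congrFun (Prod.ext_iff.1 h').2 k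
      simpa [Function.update_of_ne hk] using this
    have hex : ∀ r ∈ F, ∃ M S : Fin m → Finset Ei, ∀ k, (∀ π ∈ S k, Pq π) ∧ M k ⊆ S k ∧
        (r k).2 = el (M k) (S k) := by
      intro r hr
      choose M S hMS using fun k => ex_pair (cf_prm (hmem r hr k))
        ⟨prm_ne_zero (cf_prm (hmem r hr k)), fun x hx => (mem_CF'.1 (hmem r hr k)).2.2 x hx⟩
      exact ⟨M, S, hMS⟩
    obtain ⟨M, S, hMS⟩ := hex p hpF
    obtain ⟨M', S', hMS'⟩ := hex q hqF
    have hz : ∀ r ∈ F, ∀ M S : Fin m → Finset Ei, (∀ k, (∀ π ∈ S k, Pq π) ∧ M k ⊆ S k ∧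
        (r k).2 = el (M k) (S k)) → ∀ π, eT n M S π = 0 := by
      intro r hr M S hMS π
      have hu := (mem_filter.1 hr).2
      have e : (fun k => ew (r k)) = fun k => elw (r k).1 (M k) (S k) := by
        funext k
        unfold ew elw
        rw [(hMS k).2.2]
      rw [e, uc_U (fun k => (hMS k).2.1) (fun k => (hMS k).1), not_nonempty_iff_eq_empty] at hu
      by_contra hne
      by_cases hT : π ∈ Tt S
      · have : π ∈ Uu (Tt S) (eT n M S) := mem_filter.2 ⟨hT, hne⟩
        rw [hu] at this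
        exact notMem_empty _ this
      · apply hne
        unfold eT ee
        refine Finset.sum_eq_zero fun k _ => ?_
        rw [if_neg (fun h => hT (mem_Tt.2 ⟨k, h⟩)), mul_zero]
    have hsum : ∀ M S : Fin m → Finset Ei, ∀ π, eT n M S π =
        (n k₀ : ZMod 3) * (if π ∈ S k₀ then wt (M k₀) π else 0) +
          ∑ k ∈ univ.erase k₀, (n k : ZMod 3) * (if π ∈ S k then wt (M k) π else 0) := by
      intro M S π
      unfold eT ee
      rw [← Finset.add_sum_erase univ _ (mem_univ k₀)]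
    have h3 : ∀ k, k ≠ k₀ → M k = M' k ∧ S k = S' k := fun k hk => by
      refine el_inj (hMS k).1 (hMS k).2.1 (hMS' k).1 (hMS' k).2.1 ?_
      rw [← (hMS k).2.2, ← (hMS' k).2.2, h2 k hk]
    have h4 : ∀ π, (if π ∈ S k₀ then wt (M k₀) π else 0) =
        (if π ∈ S' k₀ then wt (M' k₀) π else 0) := by
      intro π
      have a1 := hz p hpF M S hMS π
      have a2 := hz q hqF M' S' hMS' π
      rw [hsum] at a1 a2
      have a3 : ∑ l ∈ univ.erase k₀, (n l : ZMod 3) * (if π ∈ S l then wt (M l) π else 0) =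
          ∑ l ∈ univ.erase k₀, (n l : ZMod 3) * (if π ∈ S' l then wt (M' l) π else 0) :=
        Finset.sum_congr rfl fun l hl => by
          rw [(h3 l (ne_of_mem_erase hl)).1, (h3 l (ne_of_mem_erase hl)).2]
      rw [a3] at a1
      exact mul_left_cancel₀ hn (by linear_combination a1 - a2)
    have h5 : S k₀ = S' k₀ := by
      ext π
      have := h4 π
      constructor
      · intro h
        by_contra h'
        rw [if_pos h, if_neg h'] at this
        exact wt_ne _ _ this
      · intro h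
        by_contra h'
        rw [if_neg h', if_pos h] at this
        exact wt_ne _ _ this.symm
    have h6 : M k₀ = M' k₀ := by
      ext π
      have := h4 π
      constructor
      · intro h
        have hs : π ∈ S k₀ := (hMS k₀).2.1 h
        rw [if_pos hs, if_pos (h5 ▸ hs)] at this
        unfold wt at this
        rw [if_pos h] at this
        by_contra h'
        rw [if_neg h'] at this
        exact absurd this (by decide)
      · intro h
        have hs : π ∈ S' k₀ := (hMS' k₀).2.1 h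
        rw [if_pos hs, if_pos (h5 ▸ hs)] at this
        unfold wt at this
        rw [if_pos h] at this
        by_contra h'
        rw [if_neg h'] at this
        exact absurd this (by decide)
    funext k
    by_cases hk : k = k₀
    · rw [hk]
      refine Prod.ext h1 ?_
      rw [(hMS k₀).2.2, (hMS' k₀).2.2, h5, h6]
    · exact h2 k hk
  rw [← card_image_of_injOn hinj]
  have hsub : F.image (fun p : Fin m → ZMod 3 × Ei => ((p k₀).1, Function.update p k₀ (0, 1))) ⊆
      (univ : Finset (ZMod 3)) ×ˢ Fintype.piFinset fun k =>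
        if k = k₀ then {((0 : ZMod 3), (1 : Ei))} else (univ : Finset (ZMod 3)) ×ˢ CF X := by
    intro x hx
    rw [mem_image] at hx
    obtain ⟨p, hp, rfl⟩ := hx
    rw [mem_product, Fintype.mem_piFinset]
    refine ⟨mem_univ _, fun k => ?_⟩
    by_cases hk : k = k₀
    · rw [if_pos hk, hk]
      simp
    · rw [if_neg hk]
      simp only [Function.update_of_ne hk]
      exact Fintype.mem_piFinset.1 (mem_filter.1 hp).1 k
  refine (card_le_card hsub).trans ?_
  rw [card_product, card_univ, ZMod.card, Fintype.card_piFinset]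
  refine Nat.mul_le_mul_left _ ?_
  rw [← Finset.mul_prod_erase univ _ (mem_univ k₀), if_pos rfl, card_singleton, one_mul]
  have : ∀ k ∈ univ.erase k₀, (if k = k₀ then {((0 : ZMod 3), (1 : Ei))} else
      (univ : Finset (ZMod 3)) ×ˢ CF X).card = 3 * (CF X).card := fun k hk => by
    rw [if_neg (ne_of_mem_erase hk), card_product, card_univ, ZMod.card]
  rw [prod_congr rfl this, prod_const, card_erase_of_mem (mem_univ _), card_univ, Fintype.card_fin]

/-! ### the property only depends on the key -/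

theorem supp_iff' {m : ℕ} {n : Fin m → ℕ} {M S : Fin m → Finset Ei} {z H : ℕ}
    (hMz : ∀ k, ∀ q ∈ M k, nrm q ≤ z) (hj : IjT z H S) :
    (Uu (Tt S) (eT n M S)).Nonempty ↔ (∃ k, (n k : ZMod 3) ≠ 0 ∧ (la z (S k)).Nonempty) ∨
      (Uu (Tt fun k => sm z (S k)) (eT n M fun k => sm z (S k))).Nonempty := by
  have hsm : ∀ π : Ei, nrm π ≤ z → eT n M (fun k => sm z (S k)) π = eT n M S π := by
    intro π hπ
    unfold eT ee
    refine Finset.sum_congr rfl fun k _ => ?_
    congr 1
    refine if_congr ?_ rfl rfl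
    unfold sm
    rw [mem_filter]
    exact ⟨fun h => h.1, fun h => ⟨h, hπ⟩⟩
  have hla : ∀ (k : Fin m) (π : Ei), π ∈ la z (S k) → eT n M S π = n k := by
    intro k π hπ
    have h1 := mem_filter.1 hπ
    unfold eT ee
    rw [Finset.sum_eq_single k]
    · rw [if_pos h1.1, wt_one (fun h => h1.2 (hMz k π h)), mul_one]
    · intro l _ hl
      rw [if_neg, mul_zero]
      intro hπl
      exact hl (hj l k π (mem_filter.2 ⟨hπl, h1.2⟩) π hπ rfl).1
    · intro h
      exact absurd (mem_univ _) h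
  constructor
  · rintro ⟨π, hπ⟩
    obtain ⟨h1, h2⟩ := mem_filter.1 hπ
    obtain ⟨k, hk⟩ := mem_Tt.1 h1
    by_cases hz : nrm π ≤ z
    · right
      refine ⟨π, mem_filter.2 ⟨mem_Tt.2 ⟨k, ?_⟩, ?_⟩⟩
      · exact mem_filter.2 ⟨hk, hz⟩
      · rw [hsm π hz]
        exact h2
    · left
      have h3 : π ∈ la z (S k) := mem_filter.2 ⟨hk, hz⟩
      exact ⟨k, by rw [← hla k π h3]; exact h2, π, h3⟩
  · rintro (⟨k, hk0, π, hπ⟩ | ⟨π, hπ⟩)
    · have h1 := mem_filter.1 hπ
      refine ⟨π, mem_filter.2 ⟨mem_Tt.2 ⟨k, h1.1⟩, ?_⟩⟩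
      rw [hla k π hπ]
      exact hk0
    · obtain ⟨h1, h2⟩ := mem_filter.1 hπ
      obtain ⟨k, hk⟩ := mem_Tt.1 h1
      have hk' := mem_filter.1 hk
      refine ⟨π, mem_filter.2 ⟨mem_Tt.2 ⟨k, hk'.1⟩, ?_⟩⟩
      rw [← hsm π hk'.2]
      exact h2

theorem kyp_nec' {m Mt : ℕ} (n : Fin Mt → Fin m → ℕ)
    (i : Fin m → ZMod 3) (M : Fin m → Finset Ei) :
    KyP M fun S => ∀ t, NEc (dlt (n t) fun k => elw (i k) (M k) (S k)) := by
  intro z H hH hMz S S' hS hS' hM hM' hj hj' hk
  refine forall_congr' fun t => ?_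
  rw [nec_iff hM hS, nec_iff hM' hS', supp_iff' hMz hj, supp_iff' hMz hj']
  have hsm : (fun k => sm z (S k)) = fun k => sm z (S' k) :=
    funext fun k => congrArg Prod.fst (congrFun hk k)
  have h1 : (∃ k, (n t k : ZMod 3) ≠ 0 ∧ (la z (S k)).Nonempty) ↔
      ∃ k, (n t k : ZMod 3) ≠ 0 ∧ (la z (S' k)).Nonempty := by
    refine exists_congr fun k => and_congr_right fun _ => ?_
    have h2 : (la z (S k)).image (ph H) = (la z (S' k)).image (ph H) :=
      congrArg Prod.snd (congrFun hk k)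
    rw [← image_nonempty (f := ph H) (s := la z (S k)), h2, image_nonempty]
  have h2 : (∏ k, ((∏ π ∈ S k, nrm π) * ∏ π ∈ M k, nrm π) ^ n t k) % 9 =
      (∏ k, ((∏ π ∈ S' k, nrm π) * ∏ π ∈ M k, nrm π) ^ n t k) % 9 := by
    rw [Finset.prod_nat_mod]
    conv_rhs => rw [Finset.prod_nat_mod]
    congr 1
    refine Finset.prod_congr rfl fun k _ => ?_
    rw [Nat.pow_mod, Nat.mul_mod, norm_key hj hj' hk k, ← Nat.mul_mod, ← Nat.pow_mod]
  rw [h1, h2, hsm]

/-! ### the number of the tuples -/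

section
variable {m Mt : ℕ} (n : Fin Mt → Fin m → ℕ)

/-- the number of all the tuples -/
noncomputable def AT (m X : ℕ) : ℕ :=
  {a : Fin m → Ei | ∀ k, nr (a k) ≤ X ∧ FamU (a k)}.ncard

theorem AT_eq (m X : ℕ) : AT m X = (3 * (CF X).card) ^ m := by
  have h := cnt_ew m X fun _ => True
  simp only [and_true, filter_true] at h
  unfold AT
  rw [h, card_PX]

/-- the proportion of the classes -/
noncomputable def kap9 : ℝ :=
  ((univ.filter fun u : Fin m → ZMod 3 × ZMod 3 => ∀ t, ∑ k, n t k • u k ≠ 0).card : ℝ) / 9 ^ m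

theorem cls_lim (P : (Fin m → ZMod 3 × ZMod 3) → Prop) :
    Tendsto (fun X : ℕ => (((PX m X).filter fun p => P fun k => cls (p k)).card : ℝ) /
      (AT m X : ℝ)) atTop (nhds (((univ.filter P).card : ℝ) / 9 ^ m)) := by
  have h1 : ∀ X : ℕ, (((PX m X).filter fun p => P fun k => cls (p k)).card : ℝ) / (AT m X : ℝ) =
      ∑ u ∈ univ.filter P, ∏ k, ((((CF X).filter fun D => nq D = (u k).2).card : ℝ) /
        ((CF X).card : ℝ) * (1 / 3)) := by
    intro X
    rw [card_cls, AT_eq]
    push_cast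
    rw [sum_div]
    refine sum_congr rfl fun u _ => ?_
    rw [prod_mul_distrib, prod_div_distrib, prod_const, prod_const, card_univ, Fintype.card_fin]
    rw [mul_pow]
    field_simp
    have h3 : (3 : ℝ) ^ m * (1 / 3) ^ m = 1 := by
      rw [← mul_pow]
      norm_num
    rw [mul_assoc, h3, mul_one]
  have h2 : ((univ.filter P).card : ℝ) / 9 ^ m = ∑ _u ∈ univ.filter P,
      ∏ _k : Fin m, ((1 / 3 : ℝ) * (1 / 3)) := by
    rw [sum_const, prod_const, card_univ, Fintype.card_fin, nsmul_eq_mul, div_eq_mul_inv]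
    congr 1
    rw [← inv_pow]
    norm_num
  simp only [h1]
  rw [h2]
  refine tendsto_finsetSum _ fun u _ => ?_
  exact tendsto_finsetProd _ fun k _ => (equi (u k).2).mul_const _

theorem AT_low : ∃ (c : ℝ) (X₀ : ℕ), 0 < c ∧ ∀ X : ℕ, X₀ ≤ X → c * (X : ℝ) ^ m ≤ (AT m X : ℝ) := by
  obtain ⟨c, X₀, hc, h⟩ := cf_low
  refine ⟨c ^ m, X₀, by positivity, fun X hX => ?_⟩
  rw [AT_eq, ← mul_pow]
  push_cast
  have h1 := h X hX
  have h2 : (0 : ℝ) ≤ X := Nat.cast_nonneg _
  refine pow_le_pow_left₀ (by positivity) ?_ m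
  have h3 : (0 : ℝ) ≤ c * X := by positivity
  linarith

theorem uc_lim (hn : ∀ t, ∃ k, (n t k : ZMod 3) ≠ 0) :
    Tendsto (fun X : ℕ => (((PX m X).filter fun p => ∃ t, UC (dlt (n t) fun k => ew (p k))).card : ℝ) /
      (AT m X : ℝ)) atTop (nhds 0) := by
  obtain ⟨c, X₀, hc, hlow⟩ := cf_low
  have hb : ∀ᶠ X : ℕ in atTop,
      (((PX m X).filter fun p => ∃ t, UC (dlt (n t) fun k => ew (p k))).card : ℝ) /
      (AT m X : ℝ) ≤ (Mt / c) * (1 / (X : ℝ)) := by
    filter_upwards [eventually_ge_atTop (max X₀ 1)] with X hX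
    have hX0 : X₀ ≤ X := (le_max_left _ _).trans hX
    have hX1 : 1 ≤ X := (le_max_right _ _).trans hX
    have hXr : (0 : ℝ) < X := by exact_mod_cast hX1
    have hl := hlow X hX0
    have hF : (0 : ℝ) < ((CF X).card : ℝ) := lt_of_lt_of_le (by positivity) hl
    rcases Nat.eq_zero_or_pos Mt with h0 | h0
    · subst h0
      have : (PX m X).filter (fun p => ∃ t : Fin 0, UC (dlt (n t) fun k => ew (p k))) = ∅ := by
        rw [filter_eq_empty_iff]
        rintro p - ⟨t, -⟩
        exact t.elim0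
      rw [this]
      simp
    · obtain ⟨k₀, -⟩ := hn ⟨0, h0⟩
      have hm : m - 1 + 1 = m := by have := k₀.2; omega
      have h1 : (((PX m X).filter fun p => ∃ t, UC (dlt (n t) fun k => ew (p k))).card : ℝ) ≤
          Mt * (3 * (3 * ((CF X).card : ℝ)) ^ (m - 1)) := by
        have h2 : ((PX m X).filter fun p => ∃ t, UC (dlt (n t) fun k => ew (p k))) ⊆
            univ.biUnion fun t => (PX m X).filter fun p => UC (dlt (n t) fun k => ew (p k)) := by
          intro p hp
          obtain ⟨h3, t, ht⟩ := mem_filter.1 hp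
          exact mem_biUnion.2 ⟨t, mem_univ _, mem_filter.2 ⟨h3, ht⟩⟩
        calc _ ≤ ∑ t : Fin Mt, (((PX m X).filter fun p =>
              UC (dlt (n t) fun k => ew (p k))).card : ℝ) := by
              exact_mod_cast (card_le_card h2).trans card_biUnion_le
          _ ≤ ∑ _t : Fin Mt, (3 * (3 * ((CF X).card : ℝ)) ^ (m - 1)) := by
              refine sum_le_sum fun t _ => ?_
              obtain ⟨k, hk⟩ := hn t
              exact_mod_cast uc_few (n t) k hk X
          _ = _ := by rw [sum_const, card_univ, Fintype.card_fin, nsmul_eq_mul]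
      rw [AT_eq]
      push_cast
      rw [div_le_iff₀ (by positivity)]
      refine h1.trans ?_
      have h3 : (3 * ((CF X).card : ℝ)) ^ m = (3 * ((CF X).card : ℝ)) ^ (m - 1) *
          (3 * ((CF X).card : ℝ)) := by
        conv_lhs => rw [← hm]
        rw [pow_succ]
      rw [h3]
      have h4 : 1 ≤ ((CF X).card : ℝ) * (1 / (c * X)) := by
        rw [mul_one_div, le_div_iff₀ (by positivity), one_mul]
        exact hl
      calc (Mt : ℝ) * (3 * (3 * ((CF X).card : ℝ)) ^ (m - 1)) =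
          (Mt * (3 * (3 * ((CF X).card : ℝ)) ^ (m - 1))) * 1 := by ring
        _ ≤ (Mt * (3 * (3 * ((CF X).card : ℝ)) ^ (m - 1))) * (((CF X).card : ℝ) *
            (1 / (c * X))) := mul_le_mul_of_nonneg_left h4 (by positivity)
        _ = _ := by
          field_simp
  have hlim : Tendsto (fun X : ℕ => ((Mt : ℝ) / c) * (1 / (X : ℝ))) atTop (nhds 0) := by
    have := (tendsto_one_div_atTop_nhds_zero_nat (𝕜 := ℝ)).const_mul ((Mt : ℝ) / c)
    rwa [mul_zero] at this
  refine tendsto_of_tendsto_of_tendsto_of_le_of_le' tendsto_const_nhds hlim ?_ hb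
  exact Eventually.of_forall fun X => by positivity

/-- the number of the tuples without exceptional `δ` -/
noncomputable def NV (X : ℕ) : ℕ :=
  {a : Fin m → Ei | (∀ k, nr (a k) ≤ X ∧ FamU (a k)) ∧ ∀ t, NEc (dlt (n t) a)}.ncard

theorem NV_eq (X : ℕ) : NV n X = ∑ i : Fin m → ZMod 3,
    CT (fun M S => ∀ t, NEc (dlt (n t) fun k => elw (i k) (M k) (S k))) X :=
  cnt_eq m X fun a => ∀ t, NEc (dlt (n t) a)

/-- the proportion of the tuples without exceptional `δ` -/
theorem NV_lim (hn : ∀ t, ∃ k, (n t k : ZMod 3) ≠ 0) :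
    Tendsto (fun X : ℕ => (NV n X : ℝ) / (AT m X : ℝ)) atTop (nhds (kap9 n)) := by
  have h1 : Tendsto (fun X : ℕ => (((PX m X).filter fun p => ∀ t,
      ∑ k, n t k • cls (p k) ≠ 0).card : ℝ) / (AT m X : ℝ)) atTop (nhds (kap9 n)) := by
    obtain ⟨P, hP⟩ : ∃ P : (Fin m → ZMod 3 × ZMod 3) → Prop,
      ∀ u, P u ↔ ∀ t, ∑ k, n t k • u k ≠ 0 := ⟨_, fun _ => Iff.rfl⟩
    have h := cls_lim (m := m) P
    have e1 : kap9 n = ((univ.filter P).card : ℝ) / 9 ^ m := by
      unfold kap9
      congr 2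
      exact fcc fun u _ => (hP u).symm
    rw [e1]
    refine h.congr fun X => ?_
    congr 2
    exact fcc fun p _ => hP _
  have h2 := uc_lim n hn
  have h3 := h1.sub h2
  rw [sub_zero] at h3
  refine tendsto_of_tendsto_of_tendsto_of_le_of_le h3 h1 (fun X => ?_) fun X => ?_
  · show _ - _ ≤ _
    rw [← sub_div]
    refine div_le_div_of_nonneg_right ?_ (Nat.cast_nonneg _)
    rw [sub_le_iff_le_add]
    unfold NV
    rw [cnt_ew m X fun a => ∀ t, NEc (dlt (n t) a)]
    have h4 : ((PX m X).filter fun p => ∀ t, ∑ k, n t k • cls (p k) ≠ 0) ⊆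
        ((PX m X).filter fun p => ∀ t, NEc (dlt (n t) fun k => ew (p k))) ∪
        ((PX m X).filter fun p => ∃ t, UC (dlt (n t) fun k => ew (p k))) := by
      intro p hp
      obtain ⟨h5, h6⟩ := mem_filter.1 hp
      have h7 : ∀ k, prm (p k).2 := fun k =>
        cf_prm (mem_product.1 (Fintype.mem_piFinset.1 h5 k)).2
      by_cases h8 : ∃ t, UC (dlt (n t) fun k => ew (p k))
      · exact mem_union_right _ (mem_filter.2 ⟨h5, h8⟩)
      · refine mem_union_left _ (mem_filter.2 ⟨h5, fun t => (nec_cls (n t) h7).2 ⟨?_, h6 t⟩⟩)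
        exact fun h9 => h8 ⟨t, h9⟩
    have h10 := Nat.cast_le (α := ℝ).2 ((card_le_card h4).trans (card_union_le _ _))
    rw [Nat.cast_add] at h10
    refine (Eq.le ?_).trans (h10.trans (Eq.le ?_))
    · exact congrArg Nat.cast (fcc fun _ _ => Iff.rfl)
    · exact congrArg₂ (· + ·) (congrArg Nat.cast (fcc fun _ _ => Iff.rfl))
        (congrArg Nat.cast (fcc fun _ _ => Iff.rfl))
  · refine div_le_div_of_nonneg_right ?_ (Nat.cast_nonneg _)
    unfold NV
    rw [cnt_ew m X fun a => ∀ t, NEc (dlt (n t) a)]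
    have h4 : ((PX m X).filter fun p => ∀ t, NEc (dlt (n t) fun k => ew (p k))) ⊆
        ((PX m X).filter fun p => ∀ t, ∑ k, n t k • cls (p k) ≠ 0) := by
      intro p hp
      obtain ⟨h5, h6⟩ := mem_filter.1 hp
      have h7 : ∀ k, prm (p k).2 := fun k =>
        cf_prm (mem_product.1 (Fintype.mem_piFinset.1 h5 k)).2
      exact mem_filter.2 ⟨h5, fun t => ((nec_cls (n t) h7).1 (h6 t)).2⟩
    refine (Eq.le ?_).trans ((Nat.cast_le (α := ℝ).2 (card_le_card h4)).trans (Eq.le ?_))
    · exact congrArg Nat.cast (fcc fun _ _ => Iff.rfl)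
    · exact congrArg Nat.cast (fcc fun _ _ => Iff.rfl)

/-- **The law for all the tuples.** -/
theorem lawV {K : Type} [Field K] [NumberField K] (j : Ei ≃+* 𝓞 K)
    (hn : ∀ t, ∃ k, (n t k : ZMod 3) ≠ 0)
    (hsep : ∀ t t', t ≠ t' → (∃ k, (n t k : ZMod 3) ≠ n t' k) ∧
      ∃ k, (n t k : ZMod 3) ≠ - (n t' k : ZMod 3)) :
    Tendsto (fun X : ℕ => ({a : Fin m → Ei | (∀ k, nr (a k) ≤ X ∧ FamU (a k)) ∧
      (∀ t, NEc (dlt (n t) a)) ∧ ∀ t, Tri (j (dlt (n t) a))}.ncard : ℝ) / (AT m X : ℝ)) atTop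
      (nhds (kap9 n * c9 ^ Mt)) := by
  have hg : (∏ _t : Fin Mt, gi * cf 0) = c9 ^ Mt := by
    rw [prod_const, card_univ, Fintype.card_fin, c_val]
  obtain ⟨c, X₀, hc, hlow⟩ := AT_low (m := m)
  -- the errors
  have hlim : Tendsto (fun X : ℕ => ({a : Fin m → Ei | (∀ k, nr (a k) ≤ X ∧ FamU (a k)) ∧
      (∀ t, NEc (dlt (n t) a)) ∧ ∀ t, Tri (j (dlt (n t) a))}.ncard : ℝ) / (AT m X : ℝ) -
      c9 ^ Mt * ((NV n X : ℝ) / (AT m X : ℝ))) atTop (nhds 0) := by
    rcases Nat.eq_zero_or_pos Mt with h0 | h0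
    · subst h0
      have : ∀ X : ℕ, ({a : Fin m → Ei | (∀ k, nr (a k) ≤ X ∧ FamU (a k)) ∧
          (∀ t, NEc (dlt (n t) a)) ∧ ∀ t, Tri (j (dlt (n t) a))}.ncard : ℝ) = NV n X := by
        intro X
        unfold NV
        congr 2
        ext a
        simp
      simp only [this, pow_zero, one_mul, sub_self]
      exact tendsto_const_nhds
    · have hm1 : 1 ≤ m := by
        obtain ⟨k, -⟩ := hn ⟨0, h0⟩
        have := k.2
        omega
      -- the leading indices
      have hex : ∀ t, ∃ l, (n t l : ZMod 3) ≠ 0 ∧ ∀ k, k < l → (n t k : ZMod 3) = 0 := by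
        intro t
        have hne : (univ.filter fun k => (n t k : ZMod 3) ≠ 0).Nonempty := by
          obtain ⟨k, hk⟩ := hn t
          exact ⟨k, mem_filter.2 ⟨mem_univ _, hk⟩⟩
        refine ⟨(univ.filter fun k => (n t k : ZMod 3) ≠ 0).min' hne,
          (mem_filter.1 (min'_mem _ hne)).2, fun k hk => ?_⟩
        by_contra h
        exact absurd hk (not_lt.2 (min'_le _ k (mem_filter.2 ⟨mem_univ _, h⟩)))
      choose ld hld hld0 using hex
      have hsep' : ∀ t t', t ≠ t' → ld t = ld t' →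
          ∃ k, (n t k : ZMod 3) * (n t (ld t) : ZMod 3) ≠ (n t' k : ZMod 3) * (n t' (ld t') : ZMod 3) := by
        intro t t' htt hl
        obtain ⟨⟨k1, hk1⟩, ⟨k2, hk2⟩⟩ := hsep t t' htt
        by_contra hall
        push Not at hall
        have ha := hld t
        have hb := hld t'
        set x : ZMod 3 := (n t (ld t) : ZMod 3) with hx
        set y : ZMod 3 := (n t' (ld t') : ZMod 3) with hy
        have hcase : ∀ x y : ZMod 3, x ≠ 0 → y ≠ 0 → x = y ∨ x = -y := by decide
        rcases hcase x y ha hb with h | h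
        · apply hk1
          have := hall k1
          rw [h] at this
          exact mul_right_cancel₀ hb this
        · apply hk2
          have := hall k2
          rw [h] at this
          have h2 : (-(n t k2 : ZMod 3)) * y = (n t' k2 : ZMod 3) * y := by
            rw [← this]
            ring
          have h3 := mul_right_cancel₀ hb h2
          rw [← h3, neg_neg]
      rw [Metric.tendsto_nhds]
      intro ε hε
      have herr : ∀ i : Fin m → ZMod 3, ∀ᶠ X : ℕ in atTop,
          |(CT (fun M S => (∀ t, NEc (dlt (n t) fun k => elw (i k) (M k) (S k))) ∧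
            GT M (fun t k => (n t k : ZMod 3)) (fun t => ∑ k, (n t k : ZMod 3) * i k)
              (fun _ => 0) S) X : ℝ) -
            c9 ^ Mt * (CT (fun M S => ∀ t, NEc (dlt (n t) fun k => elw (i k) (M k) (S k))) X : ℝ)| ≤
          (c * ε / (2 * 3 ^ m)) * (X : ℝ) ^ m := by
        intro i
        have h := errV Pool.Agent.Y363.XK.t_BIL Pool.Agent.Y710.XK.t_EQ hm1
          (fun t k => (n t k : ZMod 3)) ld hld hld0 hsep' (fun t => ∑ k, (n t k : ZMod 3) * i k)
          (fun _ => 0)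
          (fun M S => ∀ t, NEc (dlt (n t) fun k => elw (i k) (M k) (S k)))
          (fun M => kyp_nec' n i M) (c * ε / (2 * 3 ^ m)) (by positivity)
        rw [hg] at h
        exact h
      filter_upwards [eventually_all.2 herr, eventually_ge_atTop (max X₀ 1)] with X hX hX0
      have hlo := hlow X ((le_max_left _ _).trans hX0)
      have hX1 : (0 : ℝ) < X := by exact_mod_cast (le_max_right _ _).trans hX0
      have hN : (0 : ℝ) < AT m X := lt_of_lt_of_le (by positivity) hlo
      have e1 : {a : Fin m → Ei | (∀ k, nr (a k) ≤ X ∧ FamU (a k)) ∧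
          (∀ t, NEc (dlt (n t) a)) ∧ ∀ t, Tri (j (dlt (n t) a))}.ncard =
          ∑ i : Fin m → ZMod 3,
            CT (fun M S => (∀ t, NEc (dlt (n t) fun k => elw (i k) (M k) (S k))) ∧
            GT M (fun t k => (n t k : ZMod 3)) (fun t => ∑ k, (n t k : ZMod 3) * i k)
              (fun _ => 0) S) X := by
        rw [cnt_eq m X fun a => (∀ t, NEc (dlt (n t) a)) ∧ ∀ t, Tri (j (dlt (n t) a))]
        refine Finset.sum_congr rfl fun i _ => ?_
        refine CT_congr fun M S hS => ?_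
        rw [mem_TP] at hS
        refine and_congr_right fun hne => ?_
        exact (gt_iff j n i (fun k => (hS k).2.2) (fun k => (hS k).1) hne).symm
      rw [Real.dist_eq, sub_zero]
      have e3 : ({a : Fin m → Ei | (∀ k, nr (a k) ≤ X ∧ FamU (a k)) ∧
          (∀ t, NEc (dlt (n t) a)) ∧ ∀ t, Tri (j (dlt (n t) a))}.ncard : ℝ) / (AT m X : ℝ) -
          c9 ^ Mt * ((NV n X : ℝ) / (AT m X : ℝ)) =
          (({a : Fin m → Ei | (∀ k, nr (a k) ≤ X ∧ FamU (a k)) ∧
          (∀ t, NEc (dlt (n t) a)) ∧ ∀ t, Tri (j (dlt (n t) a))}.ncard : ℝ) -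
            c9 ^ Mt * (NV n X : ℝ)) / (AT m X : ℝ) := by
        field_simp
      rw [e3, abs_div, abs_of_pos hN, div_lt_iff₀ hN, e1, NV_eq]
      push_cast
      rw [Finset.mul_sum, ← Finset.sum_sub_distrib]
      refine lt_of_le_of_lt ((Finset.abs_sum_le_sum_abs _ _).trans
        (Finset.sum_le_sum fun i _ => hX i)) ?_
      rw [Finset.sum_const, Finset.card_univ, Fintype.card_fun, ZMod.card, Fintype.card_fin,
        nsmul_eq_mul]
      push_cast
      have e4 : (3 : ℝ) ^ m * (c * ε / (2 * 3 ^ m) * (X : ℝ) ^ m) =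
          ε / 2 * (c * (X : ℝ) ^ m) := by
        field_simp
      rw [e4]
      calc ε / 2 * (c * (X : ℝ) ^ m) ≤ ε / 2 * (AT m X : ℝ) := by gcongr
        _ < ε * (AT m X : ℝ) := by
          apply mul_lt_mul_of_pos_right _ hN
          linarith
  have h1 := hlim.add ((NV_lim n hn).const_mul (c9 ^ Mt))
  rw [zero_add, mul_comm (c9 ^ Mt) (kap9 n)] at h1
  refine h1.congr fun X => ?_
  ring

end

end Run7.h707.TD
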