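import Pool.Agent.Run7.h707.TC.LAC

/-! Laplacians with weights that may vanish: the relations between the rows; the number of the types -/

set_option autoImplicit false
set_option linter.unusedSectionVars false

open scoped Classical

namespace Run7.h707.TD

open Finset Module
open Q283.T3 hiding est thmR
open Pool.Agent.Y703.XK (prs)
open Run7.h707.TC

section rel
variable {ι : Type} [Fintype ι] [LinearOrder ι]

theorem rl_zero {κ : ι → Prop} {s x : ι → ZMod 3} {i : ι} (h : s i = 0) (α : prs ι → ZMod 3) :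
    rl κ s x i α = 0 := by
  rw [rl_apply]
  refine sum_eq_zero fun j _ => ?_
  rw [h, zero_mul, zero_mul, zero_mul]

/-- the relations when `x` is constant on `κ`, and not constant on the support -/
theorem rel_const' {κ : ι → Prop} {s x ζ : ι → ZMod 3} {j : ι} (hsj : s j ≠ 0)
    (hx : ∀ i, κ i → x i = x j) {q : ι} (hsq : s q ≠ 0) (hq : x q ≠ x j)
    (h : ∀ α, ∑ i, ζ i * rl κ s x i α = 0) (i : ι) (hi : s i ≠ 0) : ζ i = ζ j := by
  have hκq : ¬ κ q := fun h => hq (hx q h)
  have key : ∀ a b, s a ≠ 0 → s b ≠ 0 → ¬ (κ a ∧ κ b) → x a ≠ x b → ζ a = ζ b := by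
    intro a b ha hb hκ hne
    have h1 := rel_pt1 h (fun e => hne (by rw [e])) hκ
    unfold pt at h1
    have h2 := (mul_eq_zero.1 h1).resolve_left
      (mul_ne_zero (mul_ne_zero ha hb) (sub_ne_zero.2 hne.symm))
    exact sub_eq_zero.1 h2
  have hqj : ζ q = ζ j := key q j hsq hsj (fun e => hκq e.1) hq
  by_cases h1 : x i = x q
  · exact key i j hi hsj (fun e => hq (by rw [← h1, hx i e.1])) (by rw [h1]; exact hq)
  · rw [key i q hi hsq (fun e => hκq e.2) h1, hqj]

end rel

section nz
variable {ι : Type} [Fintype ι]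

/-- the number of the outer vertices with and without weight -/
theorem card_nz (κ : ι → Prop) (s : ι → ZMod 3) :
    Fintype.card {q : {i // ¬ κ i} // s q ≠ 0} + Fintype.card {q : {i // ¬ κ i} // ¬ s q ≠ 0} =
      Fintype.card {i // ¬ κ i} := by
  have h1 := Fintype.card_subtype_compl fun q : {i // ¬ κ i} => s q ≠ 0
  have h2 := Fintype.card_subtype_le fun q : {i // ¬ κ i} => s q ≠ 0
  omega

end nz

/-! ### the types of the vertices -/

/-- the relation between the types in a class -/
def Rq (c : ZMod 3 × ZMod 3) (v w : Fin 4 → ZMod 3) : Prop :=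
  (c.1 = 0 → v 0 = 0) ∧ (c.2 = 0 → v 2 = 0) ∧ (c.1 = 0 → w 0 = 0) ∧ (c.2 = 0 → w 2 = 0) ∧
    c.1 * c.1 * ((v 0 - w 0) * (v 1 - w 1)) - c.2 * c.2 * ((v 2 - w 2) * (v 3 - w 3)) = 0

theorem card_le9 (S : Finset (Fin 4 → ZMod 3)) (f : (Fin 4 → ZMod 3) → ZMod 3 × ZMod 3)
    (h : ∀ v ∈ S, ∀ w ∈ S, f v = f w → v = w) : S.card ≤ 9 := by
  have h1 : S.card ≤ (univ : Finset (ZMod 3 × ZMod 3)).card :=
    card_le_card_of_injOn f (fun _ _ => mem_coe.2 (mem_univ _)) fun v hv w hw e => h v hv w hw e
  exact h1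

theorem cliqueG (c : ZMod 3 × ZMod 3) (S : Finset (Fin 4 → ZMod 3))
    (h : ∀ v ∈ S, ∀ w ∈ S, Rq c v w) : S.card ≤ 9 := by
  obtain ⟨a, b⟩ := c
  by_cases ha : a = 0
  · subst ha
    by_cases hb : b = 0
    · subst hb
      refine card_le9 S (fun v => (v 1, v 3)) fun v hv w hw e => ?_
      obtain ⟨h1, h2, h3, h4, -⟩ := h v hv w hw
      have e1 := congrArg Prod.fst e
      have e2 := congrArg Prod.snd e
      funext i
      fin_cases i
      · exact (h1 rfl).trans (h3 rfl).symm
      · exact e1
      · exact (h2 rfl).trans (h4 rfl).symm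
      · exact e2
    · by_cases hc : ∃ v ∈ S, ∃ w ∈ S, v 2 ≠ w 2
      · obtain ⟨v₀, hv₀, w₀, hw₀, hne⟩ := hc
        have key : ∀ v ∈ S, ∀ w ∈ S, v 2 ≠ w 2 → v 3 = w 3 := by
          intro v hv w hw hvw
          obtain ⟨-, -, -, -, h5⟩ := h v hv w hw
          have h6 : (v 2 - w 2) * (v 3 - w 3) = 0 := by
            have h7 : b * b * ((v 2 - w 2) * (v 3 - w 3)) = 0 := by
              linear_combination -h5
            exact (mul_eq_zero.1 h7).resolve_left (mul_ne_zero hb hb)
          exact sub_eq_zero.1 ((mul_eq_zero.1 h6).resolve_left (sub_ne_zero.2 hvw))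
        have k3 : ∀ v ∈ S, v 3 = v₀ 3 := by
          intro v hv
          by_cases h1 : v 2 = v₀ 2
          · rw [key v₀ hv₀ w₀ hw₀ hne]
            exact key v hv w₀ hw₀ (by rw [h1]; exact hne)
          · exact key v hv v₀ hv₀ h1
        refine card_le9 S (fun v => (v 1, v 2)) fun v hv w hw e => ?_
        obtain ⟨h1, h2, h3, h4, -⟩ := h v hv w hw
        have e1 := congrArg Prod.fst e
        have e2 := congrArg Prod.snd e
        funext i
        fin_cases i
        · exact (h1 rfl).trans (h3 rfl).symm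
        · exact e1
        · exact e2
        · exact (k3 v hv).trans (k3 w hw).symm
      · push Not at hc
        refine card_le9 S (fun v => (v 1, v 3)) fun v hv w hw e => ?_
        obtain ⟨h1, h2, h3, h4, -⟩ := h v hv w hw
        have e1 := congrArg Prod.fst e
        have e2 := congrArg Prod.snd e
        funext i
        fin_cases i
        · exact (h1 rfl).trans (h3 rfl).symm
        · exact e1
        · exact hc v hv w hw
        · exact e2
  · by_cases hb : b = 0
    · subst hb
      by_cases hc : ∃ v ∈ S, ∃ w ∈ S, v 0 ≠ w 0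
      · obtain ⟨v₀, hv₀, w₀, hw₀, hne⟩ := hc
        have key : ∀ v ∈ S, ∀ w ∈ S, v 0 ≠ w 0 → v 1 = w 1 := by
          intro v hv w hw hvw
          obtain ⟨-, -, -, -, h5⟩ := h v hv w hw
          have h6 : (v 0 - w 0) * (v 1 - w 1) = 0 := by
            have h7 : a * a * ((v 0 - w 0) * (v 1 - w 1)) = 0 := by
              linear_combination h5
            exact (mul_eq_zero.1 h7).resolve_left (mul_ne_zero ha ha)
          exact sub_eq_zero.1 ((mul_eq_zero.1 h6).resolve_left (sub_ne_zero.2 hvw))
        have k3 : ∀ v ∈ S, v 1 = v₀ 1 := by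
          intro v hv
          by_cases h1 : v 0 = v₀ 0
          · rw [key v₀ hv₀ w₀ hw₀ hne]
            exact key v hv w₀ hw₀ (by rw [h1]; exact hne)
          · exact key v hv v₀ hv₀ h1
        refine card_le9 S (fun v => (v 0, v 3)) fun v hv w hw e => ?_
        obtain ⟨h1, h2, h3, h4, -⟩ := h v hv w hw
        have e1 := congrArg Prod.fst e
        have e2 := congrArg Prod.snd e
        funext i
        fin_cases i
        · exact e1
        · exact (k3 v hv).trans (k3 w hw).symm
        · exact (h2 rfl).trans (h4 rfl).symm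
        · exact e2
      · push Not at hc
        refine card_le9 S (fun v => (v 1, v 3)) fun v hv w hw e => ?_
        obtain ⟨h1, h2, h3, h4, -⟩ := h v hv w hw
        have e1 := congrArg Prod.fst e
        have e2 := congrArg Prod.snd e
        funext i
        fin_cases i
        · exact hc v hv w hw
        · exact e1
        · exact (h2 rfl).trans (h4 rfl).symm
        · exact e2
    · refine clique S fun v hv w hw => ?_
      obtain ⟨-, -, -, -, h5⟩ := h v hv w hw
      have h6 := eq_one_of_ne ha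
      have h7 := eq_one_of_ne hb
      rw [h6, h7, one_mul, one_mul] at h5
      unfold qf
      simpa only [Pi.sub_apply] using h5

theorem card_clR {Q C : Type} [Fintype Q] [Fintype C] [DecidableEq Q] [DecidableEq C] (cl : Q → C)
    (R : C → (Fin 4 → ZMod 3) → (Fin 4 → ZMod 3) → Prop)
    (hR : ∀ c (S : Finset (Fin 4 → ZMod 3)), (∀ v ∈ S, ∀ w ∈ S, R c v w) → S.card ≤ 9) :
    (univ.filter fun f : Q → Fin 4 → ZMod 3 =>
      ∀ q q', cl q = cl q' → R (cl q) (f q) (f q')).card ≤
      Fintype.card (C → Finset (Fin 4 → ZMod 3)) * 9 ^ Fintype.card Q := by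
  have h1 : (univ.filter fun f : Q → Fin 4 → ZMod 3 =>
      ∀ q q', cl q = cl q' → R (cl q) (f q) (f q')) ⊆
      (univ.filter fun I : C → Finset (Fin 4 → ZMod 3) => ∀ c, (I c).card ≤ 9).biUnion fun I =>
        Fintype.piFinset fun q => I (cl q) := by
    intro f hf
    rw [mem_filter] at hf
    rw [mem_biUnion]
    refine ⟨fun c => (univ.filter fun q => cl q = c).image f, ?_, ?_⟩
    · rw [mem_filter]
      refine ⟨mem_univ _, fun c => hR c _ ?_⟩
      intro v hv w hw
      rw [mem_image] at hv hw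
      obtain ⟨q, hq, rfl⟩ := hv
      obtain ⟨q', hq', rfl⟩ := hw
      rw [mem_filter] at hq hq'
      have := hf.2 q q' (hq.2.trans hq'.2.symm)
      rwa [hq.2] at this
    · rw [Fintype.mem_piFinset]
      intro q
      exact mem_image_of_mem f (mem_filter.2 ⟨mem_univ _, rfl⟩)
  refine (card_le_card h1).trans (card_biUnion_le.trans ?_)
  have h2 : ∀ I ∈ (univ.filter fun I : C → Finset (Fin 4 → ZMod 3) => ∀ c, (I c).card ≤ 9),
      (Fintype.piFinset fun q => I (cl q)).card ≤ 9 ^ Fintype.card Q := by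
    intro I hI
    rw [mem_filter] at hI
    rw [Fintype.card_piFinset]
    refine (prod_le_prod' fun q _ => hI.2 (cl q)).trans (le_of_eq ?_)
    rw [prod_const, card_univ]
  refine (sum_le_sum h2).trans ?_
  rw [sum_const, smul_eq_mul]
  apply Nat.mul_le_mul_right
  refine (card_filter_le _ _).trans (le_of_eq ?_)
  rw [card_univ]

theorem card_clG {Q : Type} [Fintype Q] [DecidableEq Q] (cl : Q → ZMod 3 × ZMod 3) :
    (univ.filter fun f : Q → Fin 4 → ZMod 3 =>
      ∀ q q', cl q = cl q' → Rq (cl q) (f q) (f q')).card ≤ KC * 9 ^ Fintype.card Q :=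
  card_clR cl Rq cliqueG

theorem five0 : ∀ a b : ZMod 3, a ≠ b → ∀ c d : ZMod 3, (@Finset.filter (ZMod 3 × ZMod 3)
    (fun x => b * ((x.1 - c) * (x.2 + d)) - a * (x.1 * x.2) = 0)
    (fun _ => inferInstance) univ).card ≤ 5 := by
  decide

/-- the number of the types of a vertex of `κ` -/
theorem fiveG {a b : ZMod 3} (hab : a ≠ b) (p r c d : ZMod 3) :
    (univ.filter fun x : ZMod 3 × ZMod 3 => a * ((x.1 - p) * (r - x.2)) +
      b * ((x.1 - c) * (d + x.2)) = 0).card ≤ 5 := by
  refine (card_le_card_of_injOn (fun x : ZMod 3 × ZMod 3 => (x.1 - p, x.2 - r)) ?_ ?_).trans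
    (five0 a b hab (c - p) (d + r))
  · intro x hx
    rw [mem_coe, mem_filter] at hx ⊢
    refine ⟨mem_univ _, ?_⟩
    rw [← hx.2]
    ring
  · intro x _ y _ h
    have h1 := congrArg Prod.fst h
    have h2 := congrArg Prod.snd h
    exact Prod.ext (sub_left_injective h1) (sub_left_injective h2)

end Run7.h707.TD
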